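import Pool.Agent.GLam.Strong

open MeasureTheory Set ENNReal
open scoped NNReal

namespace Pool.Agent.GLam

/-- the measure with density `U` -/
noncomputable def wm (U : ℝ → ℝ) : Measure ℝ :=
  (volume : Measure ℝ).withDensity (fun x => ENNReal.ofReal (U x))

/-- a strictly positive measurable locally integrable weight -/
structure Nice (U : ℝ → ℝ) : Prop where
  pos : ∀ x, 0 < U x
  meas : Measurable U
  fin : ∀ a b : ℝ, ∫⁻ x in Ioo a b, ENNReal.ofReal (U x) < ∞

variable {U : ℝ → ℝ}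

lemma wm_apply (U : ℝ → ℝ) {s : Set ℝ} (hs : MeasurableSet s) :
    wm U s = ∫⁻ x in s, ENNReal.ofReal (U x) := withDensity_apply _ hs

lemma Nice.ofReal_meas (hU : Nice U) : Measurable (fun x => ENNReal.ofReal (U x)) :=
  hU.meas.ennreal_ofReal

lemma Nice.lintegral (hU : Nice U) {g : ℝ → ℝ≥0∞} (hg : Measurable g) :
    ∫⁻ x, g x ∂(wm U) = ∫⁻ x, g x * ENNReal.ofReal (U x) := by
  unfold wm
  rw [lintegral_withDensity_eq_lintegral_mul _ hU.ofReal_meas hg]
  refine lintegral_congr (fun x => ?_)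
  simp only [Pi.mul_apply]
  ring

lemma Nice.setLIntegral (hU : Nice U) {g : ℝ → ℝ≥0∞} (hg : Measurable g) {s : Set ℝ}
    (hs : MeasurableSet s) :
    ∫⁻ x in s, g x ∂(wm U) = ∫⁻ x in s, g x * ENNReal.ofReal (U x) := by
  unfold wm
  rw [setLIntegral_withDensity_eq_setLIntegral_mul _ hU.ofReal_meas hg hs]
  refine lintegral_congr (fun x => ?_)
  simp only [Pi.mul_apply]
  ring

lemma Nice.mass_pos (hU : Nice U) {a b : ℝ} (hab : a < b) : 0 < wm U (Ioo a b) := by
  rw [wm_apply U measurableSet_Ioo]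
  rw [setLIntegral_pos_iff hU.ofReal_meas]
  have : Function.support (fun x => ENNReal.ofReal (U x)) = univ := by
    ext x
    simp [hU.pos x]
  rw [this, univ_inter, Real.volume_Ioo]
  simpa using hab

lemma Nice.mass_lt_top (hU : Nice U) (a b : ℝ) : wm U (Ioo a b) < ∞ := by
  rw [wm_apply U measurableSet_Ioo]
  exact hU.fin a b

lemma Nice.locFin (hU : Nice U) : IsLocallyFiniteMeasure (wm U) := by
  constructor
  intro x
  exact ⟨Ioo (x - 1) (x + 1), Ioo_mem_nhds (by linarith) (by linarith), hU.mass_lt_top _ _⟩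

/-- the conjugate weight -/
noncomputable def conj (p : ℝ) (U : ℝ → ℝ) (x : ℝ) : ℝ := U x ^ (-(1 / (p - 1)))

/-- Muckenhoupt `A_p` condition for a nice weight -/
structure ApW (p : ℝ) (A : ℝ≥0) (U : ℝ → ℝ) : Prop where
  nice : Nice U
  nice' : Nice (conj p U)
  ap : ∀ a b : ℝ, a < b → wm U (Ioo a b) * (wm (conj p U) (Ioo a b)) ^ (p - 1) ≤
    A * ENNReal.ofReal (b - a) ^ p

lemma ofReal_conj {p : ℝ} (hU : Nice U) (x : ℝ) :
    ENNReal.ofReal (conj p U x) = (ENNReal.ofReal (U x)) ^ (-(1 / (p - 1))) := by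
  unfold conj
  rw [ENNReal.ofReal_rpow_of_pos (hU.pos x)]

lemma lerner {p : ℝ} (hp : 1 < p) {A : ℝ≥0} (h : ApW p A U) {f : ℝ → ℝ≥0∞} (hf : Measurable f)
    (x : ℝ) : MM volume f x ≤ (A * MM (wm U) (fun t =>
      (MM (wm (conj p U)) (fun t => f t / ENNReal.ofReal (conj p U t)) t) ^ (p - 1) /
        ENNReal.ofReal (U t)) x) ^ (1 / (p - 1)) := by
  have hp1 : 0 < p - 1 := by linarith
  set S := conj p U with hS
  set F1 : ℝ → ℝ≥0∞ := fun t => f t / ENNReal.ofReal (S t) with hF1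
  set G : ℝ → ℝ≥0∞ := fun t => (MM (wm S) F1 t) ^ (p - 1) / ENNReal.ofReal (U t) with hG
  have hF1m : Measurable F1 := hf.div h.nice'.ofReal_meas
  have hGm : Measurable G := ((measurable_MM _ _).pow_const _).div h.nice.ofReal_meas
  have key : ∀ a b : ℝ, a < x → x < b →
      ((∫⁻ t in Ioo a b, f t) / volume (Ioo a b)) ^ (p - 1) ≤ A * MM (wm U) G x := by
    intro a b ha hb
    have hab : a < b := ha.trans hb
    set X := ∫⁻ t in Ioo a b, f t with hX
    set s := wm S (Ioo a b) with hs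
    set u := wm U (Ioo a b) with hu
    have hs0 : s ≠ 0 := (h.nice'.mass_pos hab).ne'
    have hst : s ≠ ∞ := (h.nice'.mass_lt_top a b).ne
    have hu0 : u ≠ 0 := (h.nice.mass_pos hab).ne'
    have hut : u ≠ ∞ := (h.nice.mass_lt_top a b).ne
    set ℓ := ENNReal.ofReal (b - a) with hℓ
    have hℓ0 : ℓ ≠ 0 := by simpa [hℓ] using hab
    have hℓt : ℓ ≠ ∞ := ENNReal.ofReal_ne_top
    have hvol : volume (Ioo a b) = ℓ := Real.volume_Ioo
    rw [hvol]
    set m := X / s with hm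
    have hms : m * s = X := ENNReal.div_mul_cancel hs0 hst
    have hint1 : ∫⁻ t in Ioo a b, F1 t ∂(wm S) = X := by
      rw [h.nice'.setLIntegral hF1m measurableSet_Ioo]
      refine lintegral_congr (fun t => ?_)
      simp only [hF1]
      rw [ENNReal.div_mul_cancel]
      · simpa using h.nice'.pos t
      · exact ENNReal.ofReal_ne_top
    have hmle : ∀ t ∈ Ioo a b, m ≤ MM (wm S) F1 t := by
      intro t ht
      have := le_MM (wm S) F1 ht.1 ht.2
      rwa [hint1] at this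
    have hg : m ^ (p - 1) * ℓ ≤ ∫⁻ t in Ioo a b, G t ∂(wm U) := by
      rw [h.nice.setLIntegral hGm measurableSet_Ioo]
      calc m ^ (p - 1) * ℓ = ∫⁻ _ in Ioo a b, m ^ (p - 1) := by
            rw [setLIntegral_const, hvol]
        _ ≤ ∫⁻ t in Ioo a b, G t * ENNReal.ofReal (U t) := by
            refine setLIntegral_mono' measurableSet_Ioo (fun t ht => ?_)
            simp only [hG]
            rw [ENNReal.div_mul_cancel (by simpa using h.nice.pos t) ENNReal.ofReal_ne_top]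
            exact ENNReal.rpow_le_rpow (hmle t ht) hp1.le
    set Y := X / ℓ with hY
    have hYℓ : Y * ℓ = X := ENNReal.div_mul_cancel hℓ0 hℓt
    have h1 : Y ^ (p - 1) * u * ℓ ^ (p - 1) ≤ A * (m ^ (p - 1) * ℓ) * ℓ ^ (p - 1) := by
      calc Y ^ (p - 1) * u * ℓ ^ (p - 1) = (Y * ℓ) ^ (p - 1) * u := by
            rw [ENNReal.mul_rpow_of_nonneg _ _ hp1.le]; ring
        _ = (m * s) ^ (p - 1) * u := by rw [hYℓ, hms]
        _ = m ^ (p - 1) * (u * s ^ (p - 1)) := by
            rw [ENNReal.mul_rpow_of_nonneg _ _ hp1.le]; ring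
        _ ≤ m ^ (p - 1) * (A * ℓ ^ p) := mul_le_mul' le_rfl (h.ap a b hab)
        _ = A * (m ^ (p - 1) * ℓ) * ℓ ^ (p - 1) := by
            have : ℓ ^ p = ℓ * ℓ ^ (p - 1) := by
              have := ENNReal.rpow_add_of_nonneg (x := ℓ) 1 (p - 1) (by norm_num) hp1.le
              rw [ENNReal.rpow_one] at this
              rw [← this]; congr 1; ring
            rw [this]; ring
    have hℓp0 : ℓ ^ (p - 1) ≠ 0 := by
      rw [Ne, ENNReal.rpow_eq_zero_iff]
      push Not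
      exact ⟨fun h => absurd h hℓ0, fun h => absurd h hℓt⟩
    have hℓpt : ℓ ^ (p - 1) ≠ ∞ := ENNReal.rpow_ne_top_of_nonneg hp1.le hℓt
    have h2 : Y ^ (p - 1) * u ≤ A * (m ^ (p - 1) * ℓ) :=
      (ENNReal.mul_le_mul_iff_left hℓp0 hℓpt).1 h1
    have h3 : Y ^ (p - 1) ≤ A * ((∫⁻ t in Ioo a b, G t ∂(wm U)) / u) := by
      rw [← mul_div_assoc, ENNReal.le_div_iff_mul_le (Or.inl hu0) (Or.inl hut)]
      exact h2.trans (by gcongr)
    exact h3.trans (by gcongr; exact le_MM (wm U) G ha hb)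
  conv_lhs => unfold MM
  refine iSup_le (fun a => iSup_le (fun b => iSup_le (fun hab => ?_)))
  have h1 := key a b hab.1 hab.2
  have h2 := ENNReal.rpow_le_rpow h1 (by positivity : 0 ≤ 1 / (p - 1))
  rwa [← ENNReal.rpow_mul, mul_one_div_cancel hp1.ne', ENNReal.rpow_one] at h2

/-- Muckenhoupt's theorem -/
theorem muckenhoupt {p : ℝ} (hp : 1 < p) {A : ℝ≥0} (h : ApW p A U) :
    ∃ K : ℝ≥0, ∀ f : ℝ → ℝ≥0∞, Measurable f →
      ∫⁻ x, (MM volume f x) ^ p * ENNReal.ofReal (U x) ≤ K * ∫⁻ x, f x ^ p * ENNReal.ofReal (U x) := by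
  have hp1 : 0 < p - 1 := by linarith
  set p' : ℝ := p / (p - 1) with hp'
  have hp'1 : 1 < p' := by rw [hp', lt_div_iff₀ hp1]; linarith
  set c1 : ℝ≥0∞ := ENNReal.ofReal (4 * p' / (p' - 1)) * 2 ^ (p' - 1) with hc1
  set c2 : ℝ≥0∞ := ENNReal.ofReal (4 * p / (p - 1)) * 2 ^ (p - 1) with hc2
  have hc1t : c1 ≠ ∞ := ENNReal.mul_ne_top ENNReal.ofReal_ne_top
    (ENNReal.rpow_ne_top_of_nonneg (by linarith) (by simp))
  have hc2t : c2 ≠ ∞ := ENNReal.mul_ne_top ENNReal.ofReal_ne_top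
    (ENNReal.rpow_ne_top_of_nonneg (by linarith) (by simp))
  have hKt : (A : ℝ≥0∞) ^ p' * c1 * c2 ≠ ∞ :=
    ENNReal.mul_ne_top (ENNReal.mul_ne_top (ENNReal.rpow_ne_top_of_nonneg (by linarith) (by simp))
      hc1t) hc2t
  refine ⟨((A : ℝ≥0∞) ^ p' * c1 * c2).toNNReal, fun f hf => ?_⟩
  rw [ENNReal.coe_toNNReal hKt]
  have i1 := h.nice.locFin
  have i2 := h.nice'.locFin
  set S := conj p U with hS
  set F1 : ℝ → ℝ≥0∞ := fun t => f t / ENNReal.ofReal (S t) with hF1
  set G : ℝ → ℝ≥0∞ := fun t => (MM (wm S) F1 t) ^ (p - 1) / ENNReal.ofReal (U t) with hG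
  have hF1m : Measurable F1 := hf.div h.nice'.ofReal_meas
  have hGm : Measurable G := ((measurable_MM _ _).pow_const _).div h.nice.ofReal_meas
  calc ∫⁻ x, (MM volume f x) ^ p * ENNReal.ofReal (U x)
      ≤ ∫⁻ x, (A : ℝ≥0∞) ^ p' * ((MM (wm U) G x) ^ p' * ENNReal.ofReal (U x)) := by
        refine lintegral_mono (fun x => ?_)
        rw [← mul_assoc, ← ENNReal.mul_rpow_of_nonneg _ _ (by linarith)]
        gcongr
        have h1 := ENNReal.rpow_le_rpow (lerner hp h hf x) (by linarith : 0 ≤ p)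
        rwa [← ENNReal.rpow_mul, one_div_mul_eq_div] at h1
    _ = (A : ℝ≥0∞) ^ p' * ∫⁻ x, (MM (wm U) G x) ^ p' ∂(wm U) := by
        rw [lintegral_const_mul' _ _ (ENNReal.rpow_ne_top_of_nonneg (by linarith) (by simp)),
          h.nice.lintegral ((measurable_MM _ _).pow_const _)]
    _ ≤ (A : ℝ≥0∞) ^ p' * (c1 * ∫⁻ x, G x ^ p' ∂(wm U)) := by
        gcongr
        exact strong_type (wm U) hGm hp'1
    _ = (A : ℝ≥0∞) ^ p' * (c1 * ∫⁻ x, (MM (wm S) F1 x) ^ p ∂(wm S)) := by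
        congr 2
        rw [h.nice.lintegral (hGm.pow_const _), h.nice'.lintegral ((measurable_MM _ _).pow_const _)]
        refine lintegral_congr (fun x => ?_)
        simp only [hG]
        have hu0 : ENNReal.ofReal (U x) ≠ 0 := by simpa using h.nice.pos x
        have hut : ENNReal.ofReal (U x) ≠ ∞ := ENNReal.ofReal_ne_top
        rw [hS, ofReal_conj h.nice, ENNReal.div_rpow_of_nonneg _ _ (by linarith),
          ← ENNReal.rpow_mul, hp', mul_div_cancel₀ _ hp1.ne', div_eq_mul_inv, mul_assoc]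
        congr 1
        rw [← ENNReal.rpow_neg]
        have h3 := ENNReal.rpow_add (-(p / (p - 1))) 1 hu0 hut
        rw [ENNReal.rpow_one] at h3
        rw [← h3]
        congr 1
        field_simp
        ring
    _ ≤ (A : ℝ≥0∞) ^ p' * (c1 * (c2 * ∫⁻ x, F1 x ^ p ∂(wm S))) := by
        gcongr
        exact strong_type (wm S) hF1m hp
    _ = (A : ℝ≥0∞) ^ p' * c1 * c2 * ∫⁻ x, F1 x ^ p ∂(wm S) := by ring
    _ = (A : ℝ≥0∞) ^ p' * c1 * c2 * ∫⁻ x, f x ^ p * ENNReal.ofReal (U x) := by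
        congr 1
        rw [h.nice'.lintegral (hF1m.pow_const _)]
        refine lintegral_congr (fun x => ?_)
        simp only [hF1]
        have hu0 : ENNReal.ofReal (U x) ≠ 0 := by simpa using h.nice.pos x
        have hut : ENNReal.ofReal (U x) ≠ ∞ := ENNReal.ofReal_ne_top
        rw [hS, ofReal_conj h.nice, ENNReal.div_rpow_of_nonneg _ _ (by linarith),
          ← ENNReal.rpow_mul, div_eq_mul_inv, mul_assoc, ← ENNReal.rpow_neg,
          ← ENNReal.rpow_add _ _ hu0 hut]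
        congr 1
        conv_rhs => rw [← ENNReal.rpow_one (ENNReal.ofReal (U x))]
        congr 1
        field_simp
        ring

end Pool.Agent.GLam
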