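import Pool.Agent.GLam.LTwo
import Pool.Agent.GLam.Muck

open MeasureTheory Set ENNReal Filter Topology
open scoped NNReal

namespace Pool.Agent.GLam

variable {A : ℝ} {V W : ℝ → ℝ}

/-- reciprocal weights with an `A_2` bound over intervals -/
structure A2 (A : ℝ) (V W : ℝ → ℝ) : Prop where
  nV : Nice V
  nW : Nice W
  VW : ∀ x, V x * W x = 1
  A1 : 1 ≤ A
  bd : ∀ a b : ℝ, a < b → wm V (Ioo a b) * wm W (Ioo a b) ≤ ENNReal.ofReal (A * (b - a) ^ 2)

lemma A2.symm (h : A2 A V W) : A2 A W V where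
  nV := h.nW
  nW := h.nV
  VW := fun x => by rw [mul_comm]; exact h.VW x
  A1 := h.A1
  bd := fun a b hab => by rw [mul_comm]; exact h.bd a b hab

lemma cs_set (hV : Nice V) (hW : Nice W) (hVW : ∀ x, V x * W x = 1) {E : Set ℝ}
    (hE : MeasurableSet E) : (volume E) ^ 2 ≤ wm V E * wm W E := by
  have hm1 : Measurable (fun x => ENNReal.ofReal (√(V x))) := (hV.meas.sqrt).ennreal_ofReal
  have hm2 : Measurable (fun x => ENNReal.ofReal (√(W x))) := (hW.meas.sqrt).ennreal_ofReal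
  have h1 := cs_lintegral (volume.restrict E) hm1.aemeasurable hm2.aemeasurable
  have e1 : ∫⁻ x in E, ENNReal.ofReal (√(V x)) * ENNReal.ofReal (√(W x)) = volume E := by
    have : ∀ x, ENNReal.ofReal (√(V x)) * ENNReal.ofReal (√(W x)) = 1 := by
      intro x
      rw [← ENNReal.ofReal_mul (Real.sqrt_nonneg _), ← Real.sqrt_mul (hV.pos x).le, hVW x]
      simp
    simp only [this, setLIntegral_one]
  have e2 : ∫⁻ x in E, ENNReal.ofReal (√(V x)) ^ 2 = wm V E := by
    simp only [fun x => sqrt_sq_ofReal (hV.pos x).le]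
    exact (wm_apply V hE).symm
  have e3 : ∫⁻ x in E, ENNReal.ofReal (√(W x)) ^ 2 = wm W E := by
    simp only [fun x => sqrt_sq_ofReal (hW.pos x).le]
    exact (wm_apply W hE).symm
  rwa [e1, e2, e3] at h1

/-- real mass of a concentric interval -/
noncomputable def rm (V : ℝ → ℝ) (z y : ℝ) (k : ℕ) : ℝ :=
  (wm V (Ioo (z - 2 ^ k * y) (z + 2 ^ k * y))).toReal

lemma rm_pos (hV : Nice V) (z : ℝ) {y : ℝ} (hy : 0 < y) (k : ℕ) : 0 < rm V z y k := by
  have h2 : (0 : ℝ) < 2 ^ k * y := by positivity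
  exact ENNReal.toReal_pos (hV.mass_pos (by linarith)).ne' (hV.mass_lt_top _ _).ne

lemma A2.low (h : A2 A V W) (z : ℝ) {y : ℝ} (hy : 0 < y) :
    (2 * y) ^ 2 ≤ rm V z y 0 * rm W z y 0 := by
  have h1 := cs_set h.nV h.nW h.VW (E := Ioo (z - 2 ^ 0 * y) (z + 2 ^ 0 * y)) measurableSet_Ioo
  have h2 := ENNReal.toReal_mono (ENNReal.mul_ne_top (h.nV.mass_lt_top _ _).ne
    (h.nW.mass_lt_top _ _).ne) h1
  rw [ENNReal.toReal_mul, ENNReal.toReal_pow, Real.volume_Ioo,
    ENNReal.toReal_ofReal (by simp; linarith)] at h2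
  refine le_trans (le_of_eq ?_) h2
  ring

lemma A2.up (h : A2 A V W) (z : ℝ) {y : ℝ} (hy : 0 < y) (k : ℕ) :
    rm V z y k * rm W z y k ≤ A * (2 ^ k * (2 * y)) ^ 2 := by
  have h2k : (0 : ℝ) < 2 ^ k * y := by positivity
  have h1 := h.bd (z - 2 ^ k * y) (z + 2 ^ k * y) (by linarith)
  have hA := h.A1
  have h2 := ENNReal.toReal_mono ENNReal.ofReal_ne_top h1
  rw [ENNReal.toReal_mul, ENNReal.toReal_ofReal (by positivity)] at h2
  refine le_trans h2 (le_of_eq ?_)
  ring

lemma A2.reverse (h : A2 A V W) (z : ℝ) {y : ℝ} (hy : 0 < y) (k : ℕ) :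
    rm W z y k ≤ (1 - 1 / (4 * A)) * rm W z y (k + 1) := by
  have hA := h.A1
  have h2k : (0 : ℝ) < 2 ^ k * y := by positivity
  set I := Ioo (z - 2 ^ k * y) (z + 2 ^ k * y) with hI
  set J := Ioo (z - 2 ^ (k + 1) * y) (z + 2 ^ (k + 1) * y) with hJ
  have e2 : (2 : ℝ) ^ (k + 1) * y = 2 * (2 ^ k * y) := by rw [pow_succ]; ring
  have hIJ : I ⊆ J := by
    rw [hI, hJ]
    apply Ioo_subset_Ioo <;> linarith
  have hmI : MeasurableSet I := measurableSet_Ioo
  have hmE : MeasurableSet (J \ I) := measurableSet_Ioo.diff measurableSet_Ioo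
  have hWI : wm W I ≠ ∞ := (h.nW.mass_lt_top _ _).ne
  have hWJ : wm W J ≠ ∞ := (h.nW.mass_lt_top _ _).ne
  have hVJ : wm V J ≠ ∞ := (h.nV.mass_lt_top _ _).ne
  have hdiff : wm W I + wm W (J \ I) = wm W J := by
    have := measure_inter_add_sdiff (μ := wm W) J hmI
    rwa [inter_eq_right.2 hIJ] at this
  have hWE : wm W (J \ I) ≠ ∞ := ne_top_of_le_ne_top hWJ (measure_mono sdiff_subset)
  have hd2 : rm W z y k + (wm W (J \ I)).toReal = rm W z y (k + 1) := by
    unfold rm
    rw [← hI, ← hJ, ← hdiff, ENNReal.toReal_add hWI hWE]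
  have hvolE : volume (J \ I) = ENNReal.ofReal (2 * (2 ^ k * y)) := by
    rw [measure_sdiff hIJ hmI.nullMeasurableSet (by rw [hI, Real.volume_Ioo]; exact ENNReal.ofReal_ne_top),
      hI, hJ, Real.volume_Ioo, Real.volume_Ioo, ← ENNReal.ofReal_sub _ (by linarith)]
    congr 1
    rw [e2]; ring
  have hcs := cs_set h.nV h.nW h.VW hmE
  rw [hvolE] at hcs
  have hcs2 : ENNReal.ofReal (2 * (2 ^ k * y)) ^ 2 ≤ wm V J * wm W (J \ I) :=
    hcs.trans (by gcongr; exact sdiff_subset)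
  have hcs3 := ENNReal.toReal_mono (ENNReal.mul_ne_top hVJ hWE) hcs2
  rw [ENNReal.toReal_mul, ENNReal.toReal_pow, ENNReal.toReal_ofReal (by positivity)] at hcs3
  have hup := h.up z hy (k + 1)
  have hVpos := rm_pos h.nV z hy (k + 1)
  have hVJ' : (wm V J).toReal = rm V z y (k + 1) := rfl
  rw [hVJ'] at hcs3
  set d := (wm W (J \ I)).toReal with hd
  have h4 : rm V z y (k + 1) * rm W z y (k + 1) ≤ rm V z y (k + 1) * (4 * A * d) := by
    calc rm V z y (k + 1) * rm W z y (k + 1) ≤ A * (2 ^ (k + 1) * (2 * y)) ^ 2 := hup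
      _ = 4 * A * (2 * (2 ^ k * y)) ^ 2 := by rw [pow_succ]; ring
      _ ≤ 4 * A * (rm V z y (k + 1) * d) := by gcongr
      _ = _ := by ring
  have h5 : rm W z y (k + 1) ≤ 4 * A * d := le_of_mul_le_mul_left h4 hVpos
  have h6 : rm W z y (k + 1) / (4 * A) ≤ d := by
    rw [div_le_iff₀ (by positivity)]; linarith
  have h7 : (1 - 1 / (4 * A)) * rm W z y (k + 1) = rm W z y (k + 1) - rm W z y (k + 1) / (4 * A) := by
    ring
  rw [h7]
  linarith

lemma A2.theta (h : A2 A V W) : 0 < 1 - 1 / (4 * A) ∧ 1 - 1 / (4 * A) < 1 := by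
  have hA := h.A1
  constructor
  · rw [sub_pos, div_lt_one (by positivity)]; linarith
  · have : 0 < 1 / (4 * A) := by positivity
    linarith

lemma A2.growth (h : A2 A V W) (z : ℝ) {y : ℝ} (hy : 0 < y) (k : ℕ) :
    rm V z y k ≤ A * (4 ^ k * (1 - 1 / (4 * A)) ^ k) * rm V z y 0 := by
  obtain ⟨ht0, ht1⟩ := h.theta
  set θ := 1 - 1 / (4 * A) with hθ
  have hA := h.A1
  have hrev : ∀ k, rm W z y 0 ≤ θ ^ k * rm W z y k := by
    intro k
    induction k with
    | zero => simp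
    | succ k ih =>
      calc rm W z y 0 ≤ θ ^ k * rm W z y k := ih
        _ ≤ θ ^ k * (θ * rm W z y (k + 1)) := by
            gcongr; exact h.reverse z hy k
        _ = _ := by rw [pow_succ]; ring
  have hW0 := rm_pos h.nW z hy 0
  have hWk := rm_pos h.nW z hy k
  have hVk := rm_pos h.nV z hy k
  have hlow := h.low z hy
  have hup := h.up z hy k
  have h1 : rm V z y k * rm W z y 0 ≤ (A * (4 ^ k * θ ^ k) * rm V z y 0) * rm W z y 0 := by
    calc rm V z y k * rm W z y 0 ≤ rm V z y k * (θ ^ k * rm W z y k) := by gcongr; exact hrev k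
      _ = θ ^ k * (rm V z y k * rm W z y k) := by ring
      _ ≤ θ ^ k * (A * (2 ^ k * (2 * y)) ^ 2) := by gcongr
      _ = A * (4 ^ k * θ ^ k) * (2 * y) ^ 2 := by
          have : (4 : ℝ) ^ k = 2 ^ k * 2 ^ k := by rw [← mul_pow]; norm_num
          rw [this]; ring
      _ ≤ A * (4 ^ k * θ ^ k) * (rm V z y 0 * rm W z y 0) := by gcongr
      _ = _ := by ring
  exact le_of_mul_le_mul_right h1 hW0

lemma Pk_le_tsum {y : ℝ} (hy : 0 < y) (z x : ℝ) :
    ENNReal.ofReal (Pk y (z - x)) ≤ ∑' k : ℕ, ENNReal.ofReal (4 / (Real.pi * y) * (1 / 4) ^ k) *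
      (Ioo (z - 2 ^ k * y) (z + 2 ^ k * y)).indicator (fun _ => (1 : ℝ≥0∞)) x := by
  have hpi := Real.pi_pos
  have hmem : ∀ k : ℕ, x ∈ Ioo (z - 2 ^ k * y) (z + 2 ^ k * y) ↔ |z - x| < 2 ^ k * y := by
    intro k
    rw [abs_lt, mem_Ioo]
    constructor <;> rintro ⟨h1, h2⟩ <;> constructor <;> linarith
  have hex : ∃ k : ℕ, |z - x| < 2 ^ k * y := by
    obtain ⟨k, hk⟩ := pow_unbounded_of_one_lt (|z - x| / y) (by norm_num : (1 : ℝ) < 2)
    exact ⟨k, by rwa [div_lt_iff₀ hy] at hk⟩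
  classical
  set j := Nat.find hex with hj
  have hjs : |z - x| < 2 ^ j * y := Nat.find_spec hex
  refine le_trans ?_ (ENNReal.le_tsum j)
  rw [indicator_of_mem ((hmem j).2 hjs), mul_one]
  apply ENNReal.ofReal_le_ofReal
  rcases Nat.eq_zero_or_pos j with h0 | hpos
  · rw [h0, pow_zero, mul_one]
    refine (Pk_le hy _).trans ?_
    gcongr
    norm_num
  · have hmin : ¬ |z - x| < 2 ^ (j - 1) * y := Nat.find_min hex (by omega)
    push Not at hmin
    obtain ⟨i, hi⟩ : ∃ i, j = i + 1 := ⟨j - 1, by omega⟩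
    rw [hi, Nat.add_sub_cancel] at hmin
    rw [hi]
    have h1 : ((2 : ℝ) ^ i * y) ^ 2 ≤ (z - x) ^ 2 := by
      rw [← sq_abs (z - x)]; gcongr
    have h2 : ((2 : ℝ) ^ i * y) ^ 2 = 4 ^ i * y ^ 2 := by
      rw [mul_pow, ← pow_mul, mul_comm i 2, pow_mul]; norm_num
    rw [h2] at h1
    unfold Pk
    have h4 : (0 : ℝ) < 4 ^ i := by positivity
    have h5 : (1 / 4 : ℝ) ^ (i + 1) = 1 / (4 * 4 ^ i) := by
      rw [pow_succ, one_div_pow]; ring
    rw [h5]
    have h6 : 4 / (Real.pi * y) * (1 / (4 * 4 ^ i)) = 1 / (Real.pi * y * 4 ^ i) := by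
      field_simp
    rw [h6, div_le_div_iff₀ (by positivity) (by positivity)]
    calc y * (Real.pi * y * 4 ^ i) = Real.pi * (4 ^ i * y ^ 2) := by ring
      _ ≤ Real.pi * ((z - x) ^ 2 + y ^ 2) := by
          gcongr
          have := sq_nonneg y
          linarith
      _ = _ := by ring

lemma A2.pe_le (h : A2 A V W) (z : ℝ) {y : ℝ} (hy : 0 < y) :
    pe V y z ≤ ENNReal.ofReal (16 * A ^ 2 / (Real.pi * y)) * wm V (Ioo (z - y) (z + y)) := by
  obtain ⟨ht0, ht1⟩ := h.theta
  set θ := 1 - 1 / (4 * A) with hθ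
  have hA := h.A1
  have hpi := Real.pi_pos
  have hm : ∀ k : ℕ, wm V (Ioo (z - 2 ^ k * y) (z + 2 ^ k * y)) = ENNReal.ofReal (rm V z y k) := by
    intro k
    unfold rm
    rw [ENNReal.ofReal_toReal (h.nV.mass_lt_top _ _).ne]
  calc pe V y z ≤ ∫⁻ x, (∑' k : ℕ, ENNReal.ofReal (4 / (Real.pi * y) * (1 / 4) ^ k) *
      (Ioo (z - 2 ^ k * y) (z + 2 ^ k * y)).indicator (fun _ => (1 : ℝ≥0∞)) x) *
        ENNReal.ofReal (V x) := by
        unfold pe PE
        exact lintegral_mono (fun x => mul_le_mul' (Pk_le_tsum hy z x) le_rfl)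
    _ = ∑' k : ℕ, ∫⁻ x, ENNReal.ofReal (4 / (Real.pi * y) * (1 / 4) ^ k) *
      (Ioo (z - 2 ^ k * y) (z + 2 ^ k * y)).indicator (fun _ => (1 : ℝ≥0∞)) x *
        ENNReal.ofReal (V x) := by
        rw [← lintegral_tsum]
        · refine lintegral_congr (fun x => ?_)
          rw [ENNReal.tsum_mul_right]
        · intro k
          exact ((measurable_const.mul ((measurable_const).indicator measurableSet_Ioo)).mul
            h.nV.ofReal_meas).aemeasurable
    _ = ∑' k : ℕ, ENNReal.ofReal (4 / (Real.pi * y) * (1 / 4) ^ k) *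
        wm V (Ioo (z - 2 ^ k * y) (z + 2 ^ k * y)) := by
        refine tsum_congr (fun k => ?_)
        rw [wm_apply V measurableSet_Ioo, ← lintegral_indicator measurableSet_Ioo,
          ← lintegral_const_mul' _ _ ENNReal.ofReal_ne_top]
        refine lintegral_congr (fun x => ?_)
        by_cases hx : x ∈ Ioo (z - 2 ^ k * y) (z + 2 ^ k * y)
        · rw [indicator_of_mem hx, indicator_of_mem hx, mul_one]
        · rw [indicator_of_notMem hx, indicator_of_notMem hx, mul_zero, zero_mul]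
    _ ≤ ∑' k : ℕ, ENNReal.ofReal (4 * A / (Real.pi * y)) * ENNReal.ofReal (θ ^ k) *
          wm V (Ioo (z - y) (z + y)) := by
        refine ENNReal.tsum_le_tsum (fun k => ?_)
        have h0 := hm 0
        rw [pow_zero, one_mul] at h0
        have hr0 := (rm_pos h.nV z hy 0).le
        rw [hm k, h0, ← ENNReal.ofReal_mul (by positivity), ← ENNReal.ofReal_mul (by positivity),
          ← ENNReal.ofReal_mul (by positivity)]
        apply ENNReal.ofReal_le_ofReal
        calc 4 / (Real.pi * y) * (1 / 4) ^ k * rm V z y k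
            ≤ 4 / (Real.pi * y) * (1 / 4) ^ k * (A * (4 ^ k * θ ^ k) * rm V z y 0) := by
              gcongr; exact h.growth z hy k
          _ = 4 * A / (Real.pi * y) * θ ^ k * rm V z y 0 * ((1 / 4) ^ k * 4 ^ k) := by ring
          _ = _ := by rw [← mul_pow]; norm_num
    _ = ENNReal.ofReal (4 * A / (Real.pi * y)) * (∑' k : ℕ, ENNReal.ofReal (θ ^ k)) *
          wm V (Ioo (z - y) (z + y)) := by
        rw [ENNReal.tsum_mul_right, ENNReal.tsum_mul_left]
    _ = _ := by
        rw [← ENNReal.ofReal_tsum_of_nonneg (fun k => by positivity)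
          (summable_geometric_of_lt_one ht0.le ht1), tsum_geometric_of_lt_one ht0.le ht1,
          ← ENNReal.ofReal_mul (by positivity)]
        congr 2
        rw [hθ]
        field_simp
        ring

/-- interval `A_2` implies Poisson `A_2`, with a uniform constant -/
theorem A2.pair (h : A2 A V W) : Pair (1024 * A ^ 5 / Real.pi ^ 2) V W where
  V0 := h.nV.pos
  W0 := h.nW.pos
  mV := h.nV.meas
  mW := h.nW.meas
  VW := h.VW
  Q0 := by
    have := h.A1
    have := Real.pi_pos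
    positivity
  bd := by
    intro t z ht
    have hA := h.A1
    have hpi := Real.pi_pos
    have h1 := h.pe_le z ht
    have h2 := h.symm.pe_le z ht
    have h3 := h.bd (z - t) (z + t) (by linarith)
    change pe V t z * pe W t z ≤ _
    calc pe V t z * pe W t z
        ≤ (ENNReal.ofReal (16 * A ^ 2 / (Real.pi * t)) * wm V (Ioo (z - t) (z + t))) *
          (ENNReal.ofReal (16 * A ^ 2 / (Real.pi * t)) * wm W (Ioo (z - t) (z + t))) := by gcongr
      _ = ENNReal.ofReal (16 * A ^ 2 / (Real.pi * t)) * ENNReal.ofReal (16 * A ^ 2 / (Real.pi * t)) *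
          (wm V (Ioo (z - t) (z + t)) * wm W (Ioo (z - t) (z + t))) := by ring
      _ ≤ ENNReal.ofReal (16 * A ^ 2 / (Real.pi * t)) * ENNReal.ofReal (16 * A ^ 2 / (Real.pi * t)) *
          ENNReal.ofReal (A * (z + t - (z - t)) ^ 2) := by gcongr
      _ = ENNReal.ofReal (1024 * A ^ 5 / Real.pi ^ 2) := by
          rw [← ENNReal.ofReal_mul (by positivity), ← ENNReal.ofReal_mul (by positivity)]
          congr 1
          field_simp
          ring

/-- mass of an interval through the Poisson average -/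
lemma wm_le_pe (z : ℝ) {t : ℝ} (ht : 0 < t) :
    wm V (Ioo (z - 8 * t) (z + 8 * t)) ≤ ENNReal.ofReal (64 * Real.pi * t) * pe V (t + t) z := by
  have hpi := Real.pi_pos
  rw [wm_apply V measurableSet_Ioo]
  unfold pe PE
  rw [← lintegral_const_mul' _ _ ENNReal.ofReal_ne_top, ← lintegral_indicator measurableSet_Ioo]
  refine lintegral_mono (fun x => ?_)
  by_cases hx : x ∈ Ioo (z - 8 * t) (z + 8 * t)
  · rw [indicator_of_mem hx, ← mul_assoc, ← ENNReal.ofReal_mul (by positivity)]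
    have h1 : 1 ≤ 64 * Real.pi * t * Pk (t + t) (z - x) := by
      unfold Pk
      have hx2 : (z - x) ^ 2 ≤ (8 * t) ^ 2 := by
        rw [← sq_abs]
        have : |z - x| ≤ 8 * t := by
          rw [abs_le]; constructor <;> linarith [hx.1, hx.2]
        gcongr
      rw [mul_div_assoc', le_div_iff₀ (by positivity)]
      nlinarith [mul_pos hpi ht, mul_le_mul_of_nonneg_left hx2 hpi.le]
    calc ENNReal.ofReal (V x) = 1 * ENNReal.ofReal (V x) := (one_mul _).symm
      _ ≤ _ := by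
          gcongr
          rw [← ENNReal.ofReal_one]
          exact ENNReal.ofReal_le_ofReal h1
  · rw [indicator_of_notMem hx]
    exact zero_le

end Pool.Agent.GLam
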