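import Pool.Agent.GLam.Muck

open MeasureTheory Set ENNReal Filter Topology
open scoped NNReal

namespace Pool.Agent.GLam

variable {U : ℝ → ℝ}

/-- averages over intervals seen at aperture `2 ^ k` -/
noncomputable def NN (k : ℕ) (f : ℝ → ℝ≥0∞) (x : ℝ) : ℝ≥0∞ :=
  ⨆ (z : ℝ) (y : ℝ) (_ : 0 < y ∧ |x - z| < 2 ^ k * y),
    (∫⁻ t in Ioo (z - y) (z + y), f t) / ENNReal.ofReal (2 * y)

lemma le_NN (k : ℕ) (f : ℝ → ℝ≥0∞) {x z y : ℝ} (hy : 0 < y) (h : |x - z| < 2 ^ k * y) :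
    (∫⁻ t in Ioo (z - y) (z + y), f t) / ENNReal.ofReal (2 * y) ≤ NN k f x := by
  unfold NN
  exact le_iSup_of_le z (le_iSup_of_le y (le_iSup_of_le ⟨hy, h⟩ le_rfl))

lemma lt_NN_iff (k : ℕ) (f : ℝ → ℝ≥0∞) (c : ℝ≥0∞) (x : ℝ) :
    c < NN k f x ↔ ∃ z y : ℝ, (0 < y ∧ |x - z| < 2 ^ k * y) ∧
      c < (∫⁻ t in Ioo (z - y) (z + y), f t) / ENNReal.ofReal (2 * y) := by
  unfold NN
  constructor
  · intro h
    rw [lt_iSup_iff] at h
    obtain ⟨z, h⟩ := h
    rw [lt_iSup_iff] at h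
    obtain ⟨y, h⟩ := h
    rw [lt_iSup_iff] at h
    obtain ⟨hab, h⟩ := h
    exact ⟨z, y, hab, h⟩
  · rintro ⟨a, b, ha, h⟩
    exact h.trans_le (le_iSup_of_le a (le_iSup_of_le b (le_iSup_of_le ha le_rfl)))

lemma isOpen_lt_NN (k : ℕ) (f : ℝ → ℝ≥0∞) (c : ℝ≥0∞) : IsOpen {x | c < NN k f x} := by
  have : {x | c < NN k f x} = ⋃ p ∈ {p : ℝ × ℝ | 0 < p.2 ∧
      c < (∫⁻ t in Ioo (p.1 - p.2) (p.1 + p.2), f t) / ENNReal.ofReal (2 * p.2)},
      Metric.ball p.1 (2 ^ k * p.2) := by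
    ext x
    simp only [mem_ofPred_eq, mem_iUnion, exists_prop, Prod.exists, Metric.mem_ball, Real.dist_eq]
    rw [lt_NN_iff]
    constructor
    · rintro ⟨z, y, ⟨h1, h2⟩, h3⟩; exact ⟨z, y, ⟨h1, h3⟩, h2⟩
    · rintro ⟨z, y, ⟨h1, h3⟩, h2⟩; exact ⟨z, y, ⟨h1, h2⟩, h3⟩
  rw [this]
  exact isOpen_biUnion (fun _ _ => Metric.isOpen_ball)

lemma measurable_NN (k : ℕ) (f : ℝ → ℝ≥0∞) : Measurable (NN k f) :=
  measurable_of_Ioi (fun c => (isOpen_lt_NN k f c).measurableSet)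

lemma NN_mono (k : ℕ) {f g : ℝ → ℝ≥0∞} (h : ∀ x, f x ≤ g x) (x : ℝ) : NN k f x ≤ NN k g x := by
  unfold NN
  gcongr with z y hzy t
  exact h t

lemma NN_tsum (k : ℕ) {f : ℕ → ℝ → ℝ≥0∞} (hf : ∀ n, Measurable (f n)) (x : ℝ) :
    NN k (fun x => ∑' n, f n x) x ≤ ∑' n, NN k (f n) x := by
  unfold NN
  refine iSup_le (fun z => iSup_le (fun y => iSup_le (fun h => ?_)))
  rw [lintegral_tsum (fun n => (hf n).aemeasurable), div_eq_mul_inv, ← ENNReal.tsum_mul_right]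
  refine ENNReal.tsum_le_tsum (fun n => ?_)
  rw [← div_eq_mul_inv]
  exact le_NN k (f n) h.1 h.2

lemma NN_const_mul (k : ℕ) {f : ℝ → ℝ≥0∞} {c : ℝ≥0∞} (hc : c ≠ ∞) (x : ℝ) :
    NN k (fun x => c * f x) x ≤ c * NN k f x := by
  unfold NN
  refine iSup_le (fun z => iSup_le (fun y => iSup_le (fun h => ?_)))
  rw [lintegral_const_mul' _ _ hc, mul_div_assoc]
  gcongr
  exact le_NN k f h.1 h.2

/-- growth of the mass -/
structure Gr (D θ r : ℝ) (U : ℝ → ℝ) : Prop where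
  D0 : 0 < D
  t0 : 0 < θ
  t1 : θ < 1
  gr : ∀ z y : ℝ, 0 < y → ∀ k : ℕ, wm U (Ioo (z - 2 ^ k * y) (z + 2 ^ k * y)) ≤
    ENNReal.ofReal (D * (θ * (2 : ℝ) ^ r) ^ k) * wm U (Ioo (z - y) (z + y))

lemma NN_weak (hU : Nice U) {D θ r : ℝ} (hG : Gr D θ r U) (k : ℕ) (f : ℝ → ℝ≥0∞) (α : ℝ≥0∞) :
    wm U {x | α < NN k f x} ≤ ENNReal.ofReal (4 * (D * (θ * (2 : ℝ) ^ r) ^ k)) *
      wm U {x | α < MM volume f x} := by
  have hD := hG.D0
  have ht := hG.t0
  set c := D * (θ * (2 : ℝ) ^ r) ^ k with hc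
  have hc0 : 0 < c := by positivity
  have hlf := hU.locFin
  set O := {x | α < MM volume f x} with hO
  have hOm : MeasurableSet O := (isOpen_lt_MM volume f α).measurableSet
  set g : ℝ → ℝ≥0∞ := O.indicator (fun _ => 1) with hg
  have hgm : Measurable g := measurable_const.indicator hOm
  have hsub : {x | α < NN k f x} ⊆ {x | ENNReal.ofReal (1 / (2 * c)) < MM (wm U) g x} := by
    intro x hx
    obtain ⟨z, y, ⟨hy, hxz⟩, h⟩ := (lt_NN_iff k f α x).1 hx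
    have hIO : Ioo (z - y) (z + y) ⊆ O := by
      intro t ht'
      rw [hO, mem_ofPred_eq]
      refine h.trans_le ?_
      have := le_MM volume f ht'.1 ht'.2
      rw [Real.volume_Ioo, show z + y - (z - y) = 2 * y by ring] at this
      exact this
    have hab := abs_lt.1 hxz
    have h1 := le_MM (wm U) g (a := z - 2 ^ k * y) (b := z + 2 ^ k * y) (x := x)
      (by linarith [hab.1]) (by linarith [hab.2])
    rw [mem_ofPred_eq]
    refine lt_of_lt_of_le ?_ h1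
    set J := Ioo (z - 2 ^ k * y) (z + 2 ^ k * y) with hJ
    set I := Ioo (z - y) (z + y) with hI
    have hIJ : I ⊆ J := by
      rw [hI, hJ]
      have : (1 : ℝ) ≤ 2 ^ k := one_le_pow₀ (by norm_num)
      have h2 : y ≤ 2 ^ k * y := by nlinarith
      apply Ioo_subset_Ioo <;> linarith
    have hint : wm U I ≤ ∫⁻ t in J, g t ∂(wm U) := by
      rw [hg, lintegral_indicator hOm, setLIntegral_one, Measure.restrict_apply hOm]
      exact measure_mono (subset_inter hIO hIJ)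
    have hI0 : wm U I ≠ 0 := (hU.mass_pos (by linarith)).ne'
    have hIt : wm U I ≠ ∞ := (hU.mass_lt_top _ _).ne
    have hJt : wm U J ≠ ∞ := (hU.mass_lt_top _ _).ne
    have hJ0 : wm U J ≠ 0 := by
      intro h0
      exact hI0 (measure_mono_null hIJ h0)
    have hgr := hG.gr z y hy k
    rw [← hc, ← hI, ← hJ] at hgr
    refine lt_of_lt_of_le ?_ (ENNReal.div_le_div_right hint _)
    rw [ENNReal.lt_div_iff_mul_lt (Or.inl hJ0) (Or.inl hJt)]
    calc ENNReal.ofReal (1 / (2 * c)) * wm U J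
        ≤ ENNReal.ofReal (1 / (2 * c)) * (ENNReal.ofReal c * wm U I) := by gcongr
      _ = ENNReal.ofReal (1 / 2) * wm U I := by
          rw [← mul_assoc, ← ENNReal.ofReal_mul (by positivity)]
          congr 2
          field_simp
      _ < 1 * wm U I := by
          rw [ENNReal.mul_lt_mul_iff_left hI0 hIt]
          rw [← ENNReal.ofReal_one]
          exact (ENNReal.ofReal_lt_ofReal_iff (by norm_num)).2 (by norm_num)
      _ = wm U I := one_mul _
  have hw := weak_type (wm U) hgm (ENNReal.ofReal (1 / (2 * c)))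
  have hgi : ∫⁻ x, g x ∂(wm U) = wm U O := by
    rw [hg, lintegral_indicator hOm, setLIntegral_one]
  rw [hgi] at hw
  calc wm U {x | α < NN k f x} ≤ wm U {x | ENNReal.ofReal (1 / (2 * c)) < MM (wm U) g x} :=
        measure_mono hsub
    _ = ENNReal.ofReal (2 * c) * (ENNReal.ofReal (1 / (2 * c)) *
          wm U {x | ENNReal.ofReal (1 / (2 * c)) < MM (wm U) g x}) := by
        rw [← mul_assoc (ENNReal.ofReal (2 * c)), ← ENNReal.ofReal_mul (by positivity : 0 ≤ 2 * c),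
          mul_one_div_cancel (by positivity), ENNReal.ofReal_one, one_mul]
    _ ≤ ENNReal.ofReal (2 * c) * (2 * wm U O) := by gcongr
    _ = _ := by
        have : (2 : ℝ≥0∞) = ENNReal.ofReal 2 := by simp
        rw [this, ← mul_assoc, ← ENNReal.ofReal_mul (by positivity)]
        congr 2
        ring

lemma wm_sfinite (hU : Nice U) : SFinite (wm U) := by
  have := hU.locFin
  infer_instance

lemma NN_strong (hU : Nice U) {D θ r : ℝ} (hG : Gr D θ r U) (k : ℕ) (f : ℝ → ℝ≥0∞) {p : ℝ}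
    (hp : 0 < p) : ∫⁻ x, NN k f x ^ p ∂(wm U) ≤
      ENNReal.ofReal (4 * (D * (θ * (2 : ℝ) ^ r) ^ k)) * ∫⁻ x, MM volume f x ^ p ∂(wm U) := by
  have := wm_sfinite hU
  rw [layer_cake (wm U) (measurable_NN k f) hp, layer_cake (wm U) (measurable_MM volume f) hp,
    ← lintegral_const_mul' _ _ ENNReal.ofReal_ne_top]
  refine lintegral_mono (fun a => ?_)
  calc ENNReal.ofReal (p * a ^ (p - 1)) * wm U {x | ENNReal.ofReal a < NN k f x}
      ≤ ENNReal.ofReal (p * a ^ (p - 1)) * (ENNReal.ofReal (4 * (D * (θ * (2 : ℝ) ^ r) ^ k)) *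
        wm U {x | ENNReal.ofReal a < MM volume f x}) := by
        gcongr; exact NN_weak hU hG k f _
    _ = _ := by ring

/-- the tangential maximal operator -/
noncomputable def TT (l : ℝ) (f : ℝ → ℝ≥0∞) (x : ℝ) : ℝ≥0∞ :=
  ⨆ k : ℕ, ENNReal.ofReal (((2 : ℝ) ^ (-(l / 2))) ^ k) * NN k f x

lemma measurable_TT (l : ℝ) (f : ℝ → ℝ≥0∞) : Measurable (TT l f) := by
  unfold TT
  exact Measurable.iSup (fun k => (measurable_NN k f).const_mul _)

lemma TT_tsum (l : ℝ) {f : ℕ → ℝ → ℝ≥0∞} (hf : ∀ n, Measurable (f n)) (x : ℝ) :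
    TT l (fun x => ∑' n, f n x) x ≤ ∑' n, TT l (f n) x := by
  unfold TT
  refine iSup_le (fun k => ?_)
  calc _ ≤ ENNReal.ofReal (((2 : ℝ) ^ (-(l / 2))) ^ k) * ∑' n, NN k (f n) x := by
        gcongr; exact NN_tsum k hf x
    _ = ∑' n, ENNReal.ofReal (((2 : ℝ) ^ (-(l / 2))) ^ k) * NN k (f n) x :=
        ENNReal.tsum_mul_left.symm
    _ ≤ _ := by
        refine ENNReal.tsum_le_tsum (fun n => ?_)
        exact le_iSup (fun k => ENNReal.ofReal (((2 : ℝ) ^ (-(l / 2))) ^ k) * NN k (f n) x) k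

lemma TT_const_mul (l : ℝ) {f : ℝ → ℝ≥0∞} {c : ℝ≥0∞} (hc : c ≠ ∞) (x : ℝ) :
    TT l (fun x => c * f x) x ≤ c * TT l f x := by
  unfold TT
  refine iSup_le (fun k => ?_)
  calc _ ≤ ENNReal.ofReal (((2 : ℝ) ^ (-(l / 2))) ^ k) * (c * NN k f x) := by
        gcongr; exact NN_const_mul k hc x
    _ = c * (ENNReal.ofReal (((2 : ℝ) ^ (-(l / 2))) ^ k) * NN k f x) := by ring
    _ ≤ _ := by
        gcongr
        exact le_iSup (fun k => ENNReal.ofReal (((2 : ℝ) ^ (-(l / 2))) ^ k) * NN k f x) k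

lemma NN_zero_le_TT (l : ℝ) (f : ℝ → ℝ≥0∞) (x : ℝ) : NN 0 f x ≤ TT l f x := by
  unfold TT
  refine le_trans ?_ (le_iSup (fun k => ENNReal.ofReal (((2 : ℝ) ^ (-(l / 2))) ^ k) * NN k f x) 0)
  simp

lemma TT_low {l : ℝ} (hl : 0 < l) (hl2 : l ≤ 2) (f : ℝ → ℝ≥0∞) (x z : ℝ) {y : ℝ} (hy : 0 < y) :
    ENNReal.ofReal ((y / (|x - z| + y)) ^ (l / 2)) *
      ((∫⁻ t in Ioo (z - y) (z + y), f t) / ENNReal.ofReal (2 * y)) ≤ 2 * TT l f x := by
  have hex : ∃ k : ℕ, |x - z| < 2 ^ k * y := by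
    obtain ⟨k, hk⟩ := pow_unbounded_of_one_lt (|x - z| / y) (by norm_num : (1 : ℝ) < 2)
    exact ⟨k, by rwa [div_lt_iff₀ hy] at hk⟩
  classical
  set j := Nat.find hex with hj
  have hjs : |x - z| < 2 ^ j * y := Nat.find_spec hex
  have habs := abs_nonneg (x - z)
  have h2j : (2 : ℝ) ^ j ≤ 2 * ((|x - z| + y) / y) := by
    rcases Nat.eq_zero_or_pos j with h0 | hpos
    · rw [h0, pow_zero]
      have : 1 ≤ (|x - z| + y) / y := by rw [le_div_iff₀ hy]; linarith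
      linarith
    · have hmin : ¬ |x - z| < 2 ^ (j - 1) * y := Nat.find_min hex (by omega)
      push Not at hmin
      obtain ⟨i, hi⟩ : ∃ i, j = i + 1 := ⟨j - 1, by omega⟩
      rw [hi, Nat.add_sub_cancel] at hmin
      rw [hi, pow_succ, mul_div_assoc', le_div_iff₀ hy]
      linarith
  have hs : (y / (|x - z| + y)) ^ (l / 2) ≤ 2 * ((2 : ℝ) ^ (-(l / 2))) ^ j := by
    have e1 : ((2 : ℝ) ^ (-(l / 2))) ^ j = ((2 : ℝ) ^ j) ^ (-(l / 2)) := by
      rw [← Real.rpow_natCast, ← Real.rpow_natCast, ← Real.rpow_mul (by norm_num),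
        ← Real.rpow_mul (by norm_num), mul_comm]
    rw [e1]
    have h3 : (2 * ((|x - z| + y) / y)) ^ (-(l / 2)) ≤ ((2 : ℝ) ^ j) ^ (-(l / 2)) :=
      Real.rpow_le_rpow_of_nonpos (by positivity) h2j (by linarith)
    have h4 : (2 * ((|x - z| + y) / y)) ^ (-(l / 2)) =
        (2 : ℝ) ^ (-(l / 2)) * (y / (|x - z| + y)) ^ (l / 2) := by
      rw [Real.mul_rpow (by norm_num) (by positivity)]
      congr 1
      rw [Real.rpow_neg (by positivity), ← Real.inv_rpow (by positivity), inv_div]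
    have h5 : (1 / 2 : ℝ) ≤ (2 : ℝ) ^ (-(l / 2)) := by
      have : (2 : ℝ) ^ (-(1 : ℝ)) ≤ (2 : ℝ) ^ (-(l / 2)) :=
        Real.rpow_le_rpow_of_exponent_le (by norm_num) (by linarith)
      rw [Real.rpow_neg_one] at this
      linarith
    have h6 : 0 ≤ (y / (|x - z| + y)) ^ (l / 2) := by positivity
    rw [h4] at h3
    nlinarith
  calc _ ≤ ENNReal.ofReal (2 * ((2 : ℝ) ^ (-(l / 2))) ^ j) * NN j f x := by
        gcongr
        exact le_NN j f hy hjs
    _ = 2 * (ENNReal.ofReal (((2 : ℝ) ^ (-(l / 2))) ^ j) * NN j f x) := by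
        rw [ENNReal.ofReal_mul (by norm_num), ENNReal.ofReal_ofNat, mul_assoc]
    _ ≤ _ := by
        gcongr
        exact le_iSup (fun k => ENNReal.ofReal (((2 : ℝ) ^ (-(l / 2))) ^ k) * NN k f x) j

lemma iSup_rpow_le (a : ℕ → ℝ≥0∞) {p : ℝ} (hp : 0 < p) : (⨆ k, a k) ^ p ≤ ∑' k, a k ^ p := by
  have h1 : (⨆ k, a k) ≤ (∑' k, a k ^ p) ^ (1 / p) := by
    refine iSup_le (fun k => ?_)
    calc a k = (a k ^ p) ^ (1 / p) := by
          rw [← ENNReal.rpow_mul, mul_one_div_cancel hp.ne', ENNReal.rpow_one]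
      _ ≤ _ := ENNReal.rpow_le_rpow (ENNReal.le_tsum k) (by positivity)
  calc (⨆ k, a k) ^ p ≤ ((∑' k, a k ^ p) ^ (1 / p)) ^ p := ENNReal.rpow_le_rpow h1 hp.le
    _ = _ := by rw [← ENNReal.rpow_mul, one_div_mul_cancel hp.ne', ENNReal.rpow_one]

/-- boundedness of the tangential maximal operator -/
theorem TT_strong (hU : Nice U) {D θ l p : ℝ} (hG : Gr D θ (l * p / 2) U) (hp : 0 < p)
    (f : ℝ → ℝ≥0∞) : ∫⁻ x, TT l f x ^ p ∂(wm U) ≤
      ENNReal.ofReal (4 * D / (1 - θ)) * ∫⁻ x, MM volume f x ^ p ∂(wm U) := by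
  have hD := hG.D0
  have ht := hG.t0
  have ht1 := hG.t1
  have h1t : 0 < 1 - θ := by linarith
  set s : ℝ := (2 : ℝ) ^ (-(l / 2)) with hs
  have hs0 : 0 < s := by positivity
  have hsp : ∀ k : ℕ, ENNReal.ofReal (s ^ k) ^ p * ENNReal.ofReal (4 * (D * (θ * (2 : ℝ) ^ (l * p / 2)) ^ k)) =
      ENNReal.ofReal (4 * D) * ENNReal.ofReal (θ ^ k) := by
    intro k
    rw [ENNReal.ofReal_rpow_of_pos (by positivity), ← ENNReal.ofReal_mul (by positivity),
      ← ENNReal.ofReal_mul (by positivity)]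
    congr 1
    have e1 : (s ^ k) ^ p = (((2 : ℝ) ^ (l * p / 2)) ^ k)⁻¹ := by
      have a1 : s ^ k = (2 : ℝ) ^ (-(l / 2) * k) := by
        rw [hs, ← Real.rpow_natCast, ← Real.rpow_mul (by norm_num)]
      have a2 : ((2 : ℝ) ^ (l * p / 2)) ^ k = (2 : ℝ) ^ (l * p / 2 * k) := by
        rw [← Real.rpow_natCast, ← Real.rpow_mul (by norm_num)]
      rw [a1, a2, ← Real.rpow_mul (by norm_num), ← Real.rpow_neg (by norm_num)]
      congr 1
      ring
    rw [e1, mul_pow]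
    have : ((2 : ℝ) ^ (l * p / 2)) ^ k ≠ 0 := by positivity
    field_simp
  calc ∫⁻ x, TT l f x ^ p ∂(wm U) ≤ ∫⁻ x, ∑' k : ℕ, (ENNReal.ofReal (s ^ k) * NN k f x) ^ p ∂(wm U) :=
        lintegral_mono (fun x => iSup_rpow_le _ hp)
    _ = ∑' k : ℕ, ∫⁻ x, (ENNReal.ofReal (s ^ k) * NN k f x) ^ p ∂(wm U) :=
        lintegral_tsum (fun k => (((measurable_NN k f).const_mul _).pow_const _).aemeasurable)
    _ ≤ ∑' k : ℕ, ENNReal.ofReal (4 * D) * ENNReal.ofReal (θ ^ k) *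
          ∫⁻ x, MM volume f x ^ p ∂(wm U) := by
        refine ENNReal.tsum_le_tsum (fun k => ?_)
        calc ∫⁻ x, (ENNReal.ofReal (s ^ k) * NN k f x) ^ p ∂(wm U)
            = ENNReal.ofReal (s ^ k) ^ p * ∫⁻ x, NN k f x ^ p ∂(wm U) := by
              rw [← lintegral_const_mul' _ _
                (ENNReal.rpow_ne_top_of_nonneg hp.le ENNReal.ofReal_ne_top)]
              refine lintegral_congr (fun x => ?_)
              rw [ENNReal.mul_rpow_of_nonneg _ _ hp.le]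
          _ ≤ ENNReal.ofReal (s ^ k) ^ p * (ENNReal.ofReal (4 * (D * (θ * (2 : ℝ) ^ (l * p / 2)) ^ k)) *
                ∫⁻ x, MM volume f x ^ p ∂(wm U)) := by
              gcongr; exact NN_strong hU hG k f hp
          _ = _ := by rw [← mul_assoc, hsp k]
    _ = _ := by
        rw [ENNReal.tsum_mul_right, ENNReal.tsum_mul_left,
          ← ENNReal.ofReal_tsum_of_nonneg (fun k => by positivity)
          (summable_geometric_of_lt_one ht.le ht1), tsum_geometric_of_lt_one ht.le ht1,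
          ← ENNReal.ofReal_mul (by positivity)]
        congr 2

end Pool.Agent.GLam
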