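import Mathlib

open MeasureTheory Set ENNReal
open scoped NNReal

namespace Pool.Agent.GLam

/-- A weight on the line: nonnegative and locally integrable. -/
def IsWeight (U : ℝ → ℝ) : Prop := (∀ x, 0 ≤ U x) ∧ LocallyIntegrable U

/-- The Muckenhoupt class `A_r`: for every interval `I = (a,b)`,
`(1/|I| ∫_I U) (1/|I| ∫_I U^{-1/(r-1)})^{r-1} ≤ C`
(`U^{-1/(r-1)}` is `+∞` where `U = 0`). -/
def InA (r : ℝ) (U : ℝ → ℝ) : Prop :=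
  ∃ C : ℝ, ∀ a b : ℝ, a < b →
    ((∫⁻ x in Ioo a b, ENNReal.ofReal (U x)) / ENNReal.ofReal (b - a)) *
      ((∫⁻ x in Ioo a b, (ENNReal.ofReal (U x)) ^ (-(1 / (r - 1)))) / ENNReal.ofReal (b - a)) ^
        (r - 1) ≤ ENNReal.ofReal C

/-- The class `B_r`:  for every interval `I = (a,b)` with centre `x_I = (a+b)/2`,
`∫_ℝ |I|^{r-1} U(x) / (|I|^r + |x-x_I|^r) dx ≤ (C/|I|) ∫_I U`. -/
def InB (r : ℝ) (U : ℝ → ℝ) : Prop :=
  ∃ C : ℝ, ∀ a b : ℝ, a < b →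
    ∫⁻ x, ENNReal.ofReal ((b - a) ^ (r - 1) * U x / ((b - a) ^ r + |x - (a + b) / 2| ^ r)) ≤
      ENNReal.ofReal (C / (b - a)) * ∫⁻ x in Ioo a b, ENNReal.ofReal (U x)

/-- The Poisson integral `f(z,y) = (1/π) ∫_ℝ y f(z-x) / (x^2+y^2) dx`. -/
noncomputable def poisson (f : ℝ → ℝ) (z y : ℝ) : ℝ :=
  (1 / Real.pi) * ∫ x, y * f (z - x) / (x ^ 2 + y ^ 2)

/-- `|∇f(z,y)|^2`, the squared length of the gradient in `(z,y)` of the Poisson integral. -/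
noncomputable def gradSq (f : ℝ → ℝ) (z y : ℝ) : ℝ :=
  (deriv (fun s => poisson f s y) z) ^ 2 + (deriv (fun s => poisson f z s) y) ^ 2

/-- The function `g_λ^*`, with values in `[0,∞]`:
`g_λ^*(x) = (∫_ℝ ∫_0^∞ (y/(|x-z|+y))^λ |∇f(z,y)|^2 dy dz)^{1/2}`. -/
noncomputable def gstar (l : ℝ) (f : ℝ → ℝ) (x : ℝ) : ℝ≥0∞ :=
  (∫⁻ z, ∫⁻ y in Ioi (0 : ℝ),
    ENNReal.ofReal ((y / (|x - z| + y)) ^ l * gradSq f z y)) ^ (1 / 2 : ℝ)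

/-- The weighted inequality `(∗)`: there is a finite `C` with
`∫ (g_λ^*)^p U ≤ C ∫ |f|^p U` for every measurable `f` with finite right side. -/
def GStarBound (l p : ℝ) (U : ℝ → ℝ) : Prop :=
  ∃ C : ℝ≥0, ∀ f : ℝ → ℝ, AEMeasurable f → ∫⁻ x, ENNReal.ofReal (|f x| ^ p * U x) < ∞ →
    ∫⁻ x, gstar l f x ^ p * ENNReal.ofReal (U x) ≤
      C * ∫⁻ x, ENNReal.ofReal (|f x| ^ p * U x)

end Pool.Agent.GLam
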