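import Pool.Agent.GLam.Kernel

open MeasureTheory Set ENNReal Filter Topology
open scoped NNReal

namespace Pool.Agent.GLam

/-- Poisson average of a nonnegative function -/
noncomputable def PE (g : ℝ → ℝ≥0∞) (t z : ℝ) : ℝ≥0∞ :=
  ∫⁻ x, ENNReal.ofReal (Pk t (z - x)) * g x

/-- the probability measure with density the Poisson kernel -/
noncomputable def pm (t z : ℝ) : Measure ℝ :=
  (volume : Measure ℝ).withDensity (fun x => ENNReal.ofReal (Pk t (z - x)))

lemma measurable_Pk_sub (t z : ℝ) : Measurable (fun x => ENNReal.ofReal (Pk t (z - x))) :=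
  ((measurable_Pk t).comp (measurable_const.sub measurable_id)).ennreal_ofReal

lemma pm_prob {t : ℝ} (ht : 0 < t) (z : ℝ) : IsProbabilityMeasure (pm t z) := by
  constructor
  unfold pm
  rw [withDensity_apply _ MeasurableSet.univ, Measure.restrict_univ]
  exact lintegral_Pk_sub ht z

lemma lintegral_pm {g : ℝ → ℝ≥0∞} (hg : Measurable g) (t z : ℝ) :
    ∫⁻ x, g x ∂(pm t z) = PE g t z := by
  unfold pm PE
  rw [lintegral_withDensity_eq_lintegral_mul _ (measurable_Pk_sub t z) hg]
  rfl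

lemma measurable_PE {g : ℝ → ℝ≥0∞} (hg : Measurable g) (t : ℝ) : Measurable (PE g t) := by
  unfold PE
  refine Measurable.lintegral_prod_right'
    (f := fun p : ℝ × ℝ => ENNReal.ofReal (Pk t (p.1 - p.2)) * g p.2) ?_
  exact (((measurable_Pk t).comp (measurable_fst.sub measurable_snd)).ennreal_ofReal).mul
    (hg.comp measurable_snd)

lemma PE_mono {g h : ℝ → ℝ≥0∞} (H : ∀ x, g x ≤ h x) (t z : ℝ) : PE g t z ≤ PE h t z := by
  unfold PE
  exact lintegral_mono (fun x => mul_le_mul' le_rfl (H x))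

/-- semigroup property -/
lemma PE_PE {g : ℝ → ℝ≥0∞} (hg : Measurable g) {s t : ℝ} (hs : 0 < s) (ht : 0 < t) (z : ℝ) :
    PE (PE g t) s z = PE g (s + t) z := by
  unfold PE
  calc ∫⁻ x, ENNReal.ofReal (Pk s (z - x)) * ∫⁻ w, ENNReal.ofReal (Pk t (x - w)) * g w
      = ∫⁻ x, ∫⁻ w, ENNReal.ofReal (Pk s (z - x)) * (ENNReal.ofReal (Pk t (x - w)) * g w) := by
        refine lintegral_congr (fun x => ?_)
        rw [lintegral_const_mul' _ _ ENNReal.ofReal_ne_top]
    _ = ∫⁻ w, ∫⁻ x, ENNReal.ofReal (Pk s (z - x)) * (ENNReal.ofReal (Pk t (x - w)) * g w) := by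
        refine lintegral_lintegral_swap (Measurable.aemeasurable ?_)
        refine Measurable.mul ?_ (Measurable.mul ?_ (hg.comp measurable_snd))
        · exact (measurable_Pk_sub s z).comp measurable_fst
        · exact ((measurable_Pk t).comp (measurable_fst.sub measurable_snd)).ennreal_ofReal
    _ = ∫⁻ w, ENNReal.ofReal (Pk (s + t) (z - w)) * g w := by
        refine lintegral_congr_ae ?_
        have hne : ∀ᵐ w : ℝ, w ≠ z := by
          have : (volume : Measure ℝ) {z} = 0 := Real.volume_singleton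
          exact measure_eq_zero_iff_ae_notMem.1 this
        filter_upwards [hne] with w hw
        rw [← Pk_conv_lintegral hs ht hw.symm, ← lintegral_mul_const _ ?_]
        · refine lintegral_congr (fun x => ?_)
          ring
        · refine (measurable_Pk_sub s z).mul ?_
          exact ((measurable_Pk t).comp (measurable_id.sub measurable_const)).ennreal_ofReal

lemma lintegral_PE {g : ℝ → ℝ≥0∞} (hg : Measurable g) {t : ℝ} (ht : 0 < t) :
    ∫⁻ z, PE g t z = ∫⁻ x, g x := by
  unfold PE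
  rw [lintegral_lintegral_swap]
  · refine lintegral_congr (fun x => ?_)
    rw [lintegral_mul_const _ ?_, lintegral_Pk_sub' ht, one_mul]
    exact ((measurable_Pk t).comp (measurable_id.sub measurable_const)).ennreal_ofReal
  · refine Measurable.aemeasurable ?_
    exact (((measurable_Pk t).comp (measurable_fst.sub measurable_snd)).ennreal_ofReal).mul
      (hg.comp measurable_snd)

lemma PE_le_lintegral {g : ℝ → ℝ≥0∞} {t : ℝ} (ht : 0 < t) (z : ℝ) :
    PE g t z ≤ ENNReal.ofReal (1 / (Real.pi * t)) * ∫⁻ x, g x := by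
  unfold PE
  rw [← lintegral_const_mul' _ _ ENNReal.ofReal_ne_top]
  exact lintegral_mono (fun x => mul_le_mul' (ENNReal.ofReal_le_ofReal (Pk_le ht _)) le_rfl)

lemma integrable_pm {g : ℝ → ℝ≥0∞} (hg : Measurable g) {t z : ℝ} (h : PE g t z ≠ ∞) :
    Integrable (fun x => (g x).toReal) (pm t z) := by
  refine integrable_toReal_of_lintegral_ne_top hg.aemeasurable ?_
  rwa [lintegral_pm hg]

lemma integral_pm {g : ℝ → ℝ≥0∞} (hg : Measurable g) {t z : ℝ} (h : PE g t z ≠ ∞) :
    ∫ x, (g x).toReal ∂(pm t z) = (PE g t z).toReal := by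
  rw [integral_toReal hg.aemeasurable, lintegral_pm hg]
  refine ae_lt_top hg ?_
  rwa [lintegral_pm hg]

/-- the signed Poisson integral, through positive and negative parts -/
noncomputable def Fn (f : ℝ → ℝ) (t z : ℝ) : ℝ :=
  (PE (fun x => ENNReal.ofReal (f x)) t z).toReal -
    (PE (fun x => ENNReal.ofReal (-f x)) t z).toReal

/-- absolute convergence -/
def Fin (f : ℝ → ℝ) : Prop := ∀ t z : ℝ, 0 < t → PE (fun x => ENNReal.ofReal |f x|) t z ≠ ∞

lemma Fin.pos {f : ℝ → ℝ} (h : Fin f) {t : ℝ} (ht : 0 < t) (z : ℝ) :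
    PE (fun x => ENNReal.ofReal (f x)) t z ≠ ∞ :=
  ne_top_of_le_ne_top (h t z ht) (PE_mono (fun _ => ENNReal.ofReal_le_ofReal (le_abs_self _)) t z)

lemma Fin.neg {f : ℝ → ℝ} (h : Fin f) {t : ℝ} (ht : 0 < t) (z : ℝ) :
    PE (fun x => ENNReal.ofReal (-f x)) t z ≠ ∞ :=
  ne_top_of_le_ne_top (h t z ht)
    (PE_mono (fun _ => ENNReal.ofReal_le_ofReal (neg_le_abs _)) t z)

lemma measurable_Fn {f : ℝ → ℝ} (hf : Measurable f) (t : ℝ) : Measurable (Fn f t) := by
  unfold Fn
  exact ((measurable_PE hf.ennreal_ofReal t).ennreal_toReal).sub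
    ((measurable_PE hf.neg.ennreal_ofReal t).ennreal_toReal)

lemma integrable_Fn {f : ℝ → ℝ} (hf : Measurable f) (h : Fin f) {s t : ℝ} (hs : 0 < s)
    (ht : 0 < t) (z : ℝ) : Integrable (Fn f t) (pm s z) := by
  unfold Fn
  refine Integrable.sub ?_ ?_
  · refine integrable_pm (measurable_PE hf.ennreal_ofReal t) ?_
    rw [PE_PE hf.ennreal_ofReal hs ht]
    exact h.pos (by linarith) z
  · refine integrable_pm (measurable_PE hf.neg.ennreal_ofReal t) ?_
    rw [PE_PE hf.neg.ennreal_ofReal hs ht]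
    exact h.neg (by linarith) z

lemma integral_Fn {f : ℝ → ℝ} (hf : Measurable f) (h : Fin f) {s t : ℝ} (hs : 0 < s)
    (ht : 0 < t) (z : ℝ) : ∫ x, Fn f t x ∂(pm s z) = Fn f (s + t) z := by
  have hst : 0 < s + t := by linarith
  have m1 : Measurable (fun x => ENNReal.ofReal (f x)) := hf.ennreal_ofReal
  have m2 : Measurable (fun x => ENNReal.ofReal (-f x)) := hf.neg.ennreal_ofReal
  have h1 : PE (PE (fun x => ENNReal.ofReal (f x)) t) s z ≠ ∞ := by
    rw [PE_PE m1 hs ht]; exact h.pos hst z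
  have h2 : PE (PE (fun x => ENNReal.ofReal (-f x)) t) s z ≠ ∞ := by
    rw [PE_PE m2 hs ht]; exact h.neg hst z
  unfold Fn
  rw [integral_sub (integrable_pm (measurable_PE m1 t) h1) (integrable_pm (measurable_PE m2 t) h2),
    integral_pm (measurable_PE m1 t) h1, integral_pm (measurable_PE m2 t) h2,
    PE_PE m1 hs ht, PE_PE m2 hs ht]

lemma abs_Fn_le {f : ℝ → ℝ} (h : Fin f) {t : ℝ} (ht : 0 < t) (z : ℝ) :
    ENNReal.ofReal |Fn f t z| ≤ PE (fun x => ENNReal.ofReal |f x|) t z := by
  have h1 : (PE (fun x => ENNReal.ofReal (f x)) t z).toReal ≤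
      (PE (fun x => ENNReal.ofReal |f x|) t z).toReal :=
    ENNReal.toReal_mono (h t z ht) (PE_mono (fun _ => ENNReal.ofReal_le_ofReal (le_abs_self _)) t z)
  have h2 : (PE (fun x => ENNReal.ofReal (-f x)) t z).toReal ≤
      (PE (fun x => ENNReal.ofReal |f x|) t z).toReal :=
    ENNReal.toReal_mono (h t z ht) (PE_mono (fun _ => ENNReal.ofReal_le_ofReal (neg_le_abs _)) t z)
  have h3 : (0 : ℝ) ≤ (PE (fun x => ENNReal.ofReal (f x)) t z).toReal := ENNReal.toReal_nonneg
  have h4 : (0 : ℝ) ≤ (PE (fun x => ENNReal.ofReal (-f x)) t z).toReal := ENNReal.toReal_nonneg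
  rw [← ENNReal.ofReal_toReal (h t z ht)]
  apply ENNReal.ofReal_le_ofReal
  unfold Fn
  rw [abs_le]
  constructor <;> linarith

/-- the signed Poisson integral is the usual one -/
lemma Fn_eq_integral {f : ℝ → ℝ} (hf : Measurable f) (h : Fin f) {t : ℝ} (ht : 0 < t) (z : ℝ) :
    Integrable (fun x => Pk t (z - x) * f x) ∧ ∫ x, Pk t (z - x) * f x = Fn f t z := by
  have m1 : Measurable (fun x => ENNReal.ofReal (f x)) := hf.ennreal_ofReal
  have m2 : Measurable (fun x => ENNReal.ofReal (-f x)) := hf.neg.ennreal_ofReal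
  have k : ∀ g : ℝ → ℝ≥0∞, Measurable g → PE g t z ≠ ∞ →
      Integrable (fun x => Pk t (z - x) * (g x).toReal) ∧
      ∫ x, Pk t (z - x) * (g x).toReal = (PE g t z).toReal := by
    intro g hg hfin
    have e : (fun x => Pk t (z - x) * (g x).toReal) =
        fun x => (ENNReal.ofReal (Pk t (z - x)) * g x).toReal := by
      ext x
      rw [ENNReal.toReal_mul, ENNReal.toReal_ofReal (Pk_nonneg ht _)]
    have hm : Measurable (fun x => ENNReal.ofReal (Pk t (z - x)) * g x) :=
      (measurable_Pk_sub t z).mul hg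
    rw [e]
    refine ⟨integrable_toReal_of_lintegral_ne_top hm.aemeasurable hfin, ?_⟩
    rw [integral_toReal hm.aemeasurable (ae_lt_top hm hfin)]
    rfl
  obtain ⟨i1, e1⟩ := k _ m1 (h.pos ht z)
  obtain ⟨i2, e2⟩ := k _ m2 (h.neg ht z)
  have e : (fun x => Pk t (z - x) * f x) = fun x => Pk t (z - x) * (ENNReal.ofReal (f x)).toReal -
      Pk t (z - x) * (ENNReal.ofReal (-f x)).toReal := by
    ext x
    rw [ENNReal.toReal_ofReal', ENNReal.toReal_ofReal']
    rw [← mul_sub]
    congr 1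
    rcases le_total 0 (f x) with h0 | h0
    · rw [max_eq_left h0, max_eq_right (by linarith)]; ring
    · rw [max_eq_right h0, max_eq_left (by linarith)]; ring
  rw [e]
  refine ⟨i1.sub i2, ?_⟩
  rw [integral_sub i1 i2, e1, e2]
  rfl

end Pool.Agent.GLam
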