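import Pool.Agent.GLam.Defs
import Pool.Agent.GLam.PoissonInt

open MeasureTheory Set ENNReal Filter Topology
open scoped NNReal

namespace Pool.Agent.GLam

variable {f : ℝ → ℝ}

lemma poisson_eq (f : ℝ → ℝ) (z y : ℝ) : poisson f z y = ∫ x, Pk y (z - x) * f x := by
  unfold poisson
  rw [← integral_const_mul, ← integral_sub_left_eq_self (fun x => Pk y (z - x) * f x) volume z]
  refine integral_congr_ae (Eventually.of_forall (fun x => ?_))
  have e : z - (z - x) = x := by ring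
  simp only [e]
  unfold Pk
  rw [div_mul_div_comm, one_mul, div_mul_eq_mul_div]

lemma poisson_congr {f g : ℝ → ℝ} (h : f =ᵐ[volume] g) (z y : ℝ) :
    poisson f z y = poisson g z y := by
  rw [poisson_eq, poisson_eq]
  refine integral_congr_ae ?_
  filter_upwards [h] with x hx
  rw [hx]

/-- vertical derivative of the kernel -/
noncomputable def dPk (t X : ℝ) : ℝ := (X ^ 2 - t ^ 2) / (Real.pi * (X ^ 2 + t ^ 2) ^ 2)

lemma hasDerivAt_Pk_t {t : ℝ} (ht : 0 < t) (X : ℝ) :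
    HasDerivAt (fun s => Pk s X) (dPk t X) t := by
  unfold Pk dPk
  have hpi := Real.pi_pos
  have h0 : Real.pi * (X ^ 2 + t ^ 2) ≠ 0 := by positivity
  have d1 : HasDerivAt (fun s : ℝ => Real.pi * (X ^ 2 + s ^ 2)) (Real.pi * (2 * t)) t := by
    have := ((hasDerivAt_pow 2 t).const_add (X ^ 2)).const_mul Real.pi
    simpa using this
  have d2 := (hasDerivAt_id t).div d1 h0
  refine d2.congr_deriv ?_
  simp only [id]
  field_simp
  ring

/-- horizontal derivative of the kernel -/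
noncomputable def hPk (t X : ℝ) : ℝ := -(2 * t * X) / (Real.pi * (X ^ 2 + t ^ 2) ^ 2)

lemma hasDerivAt_Pk_x {t : ℝ} (ht : 0 < t) (X : ℝ) :
    HasDerivAt (fun s => Pk t s) (hPk t X) X := by
  unfold Pk hPk
  have hpi := Real.pi_pos
  have h0 : Real.pi * (X ^ 2 + t ^ 2) ≠ 0 := by positivity
  have d1 : HasDerivAt (fun s : ℝ => Real.pi * (s ^ 2 + t ^ 2)) (Real.pi * (2 * X)) X := by
    have := ((hasDerivAt_pow 2 X).add_const (t ^ 2)).const_mul Real.pi
    simpa using this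
  have d2 := (hasDerivAt_const X t).div d1 h0
  refine d2.congr_deriv ?_
  field_simp
  ring

lemma abs_dPk_le {s t X : ℝ} (ht : 0 < t) (hs : |s - t| ≤ t / 2) :
    |dPk s X| ≤ 4 / t * Pk t X := by
  have hb := abs_le.1 hs
  have hs0 : 0 < s := by linarith [hb.1]
  have hpi := Real.pi_pos
  unfold dPk Pk
  rw [abs_div, abs_of_pos (by positivity : 0 < Real.pi * (X ^ 2 + s ^ 2) ^ 2)]
  have h1 : |X ^ 2 - s ^ 2| ≤ X ^ 2 + s ^ 2 := by
    rw [abs_le]; constructor <;> nlinarith [sq_nonneg X, sq_nonneg s]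
  have h2 : X ^ 2 + t ^ 2 ≤ 4 * (X ^ 2 + s ^ 2) := by
    have h3 : t ≤ 2 * s := by linarith [hb.1]
    have h4 : t ^ 2 ≤ (2 * s) ^ 2 := by gcongr
    nlinarith [sq_nonneg X]
  have hT : 0 < X ^ 2 + t ^ 2 := by positivity
  rw [show 4 / t * (t / (Real.pi * (X ^ 2 + t ^ 2))) = 4 / (Real.pi * (X ^ 2 + t ^ 2)) by
    field_simp]
  rw [div_le_div_iff₀ (by positivity) (by positivity)]
  calc |X ^ 2 - s ^ 2| * (Real.pi * (X ^ 2 + t ^ 2)) ≤ (X ^ 2 + s ^ 2) * (Real.pi *
        (4 * (X ^ 2 + s ^ 2))) := by gcongr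
    _ = _ := by ring

lemma abs_hPk_le {t X Y : ℝ} (ht : 0 < t) (hs : |Y - X| ≤ t / 2) :
    |hPk t Y| ≤ 4 / t * Pk t X := by
  have hpi := Real.pi_pos
  unfold hPk Pk
  rw [abs_div, abs_of_pos (by positivity : 0 < Real.pi * (Y ^ 2 + t ^ 2) ^ 2)]
  have h1 : |-(2 * t * Y)| ≤ Y ^ 2 + t ^ 2 := by
    rw [abs_neg, abs_le]
    constructor
    · nlinarith [sq_nonneg (t + Y)]
    · nlinarith [sq_nonneg (t - Y)]
  have h2 : X ^ 2 + t ^ 2 ≤ 4 * (Y ^ 2 + t ^ 2) := by
    have h3 : (Y - X) ^ 2 ≤ (t / 2) ^ 2 := by rw [← sq_abs]; gcongr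
    nlinarith [sq_nonneg (2 * Y - X), sq_nonneg X, sq_nonneg Y]
  have hT : 0 < X ^ 2 + t ^ 2 := by positivity
  rw [show 4 / t * (t / (Real.pi * (X ^ 2 + t ^ 2))) = 4 / (Real.pi * (X ^ 2 + t ^ 2)) by
    field_simp]
  rw [div_le_div_iff₀ (by positivity) (by positivity)]
  calc |-(2 * t * Y)| * (Real.pi * (X ^ 2 + t ^ 2)) ≤ (Y ^ 2 + t ^ 2) * (Real.pi *
        (4 * (Y ^ 2 + t ^ 2))) := by gcongr
    _ = _ := by ring

lemma meas_Pk_mul (hf : AEMeasurable f) (t z : ℝ) :
    AEStronglyMeasurable (fun x => Pk t (z - x) * f x) :=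
  ((((measurable_Pk t).comp (measurable_const.sub measurable_id)).aemeasurable).mul
    hf).aestronglyMeasurable

lemma integrable_Pk_change (hf : AEMeasurable f) {s t z w : ℝ} (hs : 0 < s) (ht : 0 < t)
    (h : Integrable (fun x => Pk t (z - x) * f x)) :
    Integrable (fun x => Pk s (w - x) * f x) := by
  have hpi := Real.pi_pos
  -- `Pk s (w - x) ≤ c * Pk t (z - x)`
  set c : ℝ := s / t * (2 + (2 * (z - w) ^ 2 + t ^ 2) / s ^ 2) with hc
  have hc0 : 0 ≤ c := by positivity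
  refine (h.norm.const_mul c).mono' (meas_Pk_mul hf s w) (Eventually.of_forall (fun x => ?_))
  rw [norm_mul, norm_mul, ← mul_assoc]
  gcongr
  rw [Real.norm_of_nonneg (Pk_nonneg hs _), Real.norm_of_nonneg (Pk_nonneg ht _)]
  unfold Pk
  have e : c * (t / (Real.pi * ((z - x) ^ 2 + t ^ 2))) =
      s * (2 + (2 * (z - w) ^ 2 + t ^ 2) / s ^ 2) / (Real.pi * ((z - x) ^ 2 + t ^ 2)) := by
    rw [hc]; field_simp
  rw [e, div_le_div_iff₀ (by positivity) (by positivity)]
  have h1 : (z - x) ^ 2 + t ^ 2 ≤ (2 + (2 * (z - w) ^ 2 + t ^ 2) / s ^ 2) * ((w - x) ^ 2 + s ^ 2) := by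
    have h2 : (z - x) ^ 2 ≤ 2 * (w - x) ^ 2 + 2 * (z - w) ^ 2 := by
      nlinarith [sq_nonneg ((w - x) - (z - w))]
    have h3 : (2 * (z - w) ^ 2 + t ^ 2) / s ^ 2 * s ^ 2 = 2 * (z - w) ^ 2 + t ^ 2 := by
      field_simp
    have h4 : 0 ≤ (2 * (z - w) ^ 2 + t ^ 2) / s ^ 2 * (w - x) ^ 2 := by positivity
    nlinarith [sq_nonneg s]
  calc s * (Real.pi * ((z - x) ^ 2 + t ^ 2)) = (s * Real.pi) * ((z - x) ^ 2 + t ^ 2) := by ring
    _ ≤ (s * Real.pi) * ((2 + (2 * (z - w) ^ 2 + t ^ 2) / s ^ 2) * ((w - x) ^ 2 + s ^ 2)) := by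
        gcongr
    _ = _ := by ring

/-- vertical derivative of the Poisson integral -/
lemma hasDerivAt_y (hf : AEMeasurable f) {t z : ℝ} (ht : 0 < t)
    (h : Integrable (fun x => Pk t (z - x) * f x)) :
    Integrable (fun x => dPk t (z - x) * f x) ∧
    HasDerivAt (fun s => poisson f z s) (∫ x, dPk t (z - x) * f x) t := by
  have hpi := Real.pi_pos
  have hfun : (fun s => poisson f z s) = fun s => ∫ x, Pk s (z - x) * f x := by
    ext s; exact poisson_eq f z s
  rw [hfun]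
  have hball : Metric.ball t (t / 2) ∈ 𝓝 t := Metric.ball_mem_nhds t (by positivity)
  refine hasDerivAt_integral_of_dominated_loc_of_deriv_le (μ := volume)
    (F := fun s x => Pk s (z - x) * f x) (F' := fun s x => dPk s (z - x) * f x)
    (bound := fun x => 4 / t * ‖Pk t (z - x) * f x‖) hball ?_ h ?_ ?_ ?_ ?_
  · exact Eventually.of_forall (fun s => meas_Pk_mul hf s z)
  · refine AEMeasurable.aestronglyMeasurable (AEMeasurable.mul ?_ hf)
    refine Measurable.aemeasurable ?_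
    unfold dPk
    fun_prop
  · refine Eventually.of_forall (fun x s hs => ?_)
    rw [Metric.mem_ball, Real.dist_eq] at hs
    rw [norm_mul, norm_mul, ← mul_assoc]
    gcongr
    rw [Real.norm_eq_abs, Real.norm_of_nonneg (Pk_nonneg ht _)]
    exact abs_dPk_le ht hs.le
  · exact h.norm.const_mul _
  · refine Eventually.of_forall (fun x s hs => ?_)
    rw [Metric.mem_ball, Real.dist_eq] at hs
    have hs0 : 0 < s := by linarith [(abs_lt.1 hs).1]
    exact (hasDerivAt_Pk_t hs0 (z - x)).mul_const (f x)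

/-- horizontal derivative of the Poisson integral -/
lemma hasDerivAt_z (hf : AEMeasurable f) {t z : ℝ} (ht : 0 < t)
    (h : Integrable (fun x => Pk t (z - x) * f x)) :
    HasDerivAt (fun s => poisson f s t) (∫ x, hPk t (z - x) * f x) z := by
  have hpi := Real.pi_pos
  have hfun : (fun s => poisson f s t) = fun s => ∫ x, Pk t (s - x) * f x := by
    ext s; exact poisson_eq f s t
  rw [hfun]
  have hball : Metric.ball z (t / 2) ∈ 𝓝 z := Metric.ball_mem_nhds z (by positivity)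
  refine (hasDerivAt_integral_of_dominated_loc_of_deriv_le (μ := volume)
    (F := fun s x => Pk t (s - x) * f x) (F' := fun s x => hPk t (s - x) * f x)
    (bound := fun x => 4 / t * ‖Pk t (z - x) * f x‖) hball ?_ h ?_ ?_ ?_ ?_).2
  · exact Eventually.of_forall (fun s => meas_Pk_mul hf t s)
  · refine AEMeasurable.aestronglyMeasurable (AEMeasurable.mul ?_ hf)
    refine Measurable.aemeasurable ?_
    unfold hPk
    fun_prop
  · refine Eventually.of_forall (fun x s hs => ?_)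
    rw [Metric.mem_ball, Real.dist_eq] at hs
    rw [norm_mul, norm_mul, ← mul_assoc]
    gcongr
    rw [Real.norm_eq_abs, Real.norm_of_nonneg (Pk_nonneg ht _)]
    exact abs_hPk_le ht (by rw [show s - x - (z - x) = s - z by ring]; exact hs.le)
  · exact h.norm.const_mul _
  · refine Eventually.of_forall (fun x s hs => ?_)
    have h1 := (hasDerivAt_Pk_x ht (s - x)).comp s ((hasDerivAt_id s).sub_const x)
    rw [mul_one] at h1
    exact h1.mul_const (f x)

end Pool.Agent.GLam
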