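import Pool.Agent.GLam.LTwo

open MeasureTheory Set ENNReal Filter Topology
open scoped NNReal

namespace Pool.Agent.GLam

variable {Q : ℝ} {V W f : ℝ → ℝ}

lemma integral_pm_eq (g : ℝ → ℝ) {t : ℝ} (ht : 0 < t) (z : ℝ) :
    ∫ x, g x ∂(pm t z) = ∫ x, Pk t (z - x) * g x := by
  unfold pm
  rw [integral_withDensity_eq_integral_toReal_smul (measurable_Pk_sub t z)
    (Eventually.of_forall (fun _ => ENNReal.ofReal_lt_top))]
  refine integral_congr_ae (Eventually.of_forall (fun x => ?_))
  simp only [smul_eq_mul]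
  rw [ENNReal.toReal_ofReal (Pk_nonneg ht _)]

lemma integrable_pm_iff (g : ℝ → ℝ) {t : ℝ} (ht : 0 < t) (z : ℝ) :
    Integrable g (pm t z) ↔ Integrable (fun x => Pk t (z - x) * g x) := by
  unfold pm
  rw [integrable_withDensity_iff_integrable_smul' (measurable_Pk_sub t z)
    (Eventually.of_forall (fun _ => ENNReal.ofReal_lt_top))]
  have : (fun x => (ENNReal.ofReal (Pk t (z - x))).toReal • g x) = fun x => Pk t (z - x) * g x := by
    ext x
    rw [smul_eq_mul, ENNReal.toReal_ofReal (Pk_nonneg ht _)]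
  rw [this]

/-- representation of the Poisson integral at a higher level -/
lemma Fn_sub_const (hf : Measurable f) (hfin : Fin f) {a t : ℝ} (ha : 0 < a) (ht : 0 < t)
    (c s : ℝ) : Integrable (fun x => Pk a (s - x) * (Fn f t x - c)) ∧
      Fn f (a + t) s - c = ∫ x, Pk a (s - x) * (Fn f t x - c) := by
  have hp := pm_prob ha s
  have i1 := integrable_Fn hf hfin ha ht s
  have i2 : Integrable (fun x => Fn f t x - c) (pm a s) := i1.sub (integrable_const _)
  refine ⟨(integrable_pm_iff _ ha s).1 i2, ?_⟩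
  rw [← integral_pm_eq _ ha s, integral_sub i1 (integrable_const _), integral_Fn hf hfin ha ht,
    integral_const, probReal_univ, one_smul]

lemma kernel_shift {a t X X' : ℝ} (ht : 0 < t) (hta : t ≤ a) (hX : |X' - X| ≤ t) :
    |Pk a X' - Pk a X| ≤ 2 / t * |X' - X| * Pk t X := by
  have ha : 0 < a := by linarith
  have hpi := Real.pi_pos
  have h1 : Pk a X' - Pk a X = a * ((X - X') * (X + X')) / (Real.pi * ((X ^ 2 + a ^ 2) * (X' ^ 2 + a ^ 2))) := by
    unfold Pk
    field_simp
    ring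
  have hA : 0 < X ^ 2 + a ^ 2 := by positivity
  have hA' : 0 < X' ^ 2 + a ^ 2 := by positivity
  have hXX : |X - X'| = |X' - X| := abs_sub_comm _ _
  have h2 : a * |X + X'| ≤ 2 * (X' ^ 2 + a ^ 2) := by
    have h3 : |X + X'| ≤ 2 * |X'| + t := by
      have : X + X' = 2 * X' + (X - X') := by ring
      rw [this]
      refine (abs_add_le _ _).trans ?_
      rw [abs_mul, abs_of_pos (by norm_num : (0 : ℝ) < 2), hXX]
      linarith
    have h4 : a * |X + X'| ≤ a * (2 * |X'| + t) := by gcongr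
    have h5 : 2 * a * |X'| ≤ X' ^ 2 + a ^ 2 := by
      nlinarith [sq_nonneg (a - |X'|), sq_abs X']
    nlinarith [sq_nonneg X']
  have h6 : X ^ 2 + t ^ 2 ≤ X ^ 2 + a ^ 2 := by gcongr
  rw [h1, abs_div, abs_mul, abs_mul, abs_of_pos ha, hXX,
    abs_of_pos (by positivity : 0 < Real.pi * ((X ^ 2 + a ^ 2) * (X' ^ 2 + a ^ 2)))]
  unfold Pk
  have hT : 0 < X ^ 2 + t ^ 2 := by positivity
  rw [show 2 / t * |X' - X| * (t / (Real.pi * (X ^ 2 + t ^ 2))) =
    2 * |X' - X| / (Real.pi * (X ^ 2 + t ^ 2)) by field_simp]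
  rw [div_le_div_iff₀ (by positivity) (by positivity)]
  calc a * (|X' - X| * |X + X'|) * (Real.pi * (X ^ 2 + t ^ 2))
      = |X' - X| * Real.pi * ((a * |X + X'|) * (X ^ 2 + t ^ 2)) := by ring
    _ ≤ |X' - X| * Real.pi * ((2 * (X' ^ 2 + a ^ 2)) * (X ^ 2 + a ^ 2)) := by gcongr
    _ = _ := by ring

lemma kernel_scale {a a' t X : ℝ} (ht : 0 < t) (hta : 3 * t ≤ a) (ha' : |a' - a| ≤ t) :
    |Pk a' X - Pk a X| ≤ 2 / t * |a' - a| * Pk t X := by
  have ha : 0 < a := by linarith
  have hb := abs_le.1 ha'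
  have ha'0 : 0 < a' := by linarith [hb.1]
  have hpi := Real.pi_pos
  have h1 : Pk a' X - Pk a X = (a' - a) * (X ^ 2 - a * a') /
      (Real.pi * ((X ^ 2 + a ^ 2) * (X ^ 2 + a' ^ 2))) := by
    unfold Pk
    field_simp
    ring
  have h2 : |X ^ 2 - a * a'| ≤ 2 * (X ^ 2 + a' ^ 2) := by
    have h3 : a ≤ 2 * a' := by linarith [hb.1]
    rw [abs_le]
    constructor
    · nlinarith [sq_nonneg X]
    · nlinarith [sq_nonneg X, mul_pos ha ha'0]
  have h6 : X ^ 2 + t ^ 2 ≤ X ^ 2 + a ^ 2 := by
    have : t ≤ a := by linarith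
    gcongr
  rw [h1, abs_div, abs_mul,
    abs_of_pos (by positivity : 0 < Real.pi * ((X ^ 2 + a ^ 2) * (X ^ 2 + a' ^ 2)))]
  unfold Pk
  have hT : 0 < X ^ 2 + t ^ 2 := by positivity
  rw [show 2 / t * |a' - a| * (t / (Real.pi * (X ^ 2 + t ^ 2))) =
    2 * |a' - a| / (Real.pi * (X ^ 2 + t ^ 2)) by field_simp]
  rw [div_le_div_iff₀ (by positivity) (by positivity)]
  calc |a' - a| * |X ^ 2 - a * a'| * (Real.pi * (X ^ 2 + t ^ 2))
      = |a' - a| * Real.pi * (|X ^ 2 - a * a'| * (X ^ 2 + t ^ 2)) := by ring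
    _ ≤ |a' - a| * Real.pi * ((2 * (X ^ 2 + a' ^ 2)) * (X ^ 2 + a ^ 2)) := by gcongr
    _ = _ := by ring

/-- both partial derivatives are controlled by the oscillation at scale `t` -/
lemma grad_bounds (hf : Measurable f) (hfin : Fin f) {t y : ℝ} (ht : 0 < t) (hy : 4 * t ≤ y)
    (c z : ℝ) : |deriv (fun s => Fn f y s) z| ≤ 2 / t * ∫ x, |Fn f t x - c| ∂(pm t z) ∧
      |deriv (fun s => Fn f s z) y| ≤ 2 / t * ∫ x, |Fn f t x - c| ∂(pm t z) := by
  have hp := pm_prob ht z
  have iabs : Integrable (fun x => |Fn f t x - c|) (pm t z) :=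
    ((integrable_Fn hf hfin ht ht z).sub (integrable_const _)).abs
  have iabs' := (integrable_pm_iff _ ht z).1 iabs
  have hJ := integral_pm_eq (fun x => |Fn f t x - c|) ht z
  have hJ0 : 0 ≤ ∫ x, |Fn f t x - c| ∂(pm t z) := integral_nonneg (fun x => abs_nonneg _)
  constructor
  · rw [← Real.norm_eq_abs]
    refine norm_deriv_le_of_lip' (by positivity) ?_
    filter_upwards [Metric.ball_mem_nhds z ht] with s hs
    rw [Metric.mem_ball, Real.dist_eq] at hs
    have ha : 0 < y - t := by linarith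
    obtain ⟨i1, e1⟩ := Fn_sub_const hf hfin ha ht c s
    obtain ⟨i2, e2⟩ := Fn_sub_const hf hfin ha ht c z
    rw [sub_add_cancel] at e1 e2
    have e3 : Fn f y s - Fn f y z = ∫ x, (Pk (y - t) (s - x) * (Fn f t x - c) -
        Pk (y - t) (z - x) * (Fn f t x - c)) := by
      rw [integral_sub i1 i2, ← e1, ← e2]; ring
    simp only [Real.norm_eq_abs]
    rw [e3]
    calc |∫ x, (Pk (y - t) (s - x) * (Fn f t x - c) - Pk (y - t) (z - x) * (Fn f t x - c))|
        ≤ ∫ x, |Pk (y - t) (s - x) * (Fn f t x - c) - Pk (y - t) (z - x) * (Fn f t x - c)| :=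
          abs_integral_le_integral_abs
      _ ≤ ∫ x, (2 / t * |s - z|) * (Pk t (z - x) * |Fn f t x - c|) := by
          refine integral_mono (i1.sub i2).abs (iabs'.const_mul _) (fun x => ?_)
          simp only
          rw [← sub_mul, abs_mul]
          have h1 := kernel_shift (a := y - t) (X := z - x) (X' := s - x) ht (by linarith)
            (by rw [show s - x - (z - x) = s - z by ring]; exact hs.le)
          rw [show s - x - (z - x) = s - z by ring] at h1
          calc _ ≤ (2 / t * |s - z| * Pk t (z - x)) * |Fn f t x - c| := by gcongr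
            _ = _ := by ring
      _ = 2 / t * (∫ x, |Fn f t x - c| ∂(pm t z)) * |s - z| := by
          rw [integral_const_mul, ← hJ]; ring
  · rw [← Real.norm_eq_abs]
    refine norm_deriv_le_of_lip' (by positivity) ?_
    filter_upwards [Metric.ball_mem_nhds y ht] with s hs
    rw [Metric.mem_ball, Real.dist_eq] at hs
    have hsb := abs_lt.1 hs
    have ha : 0 < y - t := by linarith
    have ha' : 0 < s - t := by linarith [hsb.1]
    obtain ⟨i1, e1⟩ := Fn_sub_const hf hfin ha' ht c z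
    obtain ⟨i2, e2⟩ := Fn_sub_const hf hfin ha ht c z
    rw [sub_add_cancel] at e1 e2
    have e3 : Fn f s z - Fn f y z = ∫ x, (Pk (s - t) (z - x) * (Fn f t x - c) -
        Pk (y - t) (z - x) * (Fn f t x - c)) := by
      rw [integral_sub i1 i2, ← e1, ← e2]; ring
    simp only [Real.norm_eq_abs]
    rw [e3]
    calc |∫ x, (Pk (s - t) (z - x) * (Fn f t x - c) - Pk (y - t) (z - x) * (Fn f t x - c))|
        ≤ ∫ x, |Pk (s - t) (z - x) * (Fn f t x - c) - Pk (y - t) (z - x) * (Fn f t x - c)| :=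
          abs_integral_le_integral_abs
      _ ≤ ∫ x, (2 / t * |s - y|) * (Pk t (z - x) * |Fn f t x - c|) := by
          refine integral_mono (i1.sub i2).abs (iabs'.const_mul _) (fun x => ?_)
          simp only
          rw [← sub_mul, abs_mul]
          have h1 := kernel_scale (a := y - t) (a' := s - t) (X := z - x) ht (by linarith)
            (by rw [show s - t - (y - t) = s - y by ring]; exact hs.le)
          rw [show s - t - (y - t) = s - y by ring] at h1
          calc _ ≤ (2 / t * |s - y| * Pk t (z - x)) * |Fn f t x - c| := by gcongr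
            _ = _ := by ring
      _ = 2 / t * (∫ x, |Fn f t x - c| ∂(pm t z)) * |s - y| := by
          rw [integral_const_mul, ← hJ]; ring

/-- the square of the gradient is controlled by the weighted oscillation -/
theorem Pair.grad_le (h : Pair Q V W) (hf : Measurable f) (hfin : Fin f) {t y : ℝ} (ht : 0 < t)
    (hy : 4 * t ≤ y) (z : ℝ) :
    ENNReal.ofReal ((deriv (fun s => Fn f y s) z) ^ 2 + (deriv (fun s => Fn f s z) y) ^ 2) ≤
      ENNReal.ofReal (8 / t ^ 2) * (St f V t z * pe W (t + t) z) := by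
  have hp := pm_prob ht z
  obtain ⟨h1, h2⟩ := grad_bounds hf hfin ht hy (Fn f (t + t) z) z
  set J := ∫ x, |Fn f t x - Fn f (t + t) z| ∂(pm t z) with hJ
  have hJ0 : 0 ≤ J := integral_nonneg (fun x => abs_nonneg _)
  have hJe : ENNReal.ofReal J = ∫⁻ x, ENNReal.ofReal |Fn f t x - Fn f (t + t) z| ∂(pm t z) :=
    ofReal_integral_eq_lintegral_ofReal
      ((integrable_Fn hf hfin ht ht z).sub (integrable_const _)).abs
      (Eventually.of_forall (fun x => abs_nonneg _))
  have hsq : (deriv (fun s => Fn f y s) z) ^ 2 + (deriv (fun s => Fn f s z) y) ^ 2 ≤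
      8 / t ^ 2 * J ^ 2 := by
    have h3 : (deriv (fun s => Fn f y s) z) ^ 2 ≤ (2 / t * J) ^ 2 := by
      rw [← sq_abs]; gcongr
    have h4 : (deriv (fun s => Fn f s z) y) ^ 2 ≤ (2 / t * J) ^ 2 := by
      rw [← sq_abs (deriv _ _)]; gcongr
    have h5 : (2 / t * J) ^ 2 = 4 / t ^ 2 * J ^ 2 := by ring
    have h6 : 8 / t ^ 2 * J ^ 2 = 2 * (4 / t ^ 2 * J ^ 2) := by ring
    rw [h6]
    linarith
  have hJ2 : ENNReal.ofReal J ^ 2 ≤ St f V t z * pe W (t + t) z := by
    have mu := (measurable_pe h.mV t).ennreal_toReal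
    have mF := measurable_Fn hf t
    have m1 : Measurable (fun x => ENNReal.ofReal (|Fn f t x - Fn f (t + t) z| *
        √((pe V t x).toReal))) :=
      ((continuous_abs.measurable.comp (mF.sub measurable_const)).mul mu.sqrt).ennreal_ofReal
    have m2 : Measurable (fun x => ENNReal.ofReal (√(1 / (pe V t x).toReal))) :=
      ((measurable_const.div mu).sqrt).ennreal_ofReal
    have key := cs_lintegral (pm t z) m1.aemeasurable m2.aemeasurable
    have e1 : ∫⁻ x, ENNReal.ofReal (|Fn f t x - Fn f (t + t) z| * √((pe V t x).toReal)) *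
        ENNReal.ofReal (√(1 / (pe V t x).toReal)) ∂(pm t z) = ENNReal.ofReal J := by
      rw [hJe]
      refine lintegral_congr (fun x => ?_)
      have hu := h.u_pos ht x
      rw [← ENNReal.ofReal_mul (by positivity), mul_assoc, ← Real.sqrt_mul hu.le,
        mul_one_div_cancel hu.ne', Real.sqrt_one, mul_one]
    have e2 : ∫⁻ x, ENNReal.ofReal (|Fn f t x - Fn f (t + t) z| * √((pe V t x).toReal)) ^ 2
        ∂(pm t z) = St f V t z := by
      have m : Measurable (fun x => ENNReal.ofReal ((Fn f t x - Fn f (t + t) z) ^ 2 *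
          (pe V t x).toReal)) :=
        ((((measurable_Fn hf t).sub measurable_const).pow_const 2).mul mu).ennreal_ofReal
      have e3 := lintegral_pm m t z
      unfold St
      unfold PE at e3
      rw [← e3]
      refine lintegral_congr (fun x => ?_)
      have hu := h.u_pos ht x
      rw [← ENNReal.ofReal_pow (by positivity), mul_pow, sq_abs, Real.sq_sqrt hu.le]
    have e4 : ∫⁻ x, ENNReal.ofReal (√(1 / (pe V t x).toReal)) ^ 2 ∂(pm t z) ≤
        pe W (t + t) z := by
      have e5 : pe W (t + t) z = ∫⁻ x, pe W t x ∂(pm t z) := by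
        rw [lintegral_pm (measurable_pe h.mW t)]
        exact (PE_PE h.mW.ennreal_ofReal ht ht z).symm
      rw [e5]
      refine lintegral_mono (fun x => ?_)
      have hu := h.u_pos ht x
      rw [sqrt_sq_ofReal (by positivity), ← ENNReal.ofReal_toReal (h.W_top ht x)]
      apply ENNReal.ofReal_le_ofReal
      rw [div_le_iff₀ hu]
      have := h.uv_ge ht x
      linarith
    rw [e1, e2] at key
    exact key.trans (by gcongr)
  calc ENNReal.ofReal ((deriv (fun s => Fn f y s) z) ^ 2 + (deriv (fun s => Fn f s z) y) ^ 2)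
      ≤ ENNReal.ofReal (8 / t ^ 2 * J ^ 2) := ENNReal.ofReal_le_ofReal hsq
    _ = ENNReal.ofReal (8 / t ^ 2) * ENNReal.ofReal J ^ 2 := by
        rw [ENNReal.ofReal_mul (by positivity), ENNReal.ofReal_pow hJ0]
    _ ≤ _ := by gcongr

end Pool.Agent.GLam
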