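import Mathlib

open MeasureTheory Set ENNReal Filter Topology
open scoped NNReal

namespace Pool.Agent.GLam

/-- the Poisson kernel of the upper half plane -/
noncomputable def Pk (t x : ℝ) : ℝ := t / (Real.pi * (x ^ 2 + t ^ 2))

lemma Pk_pos {t : ℝ} (ht : 0 < t) (x : ℝ) : 0 < Pk t x := by
  unfold Pk
  have := Real.pi_pos
  positivity

lemma Pk_nonneg {t : ℝ} (ht : 0 < t) (x : ℝ) : 0 ≤ Pk t x := (Pk_pos ht x).le

lemma continuous_Pk {t : ℝ} (ht : 0 < t) : Continuous (Pk t) := by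
  unfold Pk
  refine Continuous.div (by fun_prop) (by fun_prop) (fun x => ?_)
  have := Real.pi_pos
  positivity

lemma measurable_Pk (t : ℝ) : Measurable (Pk t) := by
  unfold Pk
  fun_prop

lemma Pk_neg (t x : ℝ) : Pk t (-x) = Pk t x := by
  unfold Pk; simp

lemma Pk_le {t : ℝ} (ht : 0 < t) (x : ℝ) : Pk t x ≤ 1 / (Real.pi * t) := by
  unfold Pk
  have := Real.pi_pos
  rw [div_le_div_iff₀ (by positivity) (by positivity)]
  nlinarith [mul_nonneg Real.pi_pos.le (sq_nonneg x)]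

lemma Pk_eq_cauchy {t : ℝ} (ht : 0 < t) (x : ℝ) :
    Pk t x = ProbabilityTheory.cauchyPDFReal 0 t.toNNReal x := by
  rw [ProbabilityTheory.cauchyPDFReal_def]
  unfold Pk
  rw [Real.coe_toNNReal t ht.le]
  simp only [sub_zero]
  have := Real.pi_pos
  field_simp

lemma integrable_Pk {t : ℝ} (ht : 0 < t) : Integrable (Pk t) := by
  have h := ProbabilityTheory.integrable_cauchyPDFReal 0 (γ := t.toNNReal)
  refine h.congr (Eventually.of_forall (fun x => ?_))
  exact (Pk_eq_cauchy ht x).symm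

lemma integral_Pk {t : ℝ} (ht : 0 < t) : ∫ x, Pk t x = 1 := by
  have h := ProbabilityTheory.integral_cauchyPDFReal_eq_one 0 (γ := t.toNNReal)
    (by simpa using ht)
  rw [← h]
  exact integral_congr_ae (Eventually.of_forall (fun x => Pk_eq_cauchy ht x))

lemma lintegral_Pk {t : ℝ} (ht : 0 < t) : ∫⁻ x, ENNReal.ofReal (Pk t x) = 1 := by
  rw [← ofReal_integral_eq_lintegral_ofReal (integrable_Pk ht)
    (Eventually.of_forall (fun x => Pk_nonneg ht x)), integral_Pk ht, ENNReal.ofReal_one]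

lemma lintegral_Pk_sub {t : ℝ} (ht : 0 < t) (z : ℝ) :
    ∫⁻ x, ENNReal.ofReal (Pk t (z - x)) = 1 := by
  rw [lintegral_sub_left_eq_self (fun x => ENNReal.ofReal (Pk t x)) z]
  exact lintegral_Pk ht

lemma lintegral_Pk_sub' {t : ℝ} (ht : 0 < t) (x : ℝ) :
    ∫⁻ z, ENNReal.ofReal (Pk t (z - x)) = 1 := by
  rw [lintegral_sub_right_eq_self (fun x => ENNReal.ofReal (Pk t x)) x]
  exact lintegral_Pk ht

/-- limit of the logarithmic part of the primitive -/
lemma log_part (s t z : ℝ) (l : Filter ℝ) (hl : Tendsto (fun x : ℝ => x⁻¹) l (𝓝 0))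
    (hne : ∀ᶠ x in l, x ≠ 0) (ht : 0 < t) (hs : 0 < s) :
    Tendsto (fun x : ℝ => Real.log (x ^ 2 + t ^ 2) - Real.log ((x - z) ^ 2 + s ^ 2)) l (𝓝 0) := by
  have hg : ContinuousAt (fun ξ : ℝ => Real.log (1 + t ^ 2 * ξ ^ 2) -
      Real.log ((1 - z * ξ) ^ 2 + s ^ 2 * ξ ^ 2)) 0 := by
    refine ContinuousAt.sub ?_ ?_
    · refine ContinuousAt.log (by fun_prop) (by simp)
    · refine ContinuousAt.log (by fun_prop) (by simp)
  have h1 : Tendsto (fun ξ : ℝ => Real.log (1 + t ^ 2 * ξ ^ 2) -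
      Real.log ((1 - z * ξ) ^ 2 + s ^ 2 * ξ ^ 2)) (𝓝 0) (𝓝 0) := by
    have := hg.tendsto
    simpa using this
  refine (h1.comp hl).congr' ?_
  filter_upwards [hne] with x hx
  simp only [Function.comp]
  have e1 : x ^ 2 + t ^ 2 = x ^ 2 * (1 + t ^ 2 * x⁻¹ ^ 2) := by field_simp
  have e2 : (x - z) ^ 2 + s ^ 2 = x ^ 2 * ((1 - z * x⁻¹) ^ 2 + s ^ 2 * x⁻¹ ^ 2) := by field_simp
  have h2 : x ^ 2 ≠ 0 := pow_ne_zero 2 hx
  have h3 : (1 + t ^ 2 * x⁻¹ ^ 2) ≠ 0 := by positivity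
  have h4 : ((1 - z * x⁻¹) ^ 2 + s ^ 2 * x⁻¹ ^ 2) ≠ 0 := by
    have : 0 < s ^ 2 * x⁻¹ ^ 2 := by positivity
    positivity
  rw [e1, e2, Real.log_mul h2 h3, Real.log_mul h2 h4]
  ring

/-- the semigroup property of the Poisson kernel -/
lemma Pk_conv {s t : ℝ} (hs : 0 < s) (ht : 0 < t) {z : ℝ} (hz : z ≠ 0) :
    ∫ x, Pk s (z - x) * Pk t x = Pk (s + t) z := by
  have hpi := Real.pi_pos
  set D : ℝ := (z ^ 2 + (s - t) ^ 2) * (z ^ 2 + (s + t) ^ 2) with hD
  have hDpos : 0 < D := by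
    have : 0 < z ^ 2 := by positivity
    positivity
  set α : ℝ := 2 * z / D with hα
  set β : ℝ := (z ^ 2 + s ^ 2 - t ^ 2) / D with hβ
  set δ : ℝ := (z ^ 2 + t ^ 2 - s ^ 2) / D with hδ
  set c : ℝ := s * t / Real.pi ^ 2 with hc
  set f : ℝ → ℝ := fun x => c * (α / 2 * (Real.log (x ^ 2 + t ^ 2) - Real.log ((x - z) ^ 2 + s ^ 2))
    + β / t * Real.arctan (x / t) + δ / s * Real.arctan ((x - z) / s)) with hf
  have hderiv : ∀ x, HasDerivAt f (Pk s (z - x) * Pk t x) x := by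
    intro x
    have hA : 0 < x ^ 2 + t ^ 2 := by positivity
    have hB : 0 < (x - z) ^ 2 + s ^ 2 := by positivity
    have d1 : HasDerivAt (fun x : ℝ => x ^ 2 + t ^ 2) (2 * x) x := by
      simpa using (hasDerivAt_pow 2 x).add_const (t ^ 2)
    have d2 : HasDerivAt (fun x : ℝ => (x - z) ^ 2 + s ^ 2) (2 * (x - z)) x := by
      have := (((hasDerivAt_id x).sub_const z).pow 2).add_const (s ^ 2)
      simpa using this
    have d3 : HasDerivAt (fun x : ℝ => x / t) (1 / t) x := (hasDerivAt_id x).div_const t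
    have d4 : HasDerivAt (fun x : ℝ => (x - z) / s) (1 / s) x :=
      ((hasDerivAt_id x).sub_const z).div_const s
    have D1 := (((d1.log hA.ne').sub (d2.log hB.ne')).const_mul (α / 2)).add (d3.arctan.const_mul (β / t))
    have D2 := (D1.add (d4.arctan.const_mul (δ / s))).const_mul c
    refine D2.congr_deriv ?_
    unfold Pk
    have hB' : (z - x) ^ 2 + s ^ 2 = (x - z) ^ 2 + s ^ 2 := by ring
    rw [hB', hα, hβ, hδ, hc]
    have e3 : 1 + (x / t) ^ 2 = (x ^ 2 + t ^ 2) / t ^ 2 := by field_simp; ring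
    have e4 : 1 + ((x - z) / s) ^ 2 = ((x - z) ^ 2 + s ^ 2) / s ^ 2 := by field_simp; ring
    rw [e3, e4]
    have hAne := hA.ne'
    have hBne := hB.ne'
    have hDne := hDpos.ne'
    have hkey : 2 * z / D / 2 * (2 * x / (x ^ 2 + t ^ 2) - 2 * (x - z) / ((x - z) ^ 2 + s ^ 2)) +
        (z ^ 2 + s ^ 2 - t ^ 2) / D / (x ^ 2 + t ^ 2) +
        (z ^ 2 + t ^ 2 - s ^ 2) / D / ((x - z) ^ 2 + s ^ 2) =
        1 / ((x ^ 2 + t ^ 2) * ((x - z) ^ 2 + s ^ 2)) := by
      rw [hD] at hDne ⊢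
      field_simp
      ring
    have e5 : (z ^ 2 + s ^ 2 - t ^ 2) / D / t * (1 / ((x ^ 2 + t ^ 2) / t ^ 2) * (1 / t)) =
        (z ^ 2 + s ^ 2 - t ^ 2) / D / (x ^ 2 + t ^ 2) := by
      field_simp
    have e6 : (z ^ 2 + t ^ 2 - s ^ 2) / D / s * (1 / (((x - z) ^ 2 + s ^ 2) / s ^ 2) * (1 / s)) =
        (z ^ 2 + t ^ 2 - s ^ 2) / D / ((x - z) ^ 2 + s ^ 2) := by
      field_simp
    rw [e5, e6, hkey]
    field_simp
  have hint : Integrable (fun x => Pk s (z - x) * Pk t x) := by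
    refine (integrable_Pk ht).bdd_mul (c := 1 / (Real.pi * s)) ?_ ?_
    · exact ((continuous_Pk hs).comp (by fun_prop)).aestronglyMeasurable
    · refine Eventually.of_forall (fun x => ?_)
      rw [Real.norm_of_nonneg (Pk_nonneg hs _)]
      exact Pk_le hs _
  have hadd : ∀ x : ℝ, x ≠ 0 → True := fun _ _ => trivial
  have lim_top : Tendsto f atTop (𝓝 (c * (α / 2 * 0 + β / t * (Real.pi / 2) + δ / s * (Real.pi / 2)))) := by
    refine Tendsto.const_mul _ (Tendsto.add (Tendsto.add (Tendsto.const_mul _ ?_)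
      (Tendsto.const_mul _ ?_)) (Tendsto.const_mul _ ?_))
    · exact log_part s t z atTop tendsto_inv_atTop_zero (eventually_ne_atTop 0) ht hs
    · have h := (Real.tendsto_arctan_atTop.mono_right nhdsWithin_le_nhds)
      exact h.comp (tendsto_id.atTop_div_const ht)
    · have h := (Real.tendsto_arctan_atTop.mono_right nhdsWithin_le_nhds)
      exact h.comp ((tendsto_atTop_add_const_right _ (-z) tendsto_id).atTop_div_const hs)
  have lim_bot : Tendsto f atBot (𝓝 (c * (α / 2 * 0 + β / t * (-(Real.pi / 2)) + δ / s * (-(Real.pi / 2))))) := by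
    refine Tendsto.const_mul _ (Tendsto.add (Tendsto.add (Tendsto.const_mul _ ?_)
      (Tendsto.const_mul _ ?_)) (Tendsto.const_mul _ ?_))
    · exact log_part s t z atBot tendsto_inv_atBot_zero (eventually_ne_atBot 0) ht hs
    · have h := (Real.tendsto_arctan_atBot.mono_right nhdsWithin_le_nhds)
      exact h.comp (tendsto_id.atBot_div_const ht)
    · have h := (Real.tendsto_arctan_atBot.mono_right nhdsWithin_le_nhds)
      exact h.comp ((tendsto_atBot_add_const_right _ (-z) tendsto_id).atBot_div_const hs)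
  rw [integral_of_hasDerivAt_of_tendsto hderiv hint lim_bot lim_top]
  unfold Pk
  rw [hα, hβ, hδ, hc, hD]
  have h1 : (z ^ 2 + (s - t) ^ 2) ≠ 0 := by
    have : 0 < z ^ 2 := by positivity
    positivity
  have h2 : (z ^ 2 + (s + t) ^ 2) ≠ 0 := by positivity
  field_simp
  ring

lemma Pk_conv_lintegral {s t : ℝ} (hs : 0 < s) (ht : 0 < t) {z w : ℝ} (hz : z ≠ w) :
    ∫⁻ x, ENNReal.ofReal (Pk s (z - x)) * ENNReal.ofReal (Pk t (x - w)) =
      ENNReal.ofReal (Pk (s + t) (z - w)) := by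
  have hzw : z - w ≠ 0 := sub_ne_zero.2 hz
  rw [← Pk_conv hs ht hzw]
  have h1 : ∫ x, Pk s (z - w - x) * Pk t x = ∫ x, Pk s (z - x) * Pk t (x - w) := by
    rw [← integral_sub_right_eq_self (fun x => Pk s (z - w - x) * Pk t x) w]
    refine integral_congr_ae (Eventually.of_forall (fun x => ?_))
    simp only
    congr 2
    ring
  rw [h1, ofReal_integral_eq_lintegral_ofReal]
  · refine lintegral_congr (fun x => ?_)
    rw [ENNReal.ofReal_mul (Pk_nonneg hs _)]
  · refine ((integrable_Pk ht).comp_sub_right w).bdd_mul (c := 1 / (Real.pi * s)) ?_ ?_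
    · exact ((continuous_Pk hs).comp (by fun_prop)).aestronglyMeasurable
    · refine Eventually.of_forall (fun x => ?_)
      rw [Real.norm_of_nonneg (Pk_nonneg hs _)]
      exact Pk_le hs _
  · exact Eventually.of_forall (fun x => mul_nonneg (Pk_nonneg hs _) (Pk_nonneg ht _))

end Pool.Agent.GLam
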