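import Mathlib

open MeasureTheory Set ENNReal Filter Topology
open scoped NNReal

namespace Pool.Agent.GLam

/-- the convex function used for the weighted square function estimate -/
noncomputable def Bf (Q F u v : ℝ) : ℝ := F ^ 2 * u + 4 * Q ^ 2 * (F ^ 2 / (v - 1 / (2 * u)))

lemma gap_pos {u v : ℝ} (hu : 0 < u) (huv : 1 ≤ u * v) : 1 / (2 * u) ≤ v - 1 / (2 * u) := by
  have : 1 / u ≤ v := by rw [div_le_iff₀ hu]; linarith
  have h2 : 1 / (2 * u) = 1 / u / 2 := by field_simp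
  linarith

lemma Bf_nonneg {Q F u v : ℝ} (hu : 0 < u) (huv : 1 ≤ u * v) : 0 ≤ Bf Q F u v := by
  unfold Bf
  have h := gap_pos hu huv
  have h1 : 0 < 1 / (2 * u) := by positivity
  have h2 : 0 < v - 1 / (2 * u) := by linarith
  positivity

lemma quot_le {F u v : ℝ} (hu : 0 < u) (huv : 1 ≤ u * v) :
    F ^ 2 / (v - 1 / (2 * u)) ≤ 2 * (F ^ 2 * u) := by
  have h := gap_pos hu huv
  have h1 : 0 < 1 / (2 * u) := by positivity
  have h2 : 0 < v - 1 / (2 * u) := by linarith
  rw [div_le_iff₀ h2]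
  have h3 : 2 * (F ^ 2 * u) * (1 / (2 * u)) = F ^ 2 := by field_simp
  calc F ^ 2 = 2 * (F ^ 2 * u) * (1 / (2 * u)) := h3.symm
    _ ≤ 2 * (F ^ 2 * u) * (v - 1 / (2 * u)) := by gcongr

lemma Bf_le {Q F u v : ℝ} (hu : 0 < u) (huv : 1 ≤ u * v) :
    Bf Q F u v ≤ (1 + 8 * Q ^ 2) * (F ^ 2 * u) := by
  unfold Bf
  have h := quot_le (F := F) hu huv
  have : 4 * Q ^ 2 * (F ^ 2 / (v - 1 / (2 * u))) ≤ 4 * Q ^ 2 * (2 * (F ^ 2 * u)) := by gcongr
  linarith

/-- One step of the weighted square function estimate. -/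
theorem one_step {α : Type*} [MeasurableSpace α] {μ : Measure α} [IsProbabilityMeasure μ]
    {F u v : α → ℝ} (hFm : Measurable F) (hum : Measurable u) (hvm : Measurable v)
    (hF : Integrable F μ) (hu : Integrable u μ) (hv : Integrable v μ)
    (hu0 : ∀ x, 0 < u x) (hv0 : ∀ x, 0 < v x) (huv : ∀ x, 1 ≤ u x * v x)
    (hFu : Integrable (fun x => F x ^ 2 * u x) μ) {Q : ℝ} (hQ0 : 0 < Q)
    (hQ : (∫ x, u x ∂μ) * (∫ x, v x ∂μ) ≤ Q) :
    (1 / 2) * ∫ x, (F x - ∫ y, F y ∂μ) ^ 2 * u x ∂μ +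
      Bf Q (∫ y, F y ∂μ) (∫ y, u y ∂μ) (∫ y, v y ∂μ) ≤ ∫ x, Bf Q (F x) (u x) (v x) ∂μ := by
  have hposint : ∀ g : α → ℝ, (∀ x, 0 < g x) → Integrable g μ → 0 < ∫ x, g x ∂μ := by
    intro g hg hgi
    rw [integral_pos_iff_support_of_nonneg (fun x => (hg x).le) hgi]
    have : Function.support g = univ := by
      ext x; simp [(hg x).ne']
    rw [this, measure_univ]
    exact one_pos
  set Fb := ∫ y, F y ∂μ with hFb
  set ub := ∫ y, u y ∂μ with hub
  set vb := ∫ y, v y ∂μ with hvb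
  have hub0 : 0 < ub := hposint u hu0 hu
  have hvb0 : 0 < vb := hposint v hv0 hv
  have hinv : Integrable (fun x => 1 / u x) μ := by
    refine hv.mono' (Measurable.div (by fun_prop)
      (by fun_prop)).aestronglyMeasurable (Eventually.of_forall (fun x => ?_))
    have := hu0 x
    rw [Real.norm_of_nonneg (by positivity), div_le_iff₀ this]
    have := huv x
    linarith
  set i := ∫ y, 1 / u y ∂μ with hi
  have hi0 : 0 < i := hposint _ (fun x => by have := hu0 x; positivity) hinv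
  have hG : Integrable (fun x => (F x - Fb) ^ 2 * u x) μ := by
    have h1 : Integrable (fun x => 2 * (F x ^ 2 * u x) + 2 * Fb ^ 2 * u x) μ :=
      (hFu.const_mul 2).add (hu.const_mul _)
    refine h1.mono' (by fun_prop) (Eventually.of_forall (fun x => ?_))
    have hux := hu0 x
    rw [Real.norm_of_nonneg (by positivity)]
    have : (F x - Fb) ^ 2 ≤ 2 * F x ^ 2 + 2 * Fb ^ 2 := by nlinarith [sq_nonneg (F x + Fb)]
    nlinarith
  set S := ∫ x, (F x - Fb) ^ 2 * u x ∂μ with hS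
  -- Jensen
  have hJ : 1 / ub ≤ i := by
    have h1 : ∫ x, (2 / ub - u x / ub ^ 2) ∂μ ≤ ∫ x, 1 / u x ∂μ := by
      refine integral_mono ((integrable_const _).sub (hu.div_const _)) hinv (fun x => ?_)
      have hux := hu0 x
      have : 1 / u x - (2 / ub - u x / ub ^ 2) = (ub - u x) ^ 2 / (u x * ub ^ 2) := by
        field_simp; ring
      have h2 : 0 ≤ (ub - u x) ^ 2 / (u x * ub ^ 2) := by positivity
      simp only
      linarith
    have e0 : ∫ x, u x / ub ^ 2 ∂μ = ub / ub ^ 2 := by rw [integral_div]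
    rw [integral_sub (integrable_const _) (hu.div_const _), e0, integral_const,
      probReal_univ, one_smul] at h1
    have h2 : 2 / ub - ub / ub ^ 2 = 1 / ub := by field_simp; ring
    rw [h2] at h1
    exact h1
  -- first pointwise inequality
  have hP1 : Fb ^ 2 * ub + (1 / 2) * S - 2 * Fb ^ 2 * (ub ^ 2 * i - ub) ≤
      ∫ x, F x ^ 2 * u x ∂μ := by
    have i1 : Integrable (fun x => Fb ^ 2 * u x) μ := hu.const_mul _
    have i2 : Integrable (fun x => 2 * Fb * ub * (F x - Fb)) μ :=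
      (hF.sub (integrable_const _)).const_mul _
    have i3 : Integrable (fun x => (1 / 2) * ((F x - Fb) ^ 2 * u x)) μ := hG.const_mul _
    have i4 : Integrable (fun x => 2 * Fb ^ 2 * (u x - 2 * ub + ub ^ 2 * (1 / u x))) μ :=
      ((hu.sub (integrable_const _)).add (hinv.const_mul _)).const_mul _
    have h1 : ∫ x, (Fb ^ 2 * u x + 2 * Fb * ub * (F x - Fb) + (1 / 2) * ((F x - Fb) ^ 2 * u x) -
        2 * Fb ^ 2 * (u x - 2 * ub + ub ^ 2 * (1 / u x))) ∂μ ≤ ∫ x, F x ^ 2 * u x ∂μ := by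
      refine integral_mono (((i1.add i2).add i3).sub i4) hFu (fun x => ?_)
      have hux := hu0 x
      have h2 : F x ^ 2 * u x - (Fb ^ 2 * u x + 2 * Fb * ub * (F x - Fb) +
          (1 / 2) * ((F x - Fb) ^ 2 * u x) - 2 * Fb ^ 2 * (u x - 2 * ub + ub ^ 2 * (1 / u x))) =
          (1 / 2) * u x * ((F x - Fb) + 2 * Fb * (u x - ub) / u x) ^ 2 := by
        field_simp; ring
      have h3 : 0 ≤ (1 / 2) * u x * ((F x - Fb) + 2 * Fb * (u x - ub) / u x) ^ 2 := by positivity
      simp only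
      linarith
    have e1 : ∫ x, (Fb ^ 2 * u x + 2 * Fb * ub * (F x - Fb) + (1 / 2) * ((F x - Fb) ^ 2 * u x) -
        2 * Fb ^ 2 * (u x - 2 * ub + ub ^ 2 * (1 / u x))) ∂μ =
        Fb ^ 2 * ub + 0 + (1 / 2) * S - 2 * Fb ^ 2 * (ub - 2 * ub + ub ^ 2 * i) := by
      have i12 : Integrable (fun x => Fb ^ 2 * u x + 2 * Fb * ub * (F x - Fb)) μ := i1.add i2
      have i123 : Integrable (fun x => Fb ^ 2 * u x + 2 * Fb * ub * (F x - Fb) +
        (1 / 2) * ((F x - Fb) ^ 2 * u x)) μ := i12.add i3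
      have i5 : Integrable (fun x => u x - 2 * ub) μ := hu.sub (integrable_const _)
      have e7 : ∫ x, ub ^ 2 * (1 / u x) ∂μ = ub ^ 2 * i := by rw [integral_const_mul]
      rw [integral_sub i123 i4, integral_add i12 i3, integral_add i1 i2,
        integral_const_mul, integral_const_mul, integral_const_mul, integral_const_mul,
        integral_sub hF (integrable_const _),
        integral_add i5 (hinv.const_mul _),
        integral_sub hu (integrable_const _), integral_const, integral_const,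
        probReal_univ, one_smul, one_smul, ← hFb, ← hub, ← hS, e7]
      ring
    rw [e1] at h1
    linarith
  -- second part
  set m := vb - i / 2 with hm
  have hiv : i ≤ vb := by
    refine integral_mono hinv hv (fun x => ?_)
    have h1 := hu0 x
    have h2 := huv x
    simp only
    rw [div_le_iff₀ h1]; linarith
  have hm0 : 0 < m := by rw [hm]; linarith
  have hy0 : ∀ x, 0 < v x - 1 / (2 * u x) := fun x => by
    have h1 := gap_pos (hu0 x) (huv x)
    have h2 := hu0 x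
    have : 0 < 1 / (2 * u x) := by positivity
    linarith
  have hquo : Integrable (fun x => F x ^ 2 / (v x - 1 / (2 * u x))) μ := by
    refine (hFu.const_mul 2).mono' (Measurable.div (by fun_prop)
      (by fun_prop)).aestronglyMeasurable (Eventually.of_forall (fun x => ?_))
    have h1 := hy0 x
    rw [Real.norm_of_nonneg (by positivity)]
    exact quot_le (hu0 x) (huv x)
  have hy : Integrable (fun x => v x - 1 / (2 * u x)) μ := by
    have : (fun x => v x - 1 / (2 * u x)) = fun x => v x - (1 / 2) * (1 / u x) := by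
      ext x; have := (hu0 x).ne'; field_simp
    rw [this]
    exact hv.sub (hinv.const_mul _)
  have hyint : ∫ x, (v x - 1 / (2 * u x)) ∂μ = m := by
    have : (fun x => v x - 1 / (2 * u x)) = fun x => v x - (1 / 2) * (1 / u x) := by
      ext x; have := (hu0 x).ne'; field_simp
    rw [this, integral_sub hv (hinv.const_mul _), integral_const_mul, ← hi, ← hvb, hm]
    ring
  have hP2 : Fb ^ 2 / m ≤ ∫ x, F x ^ 2 / (v x - 1 / (2 * u x)) ∂μ := by
    set c := Fb / m with hc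
    have h1 : ∫ x, (2 * c * F x - c ^ 2 * (v x - 1 / (2 * u x))) ∂μ ≤
        ∫ x, F x ^ 2 / (v x - 1 / (2 * u x)) ∂μ := by
      refine integral_mono ((hF.const_mul _).sub (hy.const_mul _)) hquo (fun x => ?_)
      simp only
      have h2 := hy0 x
      rw [le_div_iff₀ h2]
      nlinarith [sq_nonneg (F x - c * (v x - 1 / (2 * u x)))]
    rw [integral_sub (hF.const_mul _) (hy.const_mul _), integral_const_mul, integral_const_mul,
      hyint, ← hFb] at h1
    have h3 : 2 * c * Fb - c ^ 2 * m = Fb ^ 2 / m := by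
      rw [hc]; field_simp; ring
    linarith
  set M := vb - 1 / (2 * ub) with hM
  have hMm : M - m = (1 / 2) * (i - 1 / ub) := by
    rw [hM, hm]; field_simp; ring
  have hMm0 : 0 ≤ M - m := by rw [hMm]; linarith
  have hM0 : 0 < M := by linarith
  have hMv : M ≤ vb := by
    rw [hM]
    have : 0 < 1 / (2 * ub) := by positivity
    linarith
  have hP3 : Fb ^ 2 / M + Fb ^ 2 * ((1 / 2) * (i - 1 / ub)) * (ub ^ 2 / Q ^ 2) ≤ Fb ^ 2 / m := by
    have h1 : Fb ^ 2 / m - Fb ^ 2 / M = Fb ^ 2 * (M - m) * (1 / (m * M)) := by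
      field_simp
    have h2 : ub ^ 2 / Q ^ 2 ≤ 1 / (m * M) := by
      rw [div_le_div_iff₀ (by positivity) (by positivity)]
      have h3 : m * M ≤ vb * vb := by
        apply mul_le_mul _ hMv hM0.le hvb0.le
        linarith
      calc ub ^ 2 * (m * M) ≤ ub ^ 2 * (vb * vb) := by gcongr
        _ = (ub * vb) ^ 2 := by ring
        _ ≤ Q ^ 2 := by gcongr
        _ = 1 * Q ^ 2 := by ring
    rw [← hMm]
    have h4 : Fb ^ 2 * (M - m) * (ub ^ 2 / Q ^ 2) ≤ Fb ^ 2 * (M - m) * (1 / (m * M)) := by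
      gcongr
    linarith
  have htot : ∫ x, Bf Q (F x) (u x) (v x) ∂μ = ∫ x, F x ^ 2 * u x ∂μ +
      4 * Q ^ 2 * ∫ x, F x ^ 2 / (v x - 1 / (2 * u x)) ∂μ := by
    unfold Bf
    rw [integral_add hFu (hquo.const_mul _), integral_const_mul]
  rw [htot]
  have hBb : Bf Q Fb ub vb = Fb ^ 2 * ub + 4 * Q ^ 2 * (Fb ^ 2 / M) := rfl
  rw [hBb]
  have h5 : 4 * Q ^ 2 * (Fb ^ 2 / M + Fb ^ 2 * ((1 / 2) * (i - 1 / ub)) * (ub ^ 2 / Q ^ 2)) ≤
      4 * Q ^ 2 * ∫ x, F x ^ 2 / (v x - 1 / (2 * u x)) ∂μ := by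
    gcongr
    exact hP3.trans hP2
  have h6 : 4 * Q ^ 2 * (Fb ^ 2 / M + Fb ^ 2 * ((1 / 2) * (i - 1 / ub)) * (ub ^ 2 / Q ^ 2)) =
      4 * Q ^ 2 * (Fb ^ 2 / M) + 2 * Fb ^ 2 * (ub ^ 2 * i - ub) := by
    field_simp
    ring
  linarith

/-- Cauchy-Schwarz for lower integrals -/
lemma cs_lintegral {α : Type*} [MeasurableSpace α] (μ : Measure α) {a b : α → ℝ≥0∞}
    (ha : AEMeasurable a μ) (hb : AEMeasurable b μ) :
    (∫⁻ x, a x * b x ∂μ) ^ 2 ≤ (∫⁻ x, a x ^ 2 ∂μ) * ∫⁻ x, b x ^ 2 ∂μ := by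
  have h := ENNReal.lintegral_mul_le_Lp_mul_Lq μ Real.HolderConjugate.two_two ha hb
  have h2 := ENNReal.rpow_le_rpow h (by norm_num : (0 : ℝ) ≤ 2)
  rw [ENNReal.mul_rpow_of_nonneg _ _ (by norm_num : (0 : ℝ) ≤ 2), ← ENNReal.rpow_mul,
    ← ENNReal.rpow_mul] at h2
  norm_num at h2
  simpa using h2

end Pool.Agent.GLam
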