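import Pool.Agent.GLam.PoissonInt
import Pool.Agent.GLam.OneStep

open MeasureTheory Set ENNReal Filter Topology
open scoped NNReal

namespace Pool.Agent.GLam

theorem one_step_enn {α : Type*} [MeasurableSpace α] {μ : Measure α} [IsProbabilityMeasure μ]
    {F u v : α → ℝ} (hFm : Measurable F) (hum : Measurable u) (hvm : Measurable v)
    (hF : Integrable F μ) (hu : Integrable u μ) (hv : Integrable v μ)
    (hu0 : ∀ x, 0 < u x) (hv0 : ∀ x, 0 < v x) (huv : ∀ x, 1 ≤ u x * v x)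
    (hFu : Integrable (fun x => F x ^ 2 * u x) μ) {Q : ℝ} (hQ0 : 0 < Q)
    (hQ : (∫ x, u x ∂μ) * (∫ x, v x ∂μ) ≤ Q)
    (hB0 : 0 ≤ Bf Q (∫ y, F y ∂μ) (∫ y, u y ∂μ) (∫ y, v y ∂μ)) :
    (∫⁻ x, ENNReal.ofReal ((F x - ∫ y, F y ∂μ) ^ 2 * u x) ∂μ) +
      2 * ENNReal.ofReal (Bf Q (∫ y, F y ∂μ) (∫ y, u y ∂μ) (∫ y, v y ∂μ)) ≤
      2 * ∫⁻ x, ENNReal.ofReal (Bf Q (F x) (u x) (v x)) ∂μ := by
  have h := one_step hFm hum hvm hF hu hv hu0 hv0 huv hFu hQ0 hQ
  set Fb := ∫ y, F y ∂μ with hFb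
  have hG : Integrable (fun x => (F x - Fb) ^ 2 * u x) μ := by
    have h1 : Integrable (fun x => 2 * (F x ^ 2 * u x) + 2 * Fb ^ 2 * u x) μ :=
      (hFu.const_mul 2).add (hu.const_mul _)
    refine h1.mono' (by fun_prop) (Eventually.of_forall (fun x => ?_))
    have hux := hu0 x
    rw [Real.norm_of_nonneg (by positivity)]
    have : (F x - Fb) ^ 2 ≤ 2 * F x ^ 2 + 2 * Fb ^ 2 := by nlinarith [sq_nonneg (F x + Fb)]
    nlinarith
  have hBm : Measurable (fun x => Bf Q (F x) (u x) (v x)) := by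
    unfold Bf
    exact (((hFm.pow_const 2).mul hum).add (((hFm.pow_const 2).div
      (hvm.sub (measurable_const.div (hum.const_mul 2)))).const_mul _))
  have hBi : Integrable (fun x => Bf Q (F x) (u x) (v x)) μ := by
    refine (hFu.const_mul (1 + 8 * Q ^ 2)).mono' hBm.aestronglyMeasurable
      (Eventually.of_forall (fun x => ?_))
    rw [Real.norm_of_nonneg (Bf_nonneg (hu0 x) (huv x))]
    exact Bf_le (hu0 x) (huv x)
  rw [← ofReal_integral_eq_lintegral_ofReal hG (Eventually.of_forall (fun x => by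
    have := hu0 x
    simp only [Pi.zero_apply]; positivity)),
    ← ofReal_integral_eq_lintegral_ofReal hBi (Eventually.of_forall (fun x =>
      Bf_nonneg (hu0 x) (huv x)))]
  have hS0 : 0 ≤ ∫ x, (F x - Fb) ^ 2 * u x ∂μ := integral_nonneg (fun x => by
    have := hu0 x
    simp only [Pi.zero_apply]; positivity)
  have e2 : (2 : ℝ≥0∞) = ENNReal.ofReal 2 := by simp
  rw [e2, ← ENNReal.ofReal_mul (by norm_num), ← ENNReal.ofReal_mul (by norm_num),
    ← ENNReal.ofReal_add hS0 (by positivity)]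
  apply ENNReal.ofReal_le_ofReal
  linarith

/-- pair of reciprocal weights with the Poisson `A_2` bound -/
structure Pair (Q : ℝ) (V W : ℝ → ℝ) : Prop where
  V0 : ∀ x, 0 < V x
  W0 : ∀ x, 0 < W x
  mV : Measurable V
  mW : Measurable W
  VW : ∀ x, V x * W x = 1
  Q0 : 0 < Q
  bd : ∀ t z : ℝ, 0 < t → PE (fun x => ENNReal.ofReal (V x)) t z *
    PE (fun x => ENNReal.ofReal (W x)) t z ≤ ENNReal.ofReal Q

/-- Poisson average of a real weight -/
noncomputable def pe (V : ℝ → ℝ) (t z : ℝ) : ℝ≥0∞ := PE (fun x => ENNReal.ofReal (V x)) t z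

variable {Q : ℝ} {V W f : ℝ → ℝ}

lemma measurable_pe (hV : Measurable V) (t : ℝ) : Measurable (pe V t) :=
  measurable_PE hV.ennreal_ofReal t

lemma sqrt_sq_ofReal {a : ℝ} (ha : 0 ≤ a) : ENNReal.ofReal (√a) ^ 2 = ENNReal.ofReal a := by
  rw [← ENNReal.ofReal_pow (Real.sqrt_nonneg _), Real.sq_sqrt ha]

lemma Pair.one_le (h : Pair Q V W) {t : ℝ} (ht : 0 < t) (z : ℝ) :
    1 ≤ pe V t z * pe W t z := by
  have hp := pm_prob ht z
  have hm1 : Measurable (fun x => ENNReal.ofReal (√(V x))) := (h.mV.sqrt).ennreal_ofReal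
  have hm2 : Measurable (fun x => ENNReal.ofReal (√(W x))) := (h.mW.sqrt).ennreal_ofReal
  have h1 := cs_lintegral (pm t z) hm1.aemeasurable hm2.aemeasurable
  have e1 : ∫⁻ x, ENNReal.ofReal (√(V x)) * ENNReal.ofReal (√(W x)) ∂(pm t z) = 1 := by
    have : ∀ x, ENNReal.ofReal (√(V x)) * ENNReal.ofReal (√(W x)) = 1 := by
      intro x
      rw [← ENNReal.ofReal_mul (Real.sqrt_nonneg _), ← Real.sqrt_mul (h.V0 x).le, h.VW x]
      simp
    simp only [this, lintegral_one, measure_univ]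
  have e2 : ∫⁻ x, ENNReal.ofReal (√(V x)) ^ 2 ∂(pm t z) = pe V t z := by
    simp only [fun x => sqrt_sq_ofReal (h.V0 x).le]
    exact lintegral_pm h.mV.ennreal_ofReal t z
  have e3 : ∫⁻ x, ENNReal.ofReal (√(W x)) ^ 2 ∂(pm t z) = pe W t z := by
    simp only [fun x => sqrt_sq_ofReal (h.W0 x).le]
    exact lintegral_pm h.mW.ennreal_ofReal t z
  rw [e1, e2, e3] at h1
  simpa using h1

lemma Pair.V_top (h : Pair Q V W) {t : ℝ} (ht : 0 < t) (z : ℝ) : pe V t z ≠ ∞ := by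
  intro h1
  have h2 := h.one_le ht z
  have h3 := h.bd t z ht
  have h4 : pe W t z ≠ 0 := by
    intro h5; rw [h5, mul_zero] at h2; simp at h2
  unfold pe at h1 h4
  rw [h1, ENNReal.top_mul h4] at h3
  exact absurd h3 (by simp)

lemma Pair.W_top (h : Pair Q V W) {t : ℝ} (ht : 0 < t) (z : ℝ) : pe W t z ≠ ∞ := by
  intro h1
  have h2 := h.one_le ht z
  have h3 := h.bd t z ht
  have h4 : pe V t z ≠ 0 := by
    intro h5; rw [h5, zero_mul] at h2; simp at h2
  unfold pe at h1 h4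
  rw [h1, ENNReal.mul_top h4] at h3
  exact absurd h3 (by simp)

lemma Pair.uv_ge (h : Pair Q V W) {t : ℝ} (ht : 0 < t) (z : ℝ) :
    1 ≤ (pe V t z).toReal * (pe W t z).toReal := by
  have h2 := ENNReal.toReal_mono (ENNReal.mul_ne_top (h.V_top ht z) (h.W_top ht z)) (h.one_le ht z)
  rwa [ENNReal.toReal_mul, ENNReal.toReal_one] at h2

lemma Pair.uv_le (h : Pair Q V W) {t : ℝ} (ht : 0 < t) (z : ℝ) :
    (pe V t z).toReal * (pe W t z).toReal ≤ Q := by
  have h2 := ENNReal.toReal_mono ENNReal.ofReal_ne_top (h.bd t z ht)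
  rwa [ENNReal.toReal_mul, ENNReal.toReal_ofReal h.Q0.le] at h2

lemma Pair.u_pos (h : Pair Q V W) {t : ℝ} (ht : 0 < t) (z : ℝ) : 0 < (pe V t z).toReal := by
  have h1 := h.uv_ge ht z
  have h2 : 0 ≤ (pe V t z).toReal := ENNReal.toReal_nonneg
  rcases h2.eq_or_lt with h3 | h3
  · rw [← h3] at h1; norm_num at h1
  · exact h3

lemma Pair.v_pos (h : Pair Q V W) {t : ℝ} (ht : 0 < t) (z : ℝ) : 0 < (pe W t z).toReal := by
  have h1 := h.uv_ge ht z
  have h2 : 0 ≤ (pe W t z).toReal := ENNReal.toReal_nonneg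
  rcases h2.eq_or_lt with h3 | h3
  · rw [← h3] at h1; norm_num at h1
  · exact h3

lemma Pair.cs (h : Pair Q V W) (hf : Measurable f) {t : ℝ} (z : ℝ) :
    (PE (fun x => ENNReal.ofReal |f x|) t z) ^ 2 ≤
      PE (fun x => ENNReal.ofReal (f x ^ 2 * V x)) t z * pe W t z := by
  have hm1 : Measurable (fun x => ENNReal.ofReal (|f x| * √(V x))) :=
    (((continuous_abs.measurable.comp hf)).mul (h.mV.sqrt)).ennreal_ofReal
  have hm2 : Measurable (fun x => ENNReal.ofReal (√(W x))) := (h.mW.sqrt).ennreal_ofReal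
  have h1 := cs_lintegral (pm t z) hm1.aemeasurable hm2.aemeasurable
  have e1 : ∫⁻ x, ENNReal.ofReal (|f x| * √(V x)) * ENNReal.ofReal (√(W x)) ∂(pm t z) =
      PE (fun x => ENNReal.ofReal |f x|) t z := by
    have m : Measurable (fun x => ENNReal.ofReal |f x|) :=
      (continuous_abs.measurable.comp hf).ennreal_ofReal
    rw [← lintegral_pm m]
    refine lintegral_congr (fun x => ?_)
    rw [← ENNReal.ofReal_mul (by positivity), mul_assoc, ← Real.sqrt_mul (h.V0 x).le, h.VW x]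
    simp
  have e2 : ∫⁻ x, ENNReal.ofReal (|f x| * √(V x)) ^ 2 ∂(pm t z) =
      PE (fun x => ENNReal.ofReal (f x ^ 2 * V x)) t z := by
    have m : Measurable (fun x => ENNReal.ofReal (f x ^ 2 * V x)) :=
      ((hf.pow_const 2).mul h.mV).ennreal_ofReal
    rw [← lintegral_pm m]
    refine lintegral_congr (fun x => ?_)
    rw [← ENNReal.ofReal_pow (by positivity), mul_pow, sq_abs, Real.sq_sqrt (h.V0 x).le]
  have e3 : ∫⁻ x, ENNReal.ofReal (√(W x)) ^ 2 ∂(pm t z) = pe W t z := by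
    simp only [fun x => sqrt_sq_ofReal (h.W0 x).le]
    exact lintegral_pm h.mW.ennreal_ofReal t z
  rwa [e1, e2, e3] at h1

lemma Pair.PEfin {g : ℝ → ℝ≥0∞} (hN : ∫⁻ x, g x ≠ ∞)
    {t : ℝ} (ht : 0 < t) (z : ℝ) : PE g t z ≠ ∞ :=
  ne_top_of_le_ne_top (ENNReal.mul_ne_top ENNReal.ofReal_ne_top hN) (PE_le_lintegral ht z)

lemma Pair.fin (h : Pair Q V W) (hf : Measurable f)
    (hN : ∫⁻ x, ENNReal.ofReal (f x ^ 2 * V x) ≠ ∞) : Fin f := by
  intro t z ht h1
  have h2 := h.cs hf (t := t) z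
  rw [h1] at h2
  have h3 := ENNReal.mul_ne_top (Pair.PEfin hN ht z) (h.W_top ht z)
  apply h3
  rw [eq_top_iff]
  refine le_trans (by simp) h2

lemma Pair.F2u (h : Pair Q V W) (hf : Measurable f)
    (hN : ∫⁻ x, ENNReal.ofReal (f x ^ 2 * V x) ≠ ∞) {t : ℝ} (ht : 0 < t) (z : ℝ) :
    ENNReal.ofReal (Fn f t z ^ 2 * (pe V t z).toReal) ≤
      ENNReal.ofReal Q * PE (fun x => ENNReal.ofReal (f x ^ 2 * V x)) t z := by
  have h1 := abs_Fn_le (h.fin hf hN) ht z
  have h2 : ENNReal.ofReal (Fn f t z ^ 2) ≤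
      PE (fun x => ENNReal.ofReal (f x ^ 2 * V x)) t z * pe W t z := by
    rw [← sq_abs, ENNReal.ofReal_pow (abs_nonneg _)]
    exact (pow_le_pow_left' h1 2).trans (h.cs hf z)
  rw [ENNReal.ofReal_mul (sq_nonneg _), ENNReal.ofReal_toReal (h.V_top ht z)]
  calc ENNReal.ofReal (Fn f t z ^ 2) * pe V t z
      ≤ (PE (fun x => ENNReal.ofReal (f x ^ 2 * V x)) t z * pe W t z) * pe V t z := by gcongr
    _ = PE (fun x => ENNReal.ofReal (f x ^ 2 * V x)) t z * (pe V t z * pe W t z) := by ring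
    _ ≤ PE (fun x => ENNReal.ofReal (f x ^ 2 * V x)) t z * ENNReal.ofReal Q := by
        gcongr; exact h.bd t z ht
    _ = _ := mul_comm _ _

/-- local oscillation at scale `t` -/
noncomputable def St (f V : ℝ → ℝ) (t z : ℝ) : ℝ≥0∞ :=
  ∫⁻ x, ENNReal.ofReal (Pk t (z - x)) *
    ENNReal.ofReal ((Fn f t x - Fn f (t + t) z) ^ 2 * (pe V t x).toReal)

noncomputable def bt (Q : ℝ) (f V W : ℝ → ℝ) (t z : ℝ) : ℝ≥0∞ :=
  ENNReal.ofReal (Bf Q (Fn f t z) (pe V t z).toReal (pe W t z).toReal)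

lemma measurable_bt (hf : Measurable f) (hV : Measurable V) (hW : Measurable W) (t : ℝ) :
    Measurable (bt Q f V W t) := by
  unfold bt Bf
  have m1 := measurable_Fn hf t
  have m2 := (measurable_pe hV t).ennreal_toReal
  have m3 := (measurable_pe hW t).ennreal_toReal
  exact (((m1.pow_const 2).mul m2).add (((m1.pow_const 2).div
      (m3.sub (measurable_const.div (m2.const_mul 2)))).const_mul _)).ennreal_ofReal

lemma Pair.step (h : Pair Q V W) (hf : Measurable f)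
    (hN : ∫⁻ x, ENNReal.ofReal (f x ^ 2 * V x) ≠ ∞) {t : ℝ} (ht : 0 < t) (z : ℝ) :
    St f V t z + 2 * bt Q f V W (t + t) z ≤ 2 * PE (bt Q f V W t) t z := by
  have hp := pm_prob ht z
  have htt : 0 < t + t := by linarith
  have hfin := h.fin hf hN
  have mV := measurable_pe h.mV t
  have mW := measurable_pe h.mW t
  have eV : PE (pe V t) t z = pe V (t + t) z := PE_PE h.mV.ennreal_ofReal ht ht z
  have eW : PE (pe W t) t z = pe W (t + t) z := PE_PE h.mW.ennreal_ofReal ht ht z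
  have tV : PE (pe V t) t z ≠ ∞ := by rw [eV]; exact h.V_top htt z
  have tW : PE (pe W t) t z ≠ ∞ := by rw [eW]; exact h.W_top htt z
  have iV := integral_pm mV tV
  have iW := integral_pm mW tW
  have iF := integral_Fn hf hfin ht ht z
  rw [eV] at iV
  rw [eW] at iW
  have hFu : Integrable (fun x => Fn f t x ^ 2 * (pe V t x).toReal) (pm t z) := by
    refine ⟨(((measurable_Fn hf t).pow_const 2).mul mV.ennreal_toReal).aestronglyMeasurable, ?_⟩
    rw [hasFiniteIntegral_iff_ofReal (Eventually.of_forall (fun x => by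
      have := h.u_pos ht x
      simp only [Pi.zero_apply]; positivity))]
    have hm : Measurable (fun x => ENNReal.ofReal (f x ^ 2 * V x)) :=
      ((hf.pow_const 2).mul h.mV).ennreal_ofReal
    calc ∫⁻ x, ENNReal.ofReal (Fn f t x ^ 2 * (pe V t x).toReal) ∂(pm t z)
        ≤ ∫⁻ x, ENNReal.ofReal Q * PE (fun x => ENNReal.ofReal (f x ^ 2 * V x)) t x ∂(pm t z) :=
          lintegral_mono (fun x => h.F2u hf hN ht x)
      _ = ENNReal.ofReal Q * PE (PE (fun x => ENNReal.ofReal (f x ^ 2 * V x)) t) t z := by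
          rw [lintegral_const_mul' _ _ ENNReal.ofReal_ne_top, lintegral_pm (measurable_PE hm t)]
      _ < ∞ := by
          rw [PE_PE hm ht ht]
          exact ENNReal.mul_lt_top ENNReal.ofReal_lt_top (Pair.PEfin hN htt z).lt_top
  have key := one_step_enn (μ := pm t z) (F := Fn f t) (u := fun x => (pe V t x).toReal)
    (v := fun x => (pe W t x).toReal) (Q := Q) (measurable_Fn hf t) mV.ennreal_toReal
    mW.ennreal_toReal (integrable_Fn hf hfin ht ht z) (integrable_pm mV tV) (integrable_pm mW tW)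
    (fun x => h.u_pos ht x) (fun x => h.v_pos ht x) (fun x => h.uv_ge ht x) hFu h.Q0
    (by rw [iV, iW]; exact h.uv_le htt z)
    (by rw [iV, iW, iF]; exact Bf_nonneg (h.u_pos htt z) (h.uv_ge htt z))
  rw [iV, iW, iF] at key
  have e1 : ∫⁻ x, ENNReal.ofReal ((Fn f t x - Fn f (t + t) z) ^ 2 * (pe V t x).toReal) ∂(pm t z) =
      St f V t z := by
    have m : Measurable (fun x => ENNReal.ofReal ((Fn f t x - Fn f (t + t) z) ^ 2 *
        (pe V t x).toReal)) :=
      ((((measurable_Fn hf t).sub measurable_const).pow_const 2).mul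
        mV.ennreal_toReal).ennreal_ofReal
    rw [lintegral_pm m]
    rfl
  have e2 : ∫⁻ x, ENNReal.ofReal (Bf Q (Fn f t x) (pe V t x).toReal (pe W t x).toReal) ∂(pm t z) =
      PE (bt Q f V W t) t z := lintegral_pm (measurable_bt hf h.mV h.mW t) t z
  rw [e1, e2] at key
  exact key

/-- total mass -/
noncomputable def beta (Q : ℝ) (f V W : ℝ → ℝ) (t : ℝ) : ℝ≥0∞ := ∫⁻ z, bt Q f V W t z

lemma Pair.sstep (h : Pair Q V W) (hf : Measurable f)
    (hN : ∫⁻ x, ENNReal.ofReal (f x ^ 2 * V x) ≠ ∞) {t : ℝ} (ht : 0 < t) :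
    (∫⁻ z, St f V t z) + 2 * beta Q f V W (t + t) ≤ 2 * beta Q f V W t := by
  have hm := measurable_bt (Q := Q) hf h.mV h.mW (t + t)
  unfold beta
  rw [← lintegral_const_mul' _ _ (by norm_num : (2 : ℝ≥0∞) ≠ ∞),
    ← lintegral_add_right _ (hm.const_mul 2)]
  calc ∫⁻ z, (St f V t z + 2 * bt Q f V W (t + t) z) ≤ ∫⁻ z, 2 * PE (bt Q f V W t) t z :=
        lintegral_mono (fun z => h.step hf hN ht z)
    _ = 2 * ∫⁻ z, bt Q f V W t z := by
        rw [lintegral_const_mul' _ _ (by norm_num : (2 : ℝ≥0∞) ≠ ∞),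
          lintegral_PE (measurable_bt hf h.mV h.mW t) ht]

lemma Pair.beta_le (h : Pair Q V W) (hf : Measurable f)
    (hN : ∫⁻ x, ENNReal.ofReal (f x ^ 2 * V x) ≠ ∞) {t : ℝ} (ht : 0 < t) :
    beta Q f V W t ≤ ENNReal.ofReal ((1 + 8 * Q ^ 2) * Q) * ∫⁻ x, ENNReal.ofReal (f x ^ 2 * V x) := by
  have hm : Measurable (fun x => ENNReal.ofReal (f x ^ 2 * V x)) :=
      ((hf.pow_const 2).mul h.mV).ennreal_ofReal
  have hQ := h.Q0
  unfold beta
  calc ∫⁻ z, bt Q f V W t z ≤ ∫⁻ z, ENNReal.ofReal ((1 + 8 * Q ^ 2) * Q) *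
        PE (fun x => ENNReal.ofReal (f x ^ 2 * V x)) t z := by
        refine lintegral_mono (fun z => ?_)
        calc bt Q f V W t z ≤ ENNReal.ofReal ((1 + 8 * Q ^ 2) * (Fn f t z ^ 2 * (pe V t z).toReal)) :=
              ENNReal.ofReal_le_ofReal (Bf_le (h.u_pos ht z) (h.uv_ge ht z))
          _ = ENNReal.ofReal (1 + 8 * Q ^ 2) * ENNReal.ofReal (Fn f t z ^ 2 * (pe V t z).toReal) :=
              ENNReal.ofReal_mul (by positivity)
          _ ≤ ENNReal.ofReal (1 + 8 * Q ^ 2) * (ENNReal.ofReal Q *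
              PE (fun x => ENNReal.ofReal (f x ^ 2 * V x)) t z) := by
              gcongr; exact h.F2u hf hN ht z
          _ = _ := by rw [← mul_assoc, ← ENNReal.ofReal_mul (by positivity)]
    _ = _ := by rw [lintegral_const_mul' _ _ ENNReal.ofReal_ne_top, lintegral_PE hm ht]

lemma Pair.sum_St (h : Pair Q V W) (hf : Measurable f)
    (hN : ∫⁻ x, ENNReal.ofReal (f x ^ 2 * V x) ≠ ∞) {t : ℝ} (ht : 0 < t) (n : ℕ) :
    ∑ k ∈ Finset.range n, (∫⁻ z, St f V (2 ^ k * t) z) + 2 * beta Q f V W (2 ^ n * t) ≤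
      2 * beta Q f V W t := by
  induction n with
  | zero => simp
  | succ n ih =>
    rw [Finset.sum_range_succ, add_assoc]
    refine le_trans (add_le_add le_rfl ?_) ih
    have h1 := h.sstep hf hN (t := 2 ^ n * t) (by positivity)
    have e : 2 ^ n * t + 2 ^ n * t = 2 ^ (n + 1) * t := by rw [pow_succ]; ring
    rwa [e] at h1

/-- **weighted square function estimate** (discrete scales) -/
theorem Pair.tsum_St (h : Pair Q V W) (hf : Measurable f)
    (hN : ∫⁻ x, ENNReal.ofReal (f x ^ 2 * V x) ≠ ∞) :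
    ∑' k : ℤ, (∫⁻ z, St f V ((2 : ℝ) ^ k) z) ≤
      2 * (ENNReal.ofReal ((1 + 8 * Q ^ 2) * Q) * ∫⁻ x, ENNReal.ofReal (f x ^ 2 * V x)) := by
  rw [ENNReal.tsum_eq_iSup_sum]
  refine iSup_le (fun s => ?_)
  obtain ⟨N, hN1⟩ : ∃ N : ℕ, ∀ k ∈ s, -(N : ℤ) ≤ k ∧ k < N := by
    refine ⟨(∑ k ∈ s, (k.natAbs + 1)), fun k hk => ?_⟩
    have h1 : k.natAbs + 1 ≤ ∑ k ∈ s, (k.natAbs + 1) :=
      Finset.single_le_sum (f := fun k : ℤ => k.natAbs + 1) (fun _ _ => Nat.zero_le _) hk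
    omega
  have h2 : ∑ k ∈ s, (∫⁻ z, St f V ((2 : ℝ) ^ k) z) ≤
      ∑ k ∈ (Finset.range (2 * N)).image (fun j : ℕ => (j : ℤ) - N),
        (∫⁻ z, St f V ((2 : ℝ) ^ k) z) := by
    refine Finset.sum_le_sum_of_subset (fun k hk => ?_)
    rw [Finset.mem_image]
    have := hN1 k hk
    refine ⟨(k + N).toNat, ?_, ?_⟩
    · rw [Finset.mem_range]; omega
    · omega
  refine h2.trans ?_
  rw [Finset.sum_image (by intro a _ b _ hab; simp only at hab; omega)]
  have h3 := h.sum_St hf hN (t := (2 : ℝ) ^ (-(N : ℤ))) (by positivity) (2 * N)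
  have e : ∀ j : ℕ, (2 : ℝ) ^ j * (2 : ℝ) ^ (-(N : ℤ)) = (2 : ℝ) ^ ((j : ℤ) - N) := by
    intro j
    rw [← zpow_natCast, ← zpow_add₀ (by norm_num)]
    rfl
  simp only [e] at h3
  calc ∑ j ∈ Finset.range (2 * N), (∫⁻ z, St f V ((2 : ℝ) ^ ((j : ℤ) - N)) z)
      ≤ 2 * beta Q f V W ((2 : ℝ) ^ (-(N : ℤ))) := le_trans le_self_add h3
    _ ≤ _ := by gcongr; exact h.beta_le hf hN (by positivity)

end Pool.Agent.GLam
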