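import Mathlib

/-! Uncentred maximal function on the line with respect to a general measure:
weak type (1,1) and strong type (r,r). -/

open MeasureTheory Set ENNReal

namespace Pool.Agent.GLam

/-- the uncentred maximal function with respect to `μ` -/
noncomputable def MM (μ : Measure ℝ) (f : ℝ → ℝ≥0∞) (x : ℝ) : ℝ≥0∞ :=
  ⨆ (a : ℝ) (b : ℝ) (_ : a < x ∧ x < b), (∫⁻ t in Ioo a b, f t ∂μ) / μ (Ioo a b)

lemma le_MM (μ : Measure ℝ) (f : ℝ → ℝ≥0∞) {a b x : ℝ} (ha : a < x) (hb : x < b) :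
    (∫⁻ t in Ioo a b, f t ∂μ) / μ (Ioo a b) ≤ MM μ f x := by
  unfold MM
  exact le_iSup_of_le a (le_iSup_of_le b (le_iSup_of_le ⟨ha, hb⟩ le_rfl))

lemma lt_MM_iff (μ : Measure ℝ) (f : ℝ → ℝ≥0∞) (c : ℝ≥0∞) (x : ℝ) :
    c < MM μ f x ↔ ∃ a b : ℝ, a < x ∧ x < b ∧ c < (∫⁻ t in Ioo a b, f t ∂μ) / μ (Ioo a b) := by
  unfold MM
  constructor
  · intro h
    rw [lt_iSup_iff] at h
    obtain ⟨a, h⟩ := h
    rw [lt_iSup_iff] at h
    obtain ⟨b, h⟩ := h
    rw [lt_iSup_iff] at h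
    obtain ⟨hab, h⟩ := h
    exact ⟨a, b, hab.1, hab.2, h⟩
  · rintro ⟨a, b, ha, hb, h⟩
    exact h.trans_le (le_iSup_of_le a (le_iSup_of_le b (le_iSup_of_le ⟨ha, hb⟩ le_rfl)))

lemma setOf_lt_MM (μ : Measure ℝ) (f : ℝ → ℝ≥0∞) (c : ℝ≥0∞) :
    {x | c < MM μ f x} = ⋃ p ∈ {p : ℝ × ℝ | c < (∫⁻ t in Ioo p.1 p.2, f t ∂μ) / μ (Ioo p.1 p.2)},
      Ioo p.1 p.2 := by
  ext x
  simp only [mem_ofPred_eq, mem_iUnion, mem_Ioo, exists_prop, Prod.exists]
  rw [lt_MM_iff]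
  constructor
  · rintro ⟨a, b, ha, hb, h⟩; exact ⟨a, b, h, ha, hb⟩
  · rintro ⟨a, b, h, ha, hb⟩; exact ⟨a, b, ha, hb, h⟩

lemma isOpen_lt_MM (μ : Measure ℝ) (f : ℝ → ℝ≥0∞) (c : ℝ≥0∞) : IsOpen {x | c < MM μ f x} := by
  rw [setOf_lt_MM]
  exact isOpen_biUnion (fun _ _ => isOpen_Ioo)

lemma measurable_MM (μ : Measure ℝ) (f : ℝ → ℝ≥0∞) : Measurable (MM μ f) :=
  measurable_of_Ioi (fun c => (isOpen_lt_MM μ f c).measurableSet)

lemma MM_mono (μ : Measure ℝ) {f g : ℝ → ℝ≥0∞} (h : ∀ x, f x ≤ g x) (x : ℝ) :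
    MM μ f x ≤ MM μ g x := by
  unfold MM
  gcongr with a b hab t
  exact h t

/-- A finite family of intervals contains a subfamily with the same union in which no point is
covered more than twice. -/
lemma exists_subcover (F : Finset (ℝ × ℝ)) :
    ∃ G ⊆ F, (⋃ p ∈ G, Ioo p.1 p.2) = (⋃ p ∈ F, Ioo p.1 p.2) ∧
      ∀ x : ℝ, (G.filter (fun p => x ∈ Ioo p.1 p.2)).card ≤ 2 := by
  classical
  set S : Finset (Finset (ℝ × ℝ)) := F.powerset.filter
    (fun G => (⋃ p ∈ G, Ioo p.1 p.2) = (⋃ p ∈ F, Ioo p.1 p.2)) with hS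
  have hne : S.Nonempty := ⟨F, by simp [hS]⟩
  obtain ⟨G, hG, hmin⟩ := S.exists_min_image (fun G => G.card) hne
  rw [hS, Finset.mem_filter, Finset.mem_powerset] at hG
  refine ⟨G, hG.1, hG.2, fun x => ?_⟩
  by_contra hcon
  push Not at hcon
  set T := G.filter (fun p => x ∈ Ioo p.1 p.2) with hT
  have hTne : T.Nonempty := by
    rw [← Finset.card_pos]; omega
  obtain ⟨L, hL, hLmin⟩ := T.exists_min_image (fun p => p.1) hTne
  obtain ⟨R, hR, hRmax⟩ := T.exists_max_image (fun p => p.2) hTne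
  have : ∃ I ∈ T, I ≠ L ∧ I ≠ R := by
    by_contra hno
    push Not at hno
    have hsub : T ⊆ {L, R} := by
      intro I hI
      rw [Finset.mem_insert, Finset.mem_singleton]
      by_cases h : I = L
      · exact Or.inl h
      · exact Or.inr (hno I hI h)
    have := Finset.card_le_card hsub
    have h2 := Finset.card_le_two (a := L) (b := R)
    omega
  obtain ⟨I, hI, hIL, hIR⟩ := this
  rw [hT, Finset.mem_filter] at hL hR hI
  have hunion : (⋃ p ∈ G.erase I, Ioo p.1 p.2) = (⋃ p ∈ F, Ioo p.1 p.2) := by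
    rw [← hG.2]
    apply Subset.antisymm
    · exact biUnion_subset_biUnion_left (fun p hp => Finset.mem_of_mem_erase hp)
    · intro y hy
      rw [mem_iUnion₂] at hy ⊢
      obtain ⟨p, hp, hyp⟩ := hy
      by_cases hpI : p = I
      · subst hpI
        rcases le_total y x with h | h
        · refine ⟨L, Finset.mem_erase.2 ⟨hIL.symm, hL.1⟩, ?_, ?_⟩
          · exact (hLmin p (by rw [hT, Finset.mem_filter]; exact hI)).trans_lt hyp.1
          · exact h.trans_lt hL.2.2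
        · refine ⟨R, Finset.mem_erase.2 ⟨hIR.symm, hR.1⟩, ?_, ?_⟩
          · exact hR.2.1.trans_le h
          · exact hyp.2.trans_le (hRmax p (by rw [hT, Finset.mem_filter]; exact hI))
      · exact ⟨p, Finset.mem_erase.2 ⟨hpI, hp⟩, hyp⟩
  have hmem : G.erase I ∈ S := by
    rw [hS, Finset.mem_filter, Finset.mem_powerset]
    exact ⟨(Finset.erase_subset _ _).trans hG.1, hunion⟩
  have h1 := hmin _ hmem
  have h2 := Finset.card_erase_lt_of_mem hI.1
  omega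

/-- weak type (1,1) -/
lemma weak_type (μ : Measure ℝ) [IsLocallyFiniteMeasure μ] {f : ℝ → ℝ≥0∞} (hf : Measurable f)
    (c : ℝ≥0∞) : c * μ {x | c < MM μ f x} ≤ 2 * ∫⁻ x, f x ∂μ := by
  classical
  rw [(isOpen_lt_MM μ f c).measure_eq_iSup_isCompact, ENNReal.mul_iSup]
  refine iSup_le (fun K => ?_)
  rw [ENNReal.mul_iSup]
  refine iSup_le (fun hK => ?_)
  rw [ENNReal.mul_iSup]
  refine iSup_le (fun hKc => ?_)
  rw [setOf_lt_MM] at hK
  obtain ⟨F, hFsub, hFfin, hF⟩ := hKc.elim_finite_subcover_image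
    (b := {p : ℝ × ℝ | c < (∫⁻ t in Ioo p.1 p.2, f t ∂μ) / μ (Ioo p.1 p.2)})
    (c := fun p => Ioo p.1 p.2) (fun _ _ => isOpen_Ioo) hK
  obtain ⟨G, hGF, hGU, hG2⟩ := exists_subcover hFfin.toFinset
  have hKG : K ⊆ ⋃ p ∈ G, Ioo p.1 p.2 := by
    rw [hGU]
    intro x hx
    have := hF hx
    simpa using this
  have hGc : ∀ p ∈ G, c * μ (Ioo p.1 p.2) ≤ ∫⁻ t in Ioo p.1 p.2, f t ∂μ := by
    intro p hp
    have hp' : c < (∫⁻ t in Ioo p.1 p.2, f t ∂μ) / μ (Ioo p.1 p.2) := by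
      have := hGF hp
      rw [Set.Finite.mem_toFinset] at this
      exact hFsub this
    exact ENNReal.mul_le_of_le_div hp'.le
  calc c * μ K ≤ c * ∑ p ∈ G, μ (Ioo p.1 p.2) := by
        gcongr
        exact (measure_mono hKG).trans (measure_biUnion_finset_le _ _)
    _ = ∑ p ∈ G, c * μ (Ioo p.1 p.2) := Finset.mul_sum _ _ _
    _ ≤ ∑ p ∈ G, ∫⁻ t in Ioo p.1 p.2, f t ∂μ := Finset.sum_le_sum hGc
    _ = ∫⁻ t, ∑ p ∈ G, (Ioo p.1 p.2).indicator f t ∂μ := by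
        rw [lintegral_finsetSum' _ (fun p _ => (hf.indicator measurableSet_Ioo).aemeasurable)]
        refine Finset.sum_congr rfl (fun p _ => ?_)
        rw [lintegral_indicator measurableSet_Ioo]
    _ ≤ ∫⁻ t, 2 * f t ∂μ := by
        refine lintegral_mono (fun t => ?_)
        have h1 : ∑ p ∈ G, (Ioo p.1 p.2).indicator f t =
            ∑ p ∈ G.filter (fun p => t ∈ Ioo p.1 p.2), f t := by
          rw [Finset.sum_filter]
          refine Finset.sum_congr rfl (fun p _ => ?_)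
          by_cases h : t ∈ Ioo p.1 p.2
          · rw [indicator_of_mem h, if_pos h]
          · rw [indicator_of_notMem h, if_neg h]
        rw [h1, Finset.sum_const, nsmul_eq_mul]
        gcongr
        exact_mod_cast hG2 t
    _ = 2 * ∫⁻ x, f x ∂μ := lintegral_const_mul _ hf

end Pool.Agent.GLam
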