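import Pool.Agent.GLam.Deriv

open MeasureTheory Set ENNReal Filter Topology
open scoped NNReal

namespace Pool.Agent.GLam

variable {f U : ℝ → ℝ}

lemma dPk_lower {ℓ y X : ℝ} (hℓ : 0 < ℓ) (hy1 : ℓ / 4 < y) (hy2 : y < ℓ / 2) (hX1 : ℓ < X)
    (hX2 : X < 3 * ℓ) : 1 / (100 * ℓ ^ 2) ≤ dPk y X := by
  have hpi := Real.pi_pos
  have hpi4 := Real.pi_lt_four
  have hy0 : 0 < y := by linarith
  have hX0 : 0 < X := by linarith
  unfold dPk
  have h1 : 3 / 4 * X ^ 2 ≤ X ^ 2 - y ^ 2 := by nlinarith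
  have h2 : X ^ 2 + y ^ 2 ≤ 5 / 4 * X ^ 2 := by nlinarith
  have h3 : X ^ 2 ≤ 9 * ℓ ^ 2 := by nlinarith
  rw [div_le_div_iff₀ (by positivity) (by positivity), one_mul]
  calc Real.pi * (X ^ 2 + y ^ 2) ^ 2 ≤ 4 * (5 / 4 * X ^ 2) ^ 2 := by gcongr
    _ = (25 / 4 * X ^ 2) * X ^ 2 := by ring
    _ ≤ (25 / 4 * (9 * ℓ ^ 2)) * X ^ 2 := by gcongr
    _ = (3 / 4 * X ^ 2) * (75 * ℓ ^ 2) := by ring
    _ ≤ (X ^ 2 - y ^ 2) * (100 * ℓ ^ 2) := by
        apply mul_le_mul h1 (by nlinarith [sq_nonneg ℓ]) (by positivity)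
        exact le_trans (by positivity) h1

lemma grad_lower {a b M : ℝ} (hab : a < b) (hf : AEMeasurable f) (hf0 : ∀ x, 0 ≤ f x)
    (hM : ∀ x, f x ≤ M) (hs : ∀ x, x ∉ Ioo a b → f x = 0) {z y : ℝ}
    (hz : z ∈ Ioo (b + (b - a)) (b + 2 * (b - a))) (hy : y ∈ Ioo ((b - a) / 4) ((b - a) / 2)) :
    Integrable f ∧ ((∫ x, f x) / (100 * (b - a) ^ 2)) ^ 2 ≤ gradSq f z y := by
  have hℓ : 0 < b - a := by linarith
  have hy0 : 0 < y := by linarith [hy.1]
  have hfi : Integrable f := by
    have h1 : Integrable ((Ioo a b).indicator (fun _ => M)) :=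
      (integrable_indicator_iff measurableSet_Ioo).2 (integrableOn_const (by simp) (by simp))
    refine h1.mono' hf.aestronglyMeasurable (Eventually.of_forall (fun x => ?_))
    rw [Real.norm_of_nonneg (hf0 x)]
    by_cases hx : x ∈ Ioo a b
    · rw [indicator_of_mem hx]; exact hM x
    · rw [indicator_of_notMem hx, hs x hx]
  refine ⟨hfi, ?_⟩
  have hPi : Integrable (fun x => Pk y (z - x) * f x) := by
    refine hfi.bdd_mul (c := 1 / (Real.pi * y)) ?_ ?_
    · exact ((continuous_Pk hy0).comp (by fun_prop)).aestronglyMeasurable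
    · refine Eventually.of_forall (fun x => ?_)
      rw [Real.norm_of_nonneg (Pk_nonneg hy0 _)]
      exact Pk_le hy0 _
  obtain ⟨hi, hd⟩ := hasDerivAt_y hf hy0 hPi
  have h0 : 0 ≤ ∫ x, f x := integral_nonneg hf0
  have h1 : (∫ x, f x) / (100 * (b - a) ^ 2) ≤ ∫ x, dPk y (z - x) * f x := by
    rw [← integral_div]
    refine integral_mono (hfi.div_const _) hi (fun x => ?_)
    simp only
    by_cases hx : x ∈ Ioo a b
    · have h2 := dPk_lower (ℓ := b - a) (y := y) (X := z - x) hℓ hy.1 hy.2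
        (by linarith [hz.1, hx.2]) (by linarith [hz.2, hx.1])
      have h3 := hf0 x
      calc f x / (100 * (b - a) ^ 2) = 1 / (100 * (b - a) ^ 2) * f x := by ring
        _ ≤ _ := by gcongr
    · rw [hs x hx]; simp
  unfold gradSq
  rw [hd.deriv]
  have h3 : ((∫ x, f x) / (100 * (b - a) ^ 2)) ^ 2 ≤ (∫ x, dPk y (z - x) * f x) ^ 2 := by
    gcongr
  have h4 := sq_nonneg (deriv (fun s => poisson f s y) z)
  linarith

lemma gstar_lower {l a b M : ℝ} (hl : 0 < l) (hl2 : l ≤ 2) (hab : a < b) (hf : AEMeasurable f)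
    (hf0 : ∀ x, 0 ≤ f x) (hM : ∀ x, f x ≤ M) (hs : ∀ x, x ∉ Ioo a b → f x = 0) (x : ℝ) :
    ENNReal.ofReal ((∫ x, f x) / (2400 * (b - a)) *
      ((b - a) / (|x - (a + b) / 2| + (b - a))) ^ (l / 2)) ≤ gstar l f x := by
  have hℓ : 0 < b - a := by linarith
  set ℓ := b - a with hℓd
  set m := ∫ x, f x with hm
  have hm0 : 0 ≤ m := integral_nonneg hf0
  have habs := abs_nonneg (x - (a + b) / 2)
  set ρ := ℓ / (|x - (a + b) / 2| + ℓ) with hρ
  have hρ0 : 0 < ρ := by positivity
  set κ := (ρ ^ l / 144) * (m / (100 * ℓ ^ 2)) ^ 2 with hκ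
  have hκ0 : 0 ≤ κ := by positivity
  have hpt : ∀ z ∈ Ioo (b + ℓ) (b + 2 * ℓ), ∀ y ∈ Ioo (ℓ / 4) (ℓ / 2),
      κ ≤ (y / (|x - z| + y)) ^ l * gradSq f z y := by
    intro z hz y hy
    have hy0 : 0 < y := by linarith [hy.1]
    have h1 := (grad_lower hab hf hf0 hM hs (z := z) (y := y) hz hy).2
    have h2 : ρ / 12 ≤ y / (|x - z| + y) := by
      have h3 : |x - z| ≤ |x - (a + b) / 2| + 5 / 2 * ℓ := by
        have e : x - z = (x - (a + b) / 2) + ((a + b) / 2 - z) := by ring
        rw [e]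
        refine (abs_add_le _ _).trans ?_
        gcongr
        rw [abs_le]
        constructor <;> linarith [hz.1, hz.2]
      rw [hρ, div_div, div_le_div_iff₀ (by positivity) (by have := abs_nonneg (x - z); positivity)]
      have h4 : |x - z| + y ≤ 3 * (|x - (a + b) / 2| + ℓ) := by linarith [hy.2]
      calc ℓ * (|x - z| + y) ≤ ℓ * (3 * (|x - (a + b) / 2| + ℓ)) := by gcongr
        _ = (ℓ / 4) * ((|x - (a + b) / 2| + ℓ) * 12) := by ring
        _ ≤ y * ((|x - (a + b) / 2| + ℓ) * 12) := by gcongr; exact hy.1.le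
    have h5 : ρ ^ l / 144 ≤ (y / (|x - z| + y)) ^ l := by
      calc ρ ^ l / 144 ≤ (ρ / 12) ^ l := by
            rw [Real.div_rpow hρ0.le (by norm_num)]
            have : (12 : ℝ) ^ l ≤ 144 := by
              calc (12 : ℝ) ^ l ≤ (12 : ℝ) ^ (2 : ℝ) :=
                    Real.rpow_le_rpow_of_exponent_le (by norm_num) hl2
                _ = 144 := by norm_num
            gcongr
        _ ≤ _ := Real.rpow_le_rpow (by positivity) h2 hl.le
    rw [hκ]
    exact mul_le_mul h5 h1 (by positivity) (le_trans (by positivity) h5)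
  have hint : ENNReal.ofReal ℓ * (ENNReal.ofReal (ℓ / 4) * ENNReal.ofReal κ) ≤
      ∫⁻ z, ∫⁻ y in Ioi (0 : ℝ), ENNReal.ofReal ((y / (|x - z| + y)) ^ l * gradSq f z y) := by
    calc ENNReal.ofReal ℓ * (ENNReal.ofReal (ℓ / 4) * ENNReal.ofReal κ)
        = ∫⁻ _ in Ioo (b + ℓ) (b + 2 * ℓ), ∫⁻ _ in Ioo (ℓ / 4) (ℓ / 2), ENNReal.ofReal κ := by
          rw [setLIntegral_const, setLIntegral_const, Real.volume_Ioo, Real.volume_Ioo,
            show ℓ / 2 - ℓ / 4 = ℓ / 4 by ring, show b + 2 * ℓ - (b + ℓ) = ℓ by ring]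
          ring
      _ ≤ ∫⁻ z in Ioo (b + ℓ) (b + 2 * ℓ), ∫⁻ y in Ioi (0 : ℝ),
            ENNReal.ofReal ((y / (|x - z| + y)) ^ l * gradSq f z y) := by
          refine setLIntegral_mono' measurableSet_Ioo (fun z hz => ?_)
          calc ∫⁻ _ in Ioo (ℓ / 4) (ℓ / 2), ENNReal.ofReal κ
              ≤ ∫⁻ y in Ioo (ℓ / 4) (ℓ / 2),
                ENNReal.ofReal ((y / (|x - z| + y)) ^ l * gradSq f z y) :=
                setLIntegral_mono' measurableSet_Ioo
                  (fun y hy => ENNReal.ofReal_le_ofReal (hpt z hz y hy))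
            _ ≤ _ := lintegral_mono_set (fun y hy => by
                rw [mem_Ioi]; linarith [hy.1])
      _ ≤ _ := setLIntegral_le_lintegral _ _
  have hsq : ENNReal.ofReal (m / (2400 * ℓ) * ρ ^ (l / 2)) ^ (2 : ℝ) =
      ENNReal.ofReal ℓ * (ENNReal.ofReal (ℓ / 4) * ENNReal.ofReal κ) := by
    rw [← ENNReal.ofReal_mul (by positivity), ← ENNReal.ofReal_mul (by positivity),
      ENNReal.ofReal_rpow_of_nonneg (by positivity) (by norm_num)]
    congr 1
    rw [hκ, Real.mul_rpow (by positivity) (by positivity), ← Real.rpow_mul hρ0.le]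
    have e1 : l / 2 * 2 = l := by ring
    rw [e1]
    have e2 : (m / (2400 * ℓ)) ^ (2 : ℝ) = (m / (2400 * ℓ)) ^ 2 := Real.rpow_two _
    rw [e2]
    field_simp
    ring
  unfold gstar
  calc ENNReal.ofReal (m / (2400 * ℓ) * ρ ^ (l / 2))
      = (ENNReal.ofReal (m / (2400 * ℓ) * ρ ^ (l / 2)) ^ (2 : ℝ)) ^ (1 / 2 : ℝ) := by
        rw [← ENNReal.rpow_mul]; norm_num
    _ ≤ _ := by
        rw [hsq]
        exact ENNReal.rpow_le_rpow hint (by norm_num)

lemma nec_main {l p : ℝ} (hl : 0 < l) (hl2 : l ≤ 2) (hp : 0 < p) (hU : IsWeight U) {C : ℝ≥0}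
    (hC : ∀ f : ℝ → ℝ, AEMeasurable f → ∫⁻ x, ENNReal.ofReal (|f x| ^ p * U x) < ∞ →
    ∫⁻ x, gstar l f x ^ p * ENNReal.ofReal (U x) ≤
      C * ∫⁻ x, ENNReal.ofReal (|f x| ^ p * U x)) {a b M : ℝ} (hab : a < b) (hf : AEMeasurable f)
    (hf0 : ∀ x, 0 ≤ f x) (hM : ∀ x, f x ≤ M) (hs : ∀ x, x ∉ Ioo a b → f x = 0) :
    ENNReal.ofReal (((∫ x, f x) / (2400 * (b - a))) ^ p) *
      ∫⁻ x, ENNReal.ofReal (((b - a) / (|x - (a + b) / 2| + (b - a))) ^ (l * p / 2)) *
        ENNReal.ofReal (U x) ≤ C * ∫⁻ x, ENNReal.ofReal (|f x| ^ p * U x) := by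
  have hℓ : 0 < b - a := by linarith
  have hm0 : 0 ≤ ∫ x, f x := integral_nonneg hf0
  have hfin : ∫⁻ x, ENNReal.ofReal (|f x| ^ p * U x) < ∞ := by
    have h1 : IntegrableOn U (Icc a b) := hU.2.integrableOn_isCompact isCompact_Icc
    have h2 : IntegrableOn U (Ioo a b) := h1.mono_set Ioo_subset_Icc_self
    have h3 := h2.2
    rw [hasFiniteIntegral_iff_ofReal (Filter.Eventually.of_forall hU.1)] at h3
    calc ∫⁻ x, ENNReal.ofReal (|f x| ^ p * U x)
        ≤ ∫⁻ x, (Ioo a b).indicator (fun x => ENNReal.ofReal (|M| ^ p) * ENNReal.ofReal (U x)) x := by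
          refine lintegral_mono (fun x => ?_)
          by_cases hx : x ∈ Ioo a b
          · rw [indicator_of_mem hx, ← ENNReal.ofReal_mul (by positivity)]
            apply ENNReal.ofReal_le_ofReal
            have := hU.1 x
            have h4 : |f x| ≤ |M| := by
              rw [abs_of_nonneg (hf0 x)]
              exact (hM x).trans (le_abs_self _)
            gcongr
          · rw [indicator_of_notMem hx, hs x hx, abs_zero, Real.zero_rpow hp.ne']
            simp
      _ = ENNReal.ofReal (|M| ^ p) * ∫⁻ x in Ioo a b, ENNReal.ofReal (U x) := by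
          rw [lintegral_indicator measurableSet_Ioo, lintegral_const_mul' _ _ ENNReal.ofReal_ne_top]
      _ < ∞ := ENNReal.mul_lt_top ENNReal.ofReal_lt_top h3
  refine le_trans ?_ (hC f hf hfin)
  rw [← lintegral_const_mul' _ _ ENNReal.ofReal_ne_top]
  refine lintegral_mono (fun x => ?_)
  rw [← mul_assoc, ← ENNReal.ofReal_mul (by positivity)]
  gcongr
  have h1 := gstar_lower hl hl2 hab hf hf0 hM hs x
  refine le_trans (le_of_eq ?_) (ENNReal.rpow_le_rpow h1 hp.le)
  have habs := abs_nonneg (x - (a + b) / 2)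
  rw [ENNReal.ofReal_rpow_of_nonneg (by positivity) hp.le, Real.mul_rpow (by positivity)
    (by positivity), ← Real.rpow_mul (by positivity)]
  congr 3
  ring

/-- necessity of the `B` condition -/
theorem nec_B {l p : ℝ} (hl : 0 < l) (hl2 : l ≤ 2) (hp : 0 < p) (hU : IsWeight U)
    (hG : GStarBound l p U) : InB (l * p / 2) U := by
  obtain ⟨C, hC⟩ := hG
  set r := l * p / 2 with hr
  have hr0 : 0 < r := by positivity
  refine ⟨(2 : ℝ) ^ r * (2400 ^ p * C), fun a b hab => ?_⟩
  have hℓ : 0 < b - a := by linarith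
  set f : ℝ → ℝ := (Ioo a b).indicator (fun _ => (1 : ℝ)) with hf
  have hfm : Measurable f := measurable_const.indicator measurableSet_Ioo
  have h1 := nec_main hl hl2 hp hU hC (f := f) (M := 1) hab hfm.aemeasurable
    (fun x => by simp only [hf]; exact indicator_nonneg (fun _ _ => by norm_num) x)
    (fun x => by simp only [hf]; exact indicator_le_self' (fun _ _ => by norm_num) x |>.trans le_rfl)
    (fun x hx => by simp only [hf]; exact indicator_of_notMem hx _)
  have hint : ∫ x, f x = b - a := by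
    rw [hf, integral_indicator measurableSet_Ioo]
    simp [hab.le]
  have e1 : (∫ x, f x) / (2400 * (b - a)) = 1 / 2400 := by
    rw [hint]; field_simp
  have e2 : ∫⁻ x, ENNReal.ofReal (|f x| ^ p * U x) = ∫⁻ x in Ioo a b, ENNReal.ofReal (U x) := by
    rw [← lintegral_indicator measurableSet_Ioo]
    refine lintegral_congr (fun x => ?_)
    by_cases hx : x ∈ Ioo a b
    · simp [hf, hx]
    · simp [hf, hx, Real.zero_rpow hp.ne']
  rw [e1, e2] at h1
  set R := ∫⁻ x in Ioo a b, ENNReal.ofReal (U x) with hR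
  set L := ∫⁻ x, ENNReal.ofReal (((b - a) / (|x - (a + b) / 2| + (b - a))) ^ (l * p / 2)) *
        ENNReal.ofReal (U x) with hL
  have h2 : L ≤ ENNReal.ofReal (2400 ^ p) * (C * R) := by
    calc L = ENNReal.ofReal (2400 ^ p) * (ENNReal.ofReal ((1 / 2400) ^ p) * L) := by
          rw [← mul_assoc, ← ENNReal.ofReal_mul (by positivity), ← Real.mul_rpow (by norm_num)
            (by norm_num)]
          norm_num
      _ ≤ _ := by gcongr
  calc ∫⁻ x, ENNReal.ofReal ((b - a) ^ (r - 1) * U x / ((b - a) ^ r + |x - (a + b) / 2| ^ r))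
      ≤ ∫⁻ x, ENNReal.ofReal (2 ^ r / (b - a)) *
        (ENNReal.ofReal (((b - a) / (|x - (a + b) / 2| + (b - a))) ^ (l * p / 2)) *
          ENNReal.ofReal (U x)) := by
        refine lintegral_mono (fun x => ?_)
        have habs := abs_nonneg (x - (a + b) / 2)
        have hUx := hU.1 x
        rw [← ENNReal.ofReal_mul (by positivity), ← ENNReal.ofReal_mul (by positivity)]
        apply ENNReal.ofReal_le_ofReal
        rw [← hr]
        set d := |x - (a + b) / 2| with hd
        set ℓ := b - a with hℓd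
        have h3 : (d + ℓ) ^ r ≤ 2 ^ r * (ℓ ^ r + d ^ r) := by
          have h4 : d + ℓ ≤ 2 * max ℓ d := by
            have := le_max_left ℓ d
            have := le_max_right ℓ d
            linarith
          calc (d + ℓ) ^ r ≤ (2 * max ℓ d) ^ r := Real.rpow_le_rpow (by positivity) h4 hr0.le
            _ = 2 ^ r * (max ℓ d) ^ r := Real.mul_rpow (by norm_num) (by positivity)
            _ ≤ 2 ^ r * (ℓ ^ r + d ^ r) := by
                gcongr
                have p1 : 0 ≤ ℓ ^ r := by positivity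
                have p2 : 0 ≤ d ^ r := by positivity
                rcases le_total ℓ d with h | h
                · rw [max_eq_right h]; linarith
                · rw [max_eq_left h]; linarith
        have e3 : ℓ ^ (r - 1) = ℓ ^ r / ℓ := Real.rpow_sub_one hℓ.ne' r
        rw [e3, Real.div_rpow hℓ.le (by positivity)]
        have h5 : 1 / (ℓ ^ r + d ^ r) ≤ 2 ^ r / (d + ℓ) ^ r := by
          rw [div_le_div_iff₀ (by positivity) (by positivity)]
          linarith
        calc ℓ ^ r / ℓ * U x / (ℓ ^ r + d ^ r) = (ℓ ^ r / ℓ * U x) * (1 / (ℓ ^ r + d ^ r)) := by ring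
          _ ≤ (ℓ ^ r / ℓ * U x) * (2 ^ r / (d + ℓ) ^ r) := by gcongr
          _ = _ := by ring
    _ = ENNReal.ofReal (2 ^ r / (b - a)) * L := lintegral_const_mul' _ _ ENNReal.ofReal_ne_top
    _ ≤ ENNReal.ofReal (2 ^ r / (b - a)) * (ENNReal.ofReal (2400 ^ p) * (C * R)) := by gcongr
    _ = _ := by
        rw [← ENNReal.ofReal_coe_nnreal, ← mul_assoc, ← mul_assoc,
          ← ENNReal.ofReal_mul (by positivity), ← ENNReal.ofReal_mul (by positivity)]
        congr 2
        ring

/-- necessity of the `A_p` condition -/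
theorem nec_A {l p : ℝ} (hl : 0 < l) (hl2 : l ≤ 2) (hp : 1 < p) (hp2 : p < 2) (hU : IsWeight U)
    (hG : GStarBound l p U) : InA p U := by
  obtain ⟨C, hC⟩ := hG
  have hp0 : 0 < p := by linarith
  have hp1 : 0 < p - 1 := by linarith
  set C' : ℝ := 9 / 4 * 2400 ^ p * C with hC'
  have hC'0 : 0 ≤ C' := by positivity
  refine ⟨C', fun a b hab => ?_⟩
  have hℓ : 0 < b - a := by linarith
  set ℓ := b - a with hℓd
  set S : ℝ → ℝ≥0∞ := fun x => (ENNReal.ofReal (U x)) ^ (-(1 / (p - 1))) with hS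
  have hUm : AEMeasurable U := hU.2.aestronglyMeasurable.aemeasurable
  have hSm : AEMeasurable S := (hUm.ennreal_ofReal).pow_const _
  set R := ∫⁻ x in Ioo a b, ENNReal.ofReal (U x) with hR
  have hSU : ∀ x, S x ^ (p - 1) * ENNReal.ofReal (U x) ≤ 1 := by
    intro x
    simp only [hS]
    rw [← ENNReal.rpow_mul]
    have e : -(1 / (p - 1)) * (p - 1) = -1 := by field_simp
    rw [e, ENNReal.rpow_neg_one]
    exact ENNReal.inv_mul_le_one _
  -- truncated bound
  have htr : ∀ n : ℕ, R * (∫⁻ x in Ioo a b, min (S x) n) ^ (p - 1) ≤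
      ENNReal.ofReal (C' * ℓ ^ p) := by
    intro n
    set f : ℝ → ℝ := (Ioo a b).indicator (fun x => (min (S x) n).toReal) with hf
    have hmt : ∀ x, min (S x) (n : ℝ≥0∞) ≠ ∞ := fun x =>
      ne_top_of_le_ne_top (ENNReal.natCast_ne_top n) (min_le_right _ _)
    have hminm : AEMeasurable (fun x => min (S x) (n : ℝ≥0∞)) := hSm.min aemeasurable_const
    have hfm : AEMeasurable f := (hminm.ennreal_toReal).indicator measurableSet_Ioo
    have hf0 : ∀ x, 0 ≤ f x := fun x => indicator_nonneg (fun _ _ => ENNReal.toReal_nonneg) x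
    have hfM : ∀ x, f x ≤ n := by
      intro x
      by_cases hx : x ∈ Ioo a b
      · simp only [hf]
        rw [indicator_of_mem hx]
        have := ENNReal.toReal_mono (ENNReal.natCast_ne_top n) (min_le_right (S x) (n : ℝ≥0∞))
        simpa using this
      · simp only [hf]
        rw [indicator_of_notMem hx]
        positivity
    have hfs : ∀ x, x ∉ Ioo a b → f x = 0 := fun x hx => indicator_of_notMem hx _
    have h1 := nec_main hl hl2 hp0 hU hC (f := f) (M := n) hab hfm hf0 hfM hfs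
    have hfi := (grad_lower (f := f) (M := n) hab hfm hf0 hfM hfs
      (z := b + 3 / 2 * (b - a)) (y := 3 / 8 * (b - a))
      ⟨by linarith, by linarith⟩ ⟨by linarith, by linarith⟩).1
    set m := ∫ x, f x with hm
    have hm0 : 0 ≤ m := integral_nonneg hf0
    have hmE : ENNReal.ofReal m = ∫⁻ x in Ioo a b, min (S x) n := by
      rw [hm, ofReal_integral_eq_lintegral_ofReal hfi (Eventually.of_forall hf0),
        ← lintegral_indicator measurableSet_Ioo]
      refine lintegral_congr (fun x => ?_)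
      by_cases hx : x ∈ Ioo a b
      · simp only [hf]
        rw [indicator_of_mem hx, indicator_of_mem hx, ENNReal.ofReal_toReal (hmt x)]
      · simp only [hf]
        rw [indicator_of_notMem hx, indicator_of_notMem hx, ENNReal.ofReal_zero]
    rw [← hmE]
    rcases hm0.eq_or_lt with h0 | hmpos
    · rw [← h0, ENNReal.ofReal_zero, ENNReal.zero_rpow_of_pos hp1, mul_zero]
      exact zero_le
    · have hup : ∫⁻ x, ENNReal.ofReal (|f x| ^ p * U x) ≤ ENNReal.ofReal m := by
        rw [hmE, ← lintegral_indicator measurableSet_Ioo]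
        refine lintegral_mono (fun x => ?_)
        by_cases hx : x ∈ Ioo a b
        · rw [indicator_of_mem hx]
          have e1 : ENNReal.ofReal (|f x| ^ p * U x) =
              (min (S x) n) ^ p * ENNReal.ofReal (U x) := by
            rw [ENNReal.ofReal_mul (by positivity), abs_of_nonneg (hf0 x),
              ← ENNReal.ofReal_rpow_of_nonneg (hf0 x) hp0.le]
            congr 2
            simp only [hf]
            rw [indicator_of_mem hx, ENNReal.ofReal_toReal (hmt x)]
          rw [e1]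
          have e2 : (min (S x) (n : ℝ≥0∞)) ^ p = min (S x) n * (min (S x) n) ^ (p - 1) := by
            have := ENNReal.rpow_add_of_nonneg (x := min (S x) (n : ℝ≥0∞)) 1 (p - 1)
              (by norm_num) hp1.le
            rw [ENNReal.rpow_one] at this
            rw [← this]; congr 1; ring
          rw [e2, mul_assoc]
          calc min (S x) (n : ℝ≥0∞) * ((min (S x) n) ^ (p - 1) * ENNReal.ofReal (U x))
              ≤ min (S x) (n : ℝ≥0∞) * (S x ^ (p - 1) * ENNReal.ofReal (U x)) := by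
                gcongr
                exact min_le_left _ _
            _ ≤ min (S x) (n : ℝ≥0∞) * 1 := by gcongr; exact hSU x
            _ = _ := mul_one _
        · rw [indicator_of_notMem hx, hfs x hx, abs_zero, Real.zero_rpow hp0.ne']
          simp
      have hlow : ENNReal.ofReal (4 / 9) * R ≤
          ∫⁻ x, ENNReal.ofReal ((ℓ / (|x - (a + b) / 2| + ℓ)) ^ (l * p / 2)) *
            ENNReal.ofReal (U x) := by
        rw [hR, ← lintegral_const_mul' _ _ ENNReal.ofReal_ne_top,
          ← lintegral_indicator measurableSet_Ioo]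
        refine lintegral_mono (fun x => ?_)
        by_cases hx : x ∈ Ioo a b
        · rw [indicator_of_mem hx]
          gcongr
          have h2 : |x - (a + b) / 2| ≤ ℓ / 2 := by
            rw [abs_le]; constructor <;> linarith [hx.1, hx.2]
          have h3 : (2 / 3 : ℝ) ≤ ℓ / (|x - (a + b) / 2| + ℓ) := by
            rw [div_le_div_iff₀ (by norm_num) (by positivity)]
            linarith
          have h4 : l * p / 2 ≤ 2 := by nlinarith
          calc (4 / 9 : ℝ) = (2 / 3 : ℝ) ^ (2 : ℝ) := by norm_num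
            _ ≤ (2 / 3 : ℝ) ^ (l * p / 2) :=
                Real.rpow_le_rpow_of_exponent_ge (by norm_num) (by norm_num) h4
            _ ≤ _ := Real.rpow_le_rpow (by norm_num) h3 (by positivity)
        · rw [indicator_of_notMem hx]
          exact zero_le
      have h2 : ENNReal.ofReal ((m / (2400 * ℓ)) ^ p) * (ENNReal.ofReal (4 / 9) * R) ≤
          C * ENNReal.ofReal m := by
        calc _ ≤ _ := by gcongr
          _ ≤ _ := h1
          _ ≤ _ := by gcongr
      have hm1 : ENNReal.ofReal m ≠ 0 := by simpa using hmpos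
      have hmt' : ENNReal.ofReal m ≠ ∞ := ENNReal.ofReal_ne_top
      -- multiply and divide
      have h3 : R * ENNReal.ofReal m ^ (p - 1) * ENNReal.ofReal m ≤
          ENNReal.ofReal (C' * ℓ ^ p) * ENNReal.ofReal m := by
        have e4 : R * ENNReal.ofReal m ^ (p - 1) * ENNReal.ofReal m =
            ENNReal.ofReal (9 / 4 * (2400 * ℓ) ^ p) *
              (ENNReal.ofReal ((m / (2400 * ℓ)) ^ p) * (ENNReal.ofReal (4 / 9) * R)) := by
          rw [ENNReal.ofReal_rpow_of_pos hmpos, mul_assoc, ← ENNReal.ofReal_mul (by positivity)]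
          calc R * ENNReal.ofReal (m ^ (p - 1) * m)
              = ENNReal.ofReal (9 / 4 * (2400 * ℓ) ^ p * ((m / (2400 * ℓ)) ^ p * (4 / 9))) * R := by
                rw [mul_comm]
                congr 2
                rw [Real.div_rpow hm0 (by positivity), Real.rpow_sub_one hmpos.ne']
                have : (2400 * ℓ) ^ p ≠ 0 := by positivity
                field_simp
            _ = _ := by
                rw [ENNReal.ofReal_mul (by positivity),
                  ENNReal.ofReal_mul (p := (m / (2400 * ℓ)) ^ p) (by positivity)]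
                ring
        rw [e4]
        calc ENNReal.ofReal (9 / 4 * (2400 * ℓ) ^ p) *
              (ENNReal.ofReal ((m / (2400 * ℓ)) ^ p) * (ENNReal.ofReal (4 / 9) * R))
            ≤ ENNReal.ofReal (9 / 4 * (2400 * ℓ) ^ p) * (C * ENNReal.ofReal m) := by gcongr
          _ = _ := by
              rw [← ENNReal.ofReal_coe_nnreal, ← mul_assoc, ← ENNReal.ofReal_mul (by positivity)]
              congr 2
              rw [hC', Real.mul_rpow (by norm_num) hℓ.le]
              ring
      exact (ENNReal.mul_le_mul_iff_left hm1 hmt').1 h3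
  -- passage to the limit
  have hlim : Tendsto (fun n : ℕ => ∫⁻ x in Ioo a b, min (S x) n) atTop
      (𝓝 (∫⁻ x in Ioo a b, S x)) := by
    refine lintegral_tendsto_of_tendsto_of_monotone
      (fun n => (hSm.min aemeasurable_const).restrict) ?_ ?_
    · refine Eventually.of_forall (fun x => ?_)
      intro i j hij
      exact min_le_min le_rfl (by exact_mod_cast hij)
    · refine Eventually.of_forall (fun x => ?_)
      have h1 : Tendsto (fun n : ℕ => (n : ℝ≥0∞)) atTop (𝓝 ∞) := ENNReal.tendsto_nat_nhds_top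
      have h2 := (tendsto_const_nhds (x := S x)).min h1
      rwa [min_eq_left le_top] at h2
  have hfinal : R * (∫⁻ x in Ioo a b, S x) ^ (p - 1) ≤ ENNReal.ofReal (C' * ℓ ^ p) := by
    have h1 : Tendsto (fun n : ℕ => R * (∫⁻ x in Ioo a b, min (S x) n) ^ (p - 1)) atTop
        (𝓝 (R * (∫⁻ x in Ioo a b, S x) ^ (p - 1))) := by
      have hRt : R ≠ ∞ := by
        have h1 : IntegrableOn U (Icc a b) := hU.2.integrableOn_isCompact isCompact_Icc
        have h2 : IntegrableOn U (Ioo a b) := h1.mono_set Ioo_subset_Icc_self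
        have h3 := h2.2
        rw [hasFiniteIntegral_iff_ofReal (Filter.Eventually.of_forall hU.1)] at h3
        exact h3.ne
      refine ENNReal.Tendsto.const_mul ?_ (Or.inr hRt)
      exact (ENNReal.continuous_rpow_const.tendsto _).comp hlim
    exact le_of_tendsto' h1 htr
  have hne0 : ENNReal.ofReal ℓ ≠ 0 := by simpa using hℓ
  have hnt : ENNReal.ofReal ℓ ≠ ∞ := ENNReal.ofReal_ne_top
  have hsplit : R / ENNReal.ofReal ℓ * ((∫⁻ x in Ioo a b, S x) / ENNReal.ofReal ℓ) ^ (p - 1) =
      (R * (∫⁻ x in Ioo a b, S x) ^ (p - 1)) / ENNReal.ofReal ℓ ^ p := by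
    have e1 : ENNReal.ofReal ℓ ^ p = ENNReal.ofReal ℓ * ENNReal.ofReal ℓ ^ (p - 1) := by
      have := ENNReal.rpow_add_of_nonneg (x := ENNReal.ofReal ℓ) 1 (p - 1) (by norm_num) hp1.le
      rw [ENNReal.rpow_one] at this
      rw [← this]; congr 1; ring
    rw [e1, ENNReal.div_rpow_of_nonneg _ _ hp1.le, div_eq_mul_inv, div_eq_mul_inv, div_eq_mul_inv,
      ENNReal.mul_inv (Or.inl hne0) (Or.inl hnt)]
    ring
  change R / ENNReal.ofReal ℓ * ((∫⁻ x in Ioo a b, S x) / ENNReal.ofReal ℓ) ^ (p - 1) ≤ _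
  rw [hsplit]
  apply ENNReal.div_le_of_le_mul
  rw [ENNReal.ofReal_rpow_of_pos hℓ, ← ENNReal.ofReal_mul hC'0]
  exact hfinal

end Pool.Agent.GLam
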