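import Mathlib

open MeasureTheory Set ENNReal

namespace Pool.Agent.GLam.OpenEnded

/-- A weight on the line: nonnegative and locally integrable. -/
def IsWeight (U : ℝ → ℝ) : Prop := (∀ x, 0 ≤ U x) ∧ LocallyIntegrable U

/-- The class `B_r`:  for every interval `I = (a,b)` with centre `x_I = (a+b)/2`,
`∫_ℝ |I|^{r-1} U(x) / (|I|^r + |x-x_I|^r) dx ≤ (C/|I|) ∫_I U`. -/
def InB (r : ℝ) (U : ℝ → ℝ) : Prop :=
  ∃ C : ℝ, ∀ a b : ℝ, a < b →
    ∫⁻ x, ENNReal.ofReal ((b - a) ^ (r - 1) * U x / ((b - a) ^ r + |x - (a + b) / 2| ^ r)) ≤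
      ENNReal.ofReal (C / (b - a)) * ∫⁻ x in Ioo a b, ENNReal.ofReal (U x)

/-- The Muckenhoupt class `A_r`: for every interval `I = (a,b)`,
`(1/|I| ∫_I U) (1/|I| ∫_I U^{-1/(r-1)})^{r-1} ≤ C`
(`U^{-1/(r-1)}` is `+∞` where `U = 0`). -/
def InA (r : ℝ) (U : ℝ → ℝ) : Prop :=
  ∃ C : ℝ, ∀ a b : ℝ, a < b →
    ((∫⁻ x in Ioo a b, ENNReal.ofReal (U x)) / ENNReal.ofReal (b - a)) *
      ((∫⁻ x in Ioo a b, (ENNReal.ofReal (U x)) ^ (-(1 / (r - 1)))) / ENNReal.ofReal (b - a)) ^
        (r - 1) ≤ ENNReal.ofReal C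

/-- mass of the concentric interval of half-length `2^k h` -/
noncomputable def mass (U : ℝ → ℝ) (c h : ℝ) (k : ℕ) : ℝ≥0∞ :=
  ∫⁻ x in Ioo (c - 2 ^ k * h) (c + 2 ^ k * h), ENNReal.ofReal (U x)

lemma real_growth (m : ℕ → ℝ) (hm : ∀ k, 0 ≤ m k) (t : ℝ) (ht : 0 < t) (D : ℝ) (hD : 1 < D)
    (h : ∀ j n, ∑ k ∈ Finset.range n, t ^ k * m (j + k) ≤ D * m j) (j : ℕ) :
    t ^ j * m j ≤ D * (1 - 1 / D) ^ j * m 0 := by
  have hs : ∀ j, Summable (fun k => t ^ k * m (j + k)) := fun j =>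
    summable_of_sum_range_le (fun k => mul_nonneg (pow_nonneg ht.le _) (hm _)) (h j)
  set s : ℕ → ℝ := fun j => ∑' k, t ^ k * m (j + k) with hsdef
  have hs_le : ∀ j, s j ≤ D * m j := fun j => (hs j).tsum_le_of_sum_range_le (h j)
  have hs_rec : ∀ j, s j = m j + t * s (j + 1) := by
    intro j
    have := (hs j).tsum_eq_zero_add
    simp only [hsdef]
    rw [this, ← tsum_mul_left]
    simp only [pow_zero, one_mul, add_zero]
    congr 1
    apply tsum_congr
    intro k
    rw [pow_succ, show j + (k + 1) = j + 1 + k by ring]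
    ring
  have hs_nn : ∀ j, 0 ≤ s j := fun j => tsum_nonneg (fun k => mul_nonneg (pow_nonneg ht.le _) (hm _))
  have hstep : ∀ j, t * s (j + 1) ≤ (1 - 1 / D) * s j := by
    intro j
    have h1 := hs_rec j
    have h2 := hs_le j
    have h3 : s j / D ≤ m j := by
      rw [div_le_iff₀ (by linarith)]; linarith
    have : (1 - 1 / D) * s j = s j - s j / D := by ring
    linarith
  have hθ : 0 ≤ 1 - 1 / D := by
    rw [sub_nonneg, div_le_one (by linarith)]; linarith
  have hind : ∀ j, t ^ j * s j ≤ (1 - 1 / D) ^ j * s 0 := by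
    intro j
    induction j with
    | zero => simp
    | succ j ih =>
      calc t ^ (j + 1) * s (j + 1) = t ^ j * (t * s (j + 1)) := by ring
        _ ≤ t ^ j * ((1 - 1 / D) * s j) := by
            exact mul_le_mul_of_nonneg_left (hstep j) (pow_nonneg ht.le _)
        _ = (1 - 1 / D) * (t ^ j * s j) := by ring
        _ ≤ (1 - 1 / D) * ((1 - 1 / D) ^ j * s 0) := mul_le_mul_of_nonneg_left ih hθ
        _ = (1 - 1 / D) ^ (j + 1) * s 0 := by ring
  have hms : m j ≤ s j := by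
    rw [hs_rec j]
    have := mul_nonneg ht.le (hs_nn (j + 1))
    linarith
  calc t ^ j * m j ≤ t ^ j * s j := mul_le_mul_of_nonneg_left hms (pow_nonneg ht.le _)
    _ ≤ (1 - 1 / D) ^ j * s 0 := hind j
    _ ≤ (1 - 1 / D) ^ j * (D * m 0) := mul_le_mul_of_nonneg_left (hs_le 0) (pow_nonneg hθ _)
    _ = D * (1 - 1 / D) ^ j * m 0 := by ring

lemma mass_lt_top {U : ℝ → ℝ} (hU : IsWeight U) (c h : ℝ) (k : ℕ) : mass U c h k < ∞ := by
  have h1 : IntegrableOn U (Icc (c - 2 ^ k * h) (c + 2 ^ k * h)) :=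
    hU.2.integrableOn_isCompact isCompact_Icc
  have h2 : IntegrableOn U (Ioo (c - 2 ^ k * h) (c + 2 ^ k * h)) := h1.mono_set Ioo_subset_Icc_self
  have h3 := h2.2
  rw [hasFiniteIntegral_iff_ofReal (Filter.Eventually.of_forall hU.1)] at h3
  exact h3


/-- the normalised kernel of the class `B_r` -/
noncomputable def w (r c h x : ℝ) : ℝ := (2 * h) ^ r / ((2 * h) ^ r + |x - c| ^ r)

lemma w_nonneg (r c h x : ℝ) (hh : 0 < h) : 0 ≤ w r c h x := by
  unfold w; positivity

lemma measurable_w (r c h : ℝ) : Measurable (w r c h) := by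
  unfold w; fun_prop

/-- `B_r` in terms of the kernel `w`. -/
lemma inB_iff (r : ℝ) (U : ℝ → ℝ) :
    InB r U ↔ ∃ C : ℝ, 0 ≤ C ∧ ∀ c h : ℝ, 0 < h →
      ∫⁻ x, ENNReal.ofReal (w r c h x * U x) ≤ ENNReal.ofReal C * mass U c h 0 := by
  have key : ∀ c h x : ℝ, 0 < h → w r c h x * U x =
      (2 * h) * ((2 * h) ^ (r - 1) * U x / ((2 * h) ^ r + |x - c| ^ r)) := by
    intro c h x hh
    unfold w
    have : (2 * h) ^ r = (2 * h) * (2 * h) ^ (r - 1) := by
      rw [Real.rpow_sub_one (by positivity)]; field_simp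
    rw [div_mul_eq_mul_div, mul_div_assoc']
    congr 1
    rw [this]; ring
  constructor
  · rintro ⟨C, hC⟩
    refine ⟨max C 0, le_max_right _ _, fun c h hh => ?_⟩
    have h1 := hC (c - h) (c + h) (by linarith)
    have e1 : c + h - (c - h) = 2 * h := by ring
    have e2 : (c - h + (c + h)) / 2 = c := by ring
    rw [e1, e2] at h1
    have h2 : ∫⁻ x, ENNReal.ofReal (w r c h x * U x) = ENNReal.ofReal (2 * h) *
        ∫⁻ x, ENNReal.ofReal ((2 * h) ^ (r - 1) * U x / ((2 * h) ^ r + |x - c| ^ r)) := by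
      rw [← lintegral_const_mul' _ _ ENNReal.ofReal_ne_top]
      refine lintegral_congr (fun x => ?_)
      rw [key c h x hh, ENNReal.ofReal_mul (by positivity)]
    rw [h2]
    calc _ ≤ ENNReal.ofReal (2 * h) * (ENNReal.ofReal (C / (2 * h)) *
          ∫⁻ x in Ioo (c - h) (c + h), ENNReal.ofReal (U x)) := by gcongr
      _ = ENNReal.ofReal C * mass U c h 0 := by
          rw [← mul_assoc, ← ENNReal.ofReal_mul (by positivity)]
          unfold mass
          rw [pow_zero, one_mul, mul_div_cancel₀ _ (by positivity)]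
      _ ≤ ENNReal.ofReal (max C 0) * mass U c h 0 := by
          gcongr; exact le_max_left _ _
  · rintro ⟨C, hC0, hC⟩
    refine ⟨C, fun a b hab => ?_⟩
    have h1 := hC ((a + b) / 2) ((b - a) / 2) (by linarith)
    have hpos : 0 < b - a := by linarith
    have e1 : 2 * ((b - a) / 2) = b - a := by ring
    have e3 : mass U ((a + b) / 2) ((b - a) / 2) 0 = ∫⁻ x in Ioo a b, ENNReal.ofReal (U x) := by
      unfold mass
      rw [pow_zero, one_mul]
      congr 2
      congr 1 <;> ring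
    have h2 : ∫⁻ x, ENNReal.ofReal (w r ((a + b) / 2) ((b - a) / 2) x * U x) =
        ENNReal.ofReal (b - a) *
        ∫⁻ x, ENNReal.ofReal ((b - a) ^ (r - 1) * U x / ((b - a) ^ r + |x - (a + b) / 2| ^ r)) := by
      rw [← lintegral_const_mul' _ _ ENNReal.ofReal_ne_top]
      refine lintegral_congr (fun x => ?_)
      rw [key _ _ x (by linarith), e1, ENNReal.ofReal_mul (by positivity)]
    rw [h2, e3] at h1
    have h3 : ENNReal.ofReal (C / (b - a)) = ENNReal.ofReal C / ENNReal.ofReal (b - a) :=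
      ENNReal.ofReal_div_of_pos hpos
    have hne0 : ENNReal.ofReal (b - a) ≠ 0 := by simpa using hpos
    have hnt : ENNReal.ofReal (b - a) ≠ ∞ := ENNReal.ofReal_ne_top
    rw [h3, ENNReal.mul_div_right_comm.symm, ENNReal.le_div_iff_mul_le (Or.inl hne0) (Or.inl hnt),
      mul_comm]
    exact h1

lemma geom_tail (t : ℝ) (ht : 0 < t) (ht1 : t < 1) (j n : ℕ) :
    ∑ k ∈ Finset.range n, (if j ≤ k then t ^ k else 0) ≤ t ^ j / (1 - t) := by
  have h : ∀ n : ℕ, ∑ k ∈ Finset.range n, (if j ≤ k then t ^ k else 0) ≤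
      (t ^ j - t ^ (max n j)) / (1 - t) := by
    intro n
    induction n with
    | zero => simp
    | succ n ih =>
      rw [Finset.sum_range_succ]
      by_cases hjn : j ≤ n
      · rw [if_pos hjn]
        rw [max_eq_left hjn] at ih
        rw [max_eq_left (by omega : j ≤ n + 1)]
        have : (t ^ j - t ^ (n + 1)) / (1 - t) = (t ^ j - t ^ n) / (1 - t) + t ^ n := by
          field_simp [(by linarith : (1 - t) ≠ 0)]
          ring
        linarith
      · rw [if_neg hjn]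
        rw [max_eq_right (by omega : n ≤ j)] at ih
        rw [max_eq_right (by omega : n + 1 ≤ j)]
        linarith
  refine (h n).trans ?_
  gcongr
  have := pow_pos ht (max n j)
  linarith

lemma indicator_sum_le (r : ℝ) (hr : 0 < r) (c h x : ℝ) (hh : 0 < h) (n : ℕ) :
    ∑ k ∈ Finset.range n, (if x ∈ Ioo (c - 2 ^ k * h) (c + 2 ^ k * h) then ((2 : ℝ) ^ (-r)) ^ k
      else 0) ≤ 2 / (1 - (2 : ℝ) ^ (-r)) * w r c h x := by
  set t : ℝ := (2 : ℝ) ^ (-r) with ht
  have ht0 : 0 < t := by positivity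
  have ht1 : t < 1 := Real.rpow_lt_one_of_one_lt_of_neg (by norm_num) (by linarith)
  have hmem : ∀ k : ℕ, x ∈ Ioo (c - 2 ^ k * h) (c + 2 ^ k * h) ↔ |x - c| < 2 ^ k * h := by
    intro k
    rw [abs_lt, mem_Ioo]
    constructor <;> rintro ⟨h1, h2⟩ <;> constructor <;> linarith
  have hex : ∃ k : ℕ, |x - c| < 2 ^ k * h := by
    obtain ⟨k, hk⟩ := pow_unbounded_of_one_lt (|x - c| / h) (by norm_num : (1 : ℝ) < 2)
    exact ⟨k, by rwa [div_lt_iff₀ hh] at hk⟩
  classical
  set j := Nat.find hex with hj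
  have hjs : |x - c| < 2 ^ j * h := Nat.find_spec hex
  have hlow : t ^ j / 2 ≤ w r c h x := by
    have h1 : |x - c| ^ r ≤ (2 ^ j * h) ^ r := Real.rpow_le_rpow (abs_nonneg _) hjs.le hr.le
    have h2 : ((2 : ℝ) ^ j * h) ^ r = (t ^ j)⁻¹ * h ^ r := by
      rw [Real.mul_rpow (by positivity) hh.le, ht]
      congr 1
      rw [← Real.rpow_natCast, ← Real.rpow_natCast, ← Real.rpow_mul (by norm_num),
        ← Real.rpow_mul (by norm_num), ← Real.rpow_neg (by norm_num)]
      ring_nf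
    have h3 : h ^ r ≤ (2 * h) ^ r := Real.rpow_le_rpow hh.le (by linarith) hr.le
    have h4 : 0 < (2 * h) ^ r := by positivity
    have h5 : 1 ≤ (t ^ j)⁻¹ := (one_le_inv₀ (by positivity)).2 (pow_le_one₀ ht0.le ht1.le)
    have h6 : (2 * h) ^ r + |x - c| ^ r ≤ 2 * (t ^ j)⁻¹ * (2 * h) ^ r := by
      rw [h2] at h1
      have : (t ^ j)⁻¹ * h ^ r ≤ (t ^ j)⁻¹ * (2 * h) ^ r := by gcongr
      nlinarith
    unfold w
    rw [le_div_iff₀ (by positivity)]
    calc t ^ j / 2 * ((2 * h) ^ r + |x - c| ^ r) ≤ t ^ j / 2 * (2 * (t ^ j)⁻¹ * (2 * h) ^ r) := by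
          gcongr
      _ = (2 * h) ^ r := by field_simp
  calc ∑ k ∈ Finset.range n, (if x ∈ Ioo (c - 2 ^ k * h) (c + 2 ^ k * h) then t ^ k else 0)
      ≤ ∑ k ∈ Finset.range n, (if j ≤ k then t ^ k else 0) := by
        apply Finset.sum_le_sum
        intro k _
        by_cases hk : x ∈ Ioo (c - 2 ^ k * h) (c + 2 ^ k * h)
        · rw [if_pos hk, if_pos (Nat.find_min' hex ((hmem k).1 hk))]
        · rw [if_neg hk]; split_ifs <;> positivity
    _ ≤ t ^ j / (1 - t) := geom_tail t ht0 ht1 j n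
    _ = 2 / (1 - t) * (t ^ j / 2) := by ring
    _ ≤ 2 / (1 - t) * w r c h x := by
        have : 0 < 1 - t := by linarith
        gcongr

lemma w_le_tsum (q : ℝ) (hq : 0 < q) (c h x : ℝ) (hh : 0 < h) :
    ENNReal.ofReal (w q c h x) ≤ ∑' k : ℕ, ENNReal.ofReal ((4 : ℝ) ^ q * ((2 : ℝ) ^ (-q)) ^ k) *
      (Ioo (c - 2 ^ k * h) (c + 2 ^ k * h)).indicator (fun _ => (1 : ℝ≥0∞)) x := by
  have hmem : ∀ k : ℕ, x ∈ Ioo (c - 2 ^ k * h) (c + 2 ^ k * h) ↔ |x - c| < 2 ^ k * h := by
    intro k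
    rw [abs_lt, mem_Ioo]
    constructor <;> rintro ⟨h1, h2⟩ <;> constructor <;> linarith
  have hex : ∃ k : ℕ, |x - c| < 2 ^ k * h := by
    obtain ⟨k, hk⟩ := pow_unbounded_of_one_lt (|x - c| / h) (by norm_num : (1 : ℝ) < 2)
    exact ⟨k, by rwa [div_lt_iff₀ hh] at hk⟩
  classical
  set j := Nat.find hex with hj
  have hjs : |x - c| < 2 ^ j * h := Nat.find_spec hex
  refine le_trans ?_ (ENNReal.le_tsum j)
  rw [indicator_of_mem ((hmem j).2 hjs), mul_one]
  apply ENNReal.ofReal_le_ofReal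
  have h2h : 0 < (2 * h) ^ q := by positivity
  have hx : 0 ≤ |x - c| ^ q := by positivity
  rcases Nat.eq_zero_or_pos j with h0 | hpos
  · rw [h0, pow_zero, mul_one]
    calc w q c h x ≤ 1 := by
          unfold w; rw [div_le_one (by positivity)]; linarith
      _ ≤ (4 : ℝ) ^ q := Real.one_le_rpow (by norm_num) hq.le
  · have hmin : ¬ |x - c| < 2 ^ (j - 1) * h := Nat.find_min hex (by omega)
    push Not at hmin
    have h1 : ((2 : ℝ) ^ (j - 1) * h) ^ q ≤ |x - c| ^ q :=
      Real.rpow_le_rpow (by positivity) hmin hq.le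
    have h2 : ((4 : ℝ) ^ q * ((2 : ℝ) ^ (-q)) ^ j) * ((2 : ℝ) ^ (j - 1) * h) ^ q = (2 * h) ^ q := by
      rw [Real.mul_rpow (by positivity) hh.le, Real.mul_rpow (by norm_num) hh.le]
      obtain ⟨i, hi⟩ : ∃ i, j = i + 1 := ⟨j - 1, by omega⟩
      rw [hi, Nat.add_sub_cancel, show (4 : ℝ) = 2 ^ (2 : ℝ) by norm_num]
      rw [← Real.rpow_natCast, ← Real.rpow_natCast, ← Real.rpow_mul (by norm_num),
        ← Real.rpow_mul (by norm_num), ← Real.rpow_mul (by norm_num)]
      rw [← mul_assoc, ← Real.rpow_add (by norm_num), ← Real.rpow_add (by norm_num)]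
      congr 2
      push_cast
      ring
    unfold w
    rw [div_le_iff₀ (by positivity)]
    calc (2 * h) ^ q = ((4 : ℝ) ^ q * ((2 : ℝ) ^ (-q)) ^ j) * ((2 : ℝ) ^ (j - 1) * h) ^ q := h2.symm
      _ ≤ ((4 : ℝ) ^ q * ((2 : ℝ) ^ (-q)) ^ j) * ((2 * h) ^ q + |x - c| ^ q) := by
          gcongr; linarith


lemma mass_shift (U : ℝ → ℝ) (c h : ℝ) (j k : ℕ) :
    mass U c (2 ^ j * h) k = mass U c h (j + k) := by
  unfold mass
  rw [pow_add]
  congr 2
  congr 1 <;> ring

lemma lintegral_indicator_mass {U : ℝ → ℝ} (c h : ℝ) (k : ℕ) (A : ℝ≥0∞) (hA : A ≠ ∞) :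
    ∫⁻ x, A * (Ioo (c - 2 ^ k * h) (c + 2 ^ k * h)).indicator (fun _ => (1 : ℝ≥0∞)) x *
      ENNReal.ofReal (U x) = A * mass U c h k := by
  unfold mass
  rw [← lintegral_indicator measurableSet_Ioo]
  rw [← lintegral_const_mul' _ _ hA]
  refine lintegral_congr (fun x => ?_)
  by_cases hx : x ∈ Ioo (c - 2 ^ k * h) (c + 2 ^ k * h)
  · rw [indicator_of_mem hx, indicator_of_mem hx, mul_one]
  · rw [indicator_of_notMem hx, indicator_of_notMem hx, mul_zero, zero_mul]

/-- Summed growth bound from `B_r`. -/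
lemma sum_mass_le {r : ℝ} (hr : 0 < r) {U : ℝ → ℝ} (hU : IsWeight U) {C : ℝ} (hC0 : 0 ≤ C)
    (hC : ∀ c h : ℝ, 0 < h →
      ∫⁻ x, ENNReal.ofReal (w r c h x * U x) ≤ ENNReal.ofReal C * mass U c h 0)
    (c h : ℝ) (hh : 0 < h) (n : ℕ) :
    ∑ k ∈ Finset.range n, ((2 : ℝ) ^ (-r)) ^ k * (mass U c h k).toReal ≤
      2 / (1 - (2 : ℝ) ^ (-r)) * C * (mass U c h 0).toReal := by
  set t : ℝ := (2 : ℝ) ^ (-r) with ht
  have ht0 : 0 < t := by positivity
  have ht1 : t < 1 := Real.rpow_lt_one_of_one_lt_of_neg (by norm_num) (by linarith)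
  have hK : 0 ≤ 2 / (1 - t) := by
    have : 0 < 1 - t := by linarith
    positivity
  have h1 : ∑ k ∈ Finset.range n, ENNReal.ofReal (t ^ k) * mass U c h k ≤
      ENNReal.ofReal (2 / (1 - t) * C) * mass U c h 0 := by
    calc ∑ k ∈ Finset.range n, ENNReal.ofReal (t ^ k) * mass U c h k
        = ∫⁻ x, ∑ k ∈ Finset.range n, (Ioo (c - 2 ^ k * h) (c + 2 ^ k * h)).indicator
            (fun x => ENNReal.ofReal (t ^ k) * ENNReal.ofReal (U x)) x := by
          have hint : LocallyIntegrable U := hU.2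
          rw [lintegral_finsetSum' _ (fun k _ => ?_)]
          · refine Finset.sum_congr rfl (fun k _ => ?_)
            rw [lintegral_indicator measurableSet_Ioo, lintegral_const_mul' _ _ ENNReal.ofReal_ne_top]
            rfl
          · exact ((hint.aestronglyMeasurable.aemeasurable.ennreal_ofReal).const_mul _).indicator
              measurableSet_Ioo
      _ ≤ ∫⁻ x, ENNReal.ofReal (2 / (1 - t)) * ENNReal.ofReal (w r c h x * U x) := by
          refine lintegral_mono (fun x => ?_)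
          have h2 := indicator_sum_le r hr c h x hh n
          rw [← ENNReal.ofReal_mul hK]
          have h3 : ∑ k ∈ Finset.range n, (Ioo (c - 2 ^ k * h) (c + 2 ^ k * h)).indicator
            (fun x => ENNReal.ofReal (t ^ k) * ENNReal.ofReal (U x)) x = ENNReal.ofReal
            ((∑ k ∈ Finset.range n, (if x ∈ Ioo (c - 2 ^ k * h) (c + 2 ^ k * h) then t ^ k else 0))
              * U x) := by
            rw [Finset.sum_mul, ENNReal.ofReal_sum_of_nonneg]
            · refine Finset.sum_congr rfl (fun k _ => ?_)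
              by_cases hx : x ∈ Ioo (c - 2 ^ k * h) (c + 2 ^ k * h)
              · rw [indicator_of_mem hx, if_pos hx, ENNReal.ofReal_mul (by positivity)]
              · rw [indicator_of_notMem hx, if_neg hx, zero_mul, ENNReal.ofReal_zero]
            · intro k _
              have := hU.1 x
              split_ifs <;> positivity
          rw [h3]
          apply ENNReal.ofReal_le_ofReal
          rw [← mul_assoc]
          exact mul_le_mul_of_nonneg_right h2 (hU.1 x)
      _ = ENNReal.ofReal (2 / (1 - t)) * ∫⁻ x, ENNReal.ofReal (w r c h x * U x) :=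
          lintegral_const_mul' _ _ ENNReal.ofReal_ne_top
      _ ≤ ENNReal.ofReal (2 / (1 - t)) * (ENNReal.ofReal C * mass U c h 0) := by
          gcongr; exact hC c h hh
      _ = _ := by rw [← mul_assoc, ← ENNReal.ofReal_mul hK]
  have hfin : ENNReal.ofReal (2 / (1 - t) * C) * mass U c h 0 ≠ ∞ :=
    ENNReal.mul_ne_top ENNReal.ofReal_ne_top (mass_lt_top hU c h 0).ne
  have h2 := ENNReal.toReal_mono hfin h1
  rw [ENNReal.toReal_sum (fun k _ => ENNReal.mul_ne_top ENNReal.ofReal_ne_top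
    (mass_lt_top hU c h k).ne), ENNReal.toReal_mul, ENNReal.toReal_ofReal (by positivity)] at h2
  refine le_trans (le_of_eq ?_) h2
  refine Finset.sum_congr rfl (fun k _ => ?_)
  rw [ENNReal.toReal_mul, ENNReal.toReal_ofReal (by positivity)]

/-- Geometric growth with a gain, the quantitative form of the self-improvement. -/
lemma growth {r : ℝ} (hr : 0 < r) {U : ℝ → ℝ} (hU : IsWeight U) (hB : InB r U) :
    ∃ D θ : ℝ, 0 < D ∧ 0 < θ ∧ θ < 1 ∧ ∀ c h : ℝ, 0 < h → ∀ k : ℕ,
      (mass U c h k).toReal ≤ D * (θ * (2 : ℝ) ^ r) ^ k * (mass U c h 0).toReal := by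
  obtain ⟨C, hC0, hC⟩ := (inB_iff r U).1 hB
  set t : ℝ := (2 : ℝ) ^ (-r) with ht
  have ht0 : 0 < t := by positivity
  have ht1 : t < 1 := Real.rpow_lt_one_of_one_lt_of_neg (by norm_num) (by linarith)
  set D : ℝ := max (2 / (1 - t) * C) 2 with hD
  have hD2 : 2 ≤ D := le_max_right _ _
  refine ⟨D, 1 - 1 / D, by linarith, ?_, ?_, fun c h hh k => ?_⟩
  · rw [sub_pos, div_lt_one (by linarith)]; linarith
  · have : 0 < 1 / D := by positivity
    linarith
  · have key := real_growth (fun k => (mass U c h k).toReal) (fun k => ENNReal.toReal_nonneg) t ht0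
      D (by linarith) (fun j n => ?_) k
    · have htk : 0 < t ^ k := by positivity
      have e1 : (2 : ℝ) ^ r = t⁻¹ := by rw [ht, Real.rpow_neg (by norm_num), inv_inv]
      rw [e1, mul_pow, inv_pow]
      calc (mass U c h k).toReal = (t ^ k)⁻¹ * (t ^ k * (mass U c h k).toReal) := by
            field_simp
        _ ≤ (t ^ k)⁻¹ * (D * (1 - 1 / D) ^ k * (mass U c h 0).toReal) := by gcongr
        _ = _ := by ring
    · have h1 := sum_mass_le hr hU hC0 hC c (2 ^ j * h) (by positivity) n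
      simp only [mass_shift, add_zero] at h1
      refine h1.trans ?_
      gcongr
      exact le_max_left _ _


/-- **Open-endedness of `B_r`.** -/
theorem inB_self_improve {r : ℝ} (hr : 1 < r) {U : ℝ → ℝ} (hU : IsWeight U) (hB : InB r U) :
    ∃ q : ℝ, 1 < q ∧ q < r ∧ InB q U := by
  obtain ⟨D, θ, hD, hθ0, hθ1, hgr⟩ := growth (by linarith : 0 < r) hU hB
  -- choose the exponent
  have hcont : Filter.Tendsto (fun ε : ℝ => (2 : ℝ) ^ ε * θ) (nhds 0) (nhds θ) := by
    have h1 : ContinuousAt (fun ε : ℝ => (2 : ℝ) ^ ε * θ) 0 :=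
      (Real.continuousAt_const_rpow (by norm_num)).mul continuousAt_const
    simpa using h1.tendsto
  have hev : ∀ᶠ ε in nhds (0 : ℝ), (2 : ℝ) ^ ε * θ < 1 := hcont.eventually_lt_const hθ1
  obtain ⟨δ, hδ, hball⟩ := Metric.eventually_nhds_iff.1 hev
  set ε : ℝ := min (δ / 2) ((r - 1) / 2) with hε
  have hε0 : 0 < ε := lt_min (by linarith) (by linarith)
  have hε1 : (2 : ℝ) ^ ε * θ < 1 := by
    apply hball
    rw [Real.dist_eq, sub_zero, abs_of_pos hε0]
    have := min_le_left (δ / 2) ((r - 1) / 2)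
    linarith
  have hε2 : ε ≤ (r - 1) / 2 := min_le_right _ _
  refine ⟨r - ε, by linarith, by linarith, ?_⟩
  set q : ℝ := r - ε with hq
  have hq0 : 0 < q := by linarith
  set ρ : ℝ := (2 : ℝ) ^ ε * θ with hρ
  have hρ0 : 0 < ρ := by positivity
  rw [inB_iff]
  refine ⟨(4 : ℝ) ^ q * (D / (1 - ρ)), ?_, fun c h hh => ?_⟩
  · have : 0 < 1 - ρ := by linarith
    positivity
  have hs : ∀ k : ℕ, ((2 : ℝ) ^ (-q)) ^ k * (θ * (2 : ℝ) ^ r) ^ k = ρ ^ k := by
    intro k
    rw [← mul_pow, hρ]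
    congr 1
    have : (2 : ℝ) ^ ε = (2 : ℝ) ^ (-q) * (2 : ℝ) ^ r := by
      rw [← Real.rpow_add (by norm_num)]; congr 1; rw [hq]; ring
    rw [this]; ring
  calc ∫⁻ x, ENNReal.ofReal (w q c h x * U x)
      ≤ ∫⁻ x, ∑' k : ℕ, ENNReal.ofReal ((4 : ℝ) ^ q * ((2 : ℝ) ^ (-q)) ^ k) *
        (Ioo (c - 2 ^ k * h) (c + 2 ^ k * h)).indicator (fun _ => (1 : ℝ≥0∞)) x *
        ENNReal.ofReal (U x) := by
        refine lintegral_mono (fun x => ?_)
        rw [ENNReal.ofReal_mul (w_nonneg q c h x hh), ENNReal.tsum_mul_right]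
        gcongr
        exact w_le_tsum q hq0 c h x hh
    _ = ∑' k : ℕ, ENNReal.ofReal ((4 : ℝ) ^ q * ((2 : ℝ) ^ (-q)) ^ k) * mass U c h k := by
        rw [lintegral_tsum (fun k => ?_)]
        · refine tsum_congr (fun k => ?_)
          exact lintegral_indicator_mass c h k _ ENNReal.ofReal_ne_top
        · have hint : LocallyIntegrable U := hU.2
          exact ((measurable_const.indicator measurableSet_Ioo).const_mul _).aemeasurable.mul
            hint.aestronglyMeasurable.aemeasurable.ennreal_ofReal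
    _ ≤ ∑' k : ℕ, ENNReal.ofReal ((4 : ℝ) ^ q * D) * ENNReal.ofReal (ρ ^ k) * mass U c h 0 := by
        refine ENNReal.tsum_le_tsum (fun k => ?_)
        have hk := hgr c h hh k
        have h0 : 0 ≤ (mass U c h 0).toReal := ENNReal.toReal_nonneg
        rw [← ENNReal.ofReal_toReal (mass_lt_top hU c h k).ne,
          ← ENNReal.ofReal_toReal (mass_lt_top hU c h 0).ne,
          ← ENNReal.ofReal_mul (by positivity), ← ENNReal.ofReal_mul (by positivity),
          ← ENNReal.ofReal_mul (by positivity)]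
        apply ENNReal.ofReal_le_ofReal
        calc (4 : ℝ) ^ q * ((2 : ℝ) ^ (-q)) ^ k * (mass U c h k).toReal
            ≤ (4 : ℝ) ^ q * ((2 : ℝ) ^ (-q)) ^ k *
              (D * (θ * (2 : ℝ) ^ r) ^ k * (mass U c h 0).toReal) := by gcongr
          _ = (4 : ℝ) ^ q * D * (((2 : ℝ) ^ (-q)) ^ k * (θ * (2 : ℝ) ^ r) ^ k) *
              (mass U c h 0).toReal := by ring
          _ = (4 : ℝ) ^ q * D * ρ ^ k * (mass U c h 0).toReal := by rw [hs k]
    _ = ENNReal.ofReal ((4 : ℝ) ^ q * (D / (1 - ρ))) * mass U c h 0 := by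
        rw [ENNReal.tsum_mul_right, ENNReal.tsum_mul_left,
          ← ENNReal.ofReal_tsum_of_nonneg (fun k => by positivity)
            (summable_geometric_of_lt_one hρ0.le hε1),
          tsum_geometric_of_lt_one hρ0.le hε1, ← ENNReal.ofReal_mul (by positivity)]
        congr 2
        ring

/-- `B_q ⊆ B_r` for `q ≤ r`. -/
theorem inB_mono {q r : ℝ} (hq : 0 < q) (hqr : q ≤ r) {U : ℝ → ℝ} (hU : IsWeight U)
    (hB : InB q U) : InB r U := by
  obtain ⟨C, hC0, hC⟩ := (inB_iff q U).1 hB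
  rw [inB_iff]
  refine ⟨2 * C, by linarith, fun c h hh => ?_⟩
  have key : ∀ x, w r c h x ≤ 2 * w q c h x := by
    intro x
    unfold w
    have hx := abs_nonneg (x - c)
    have h2 : 0 < 2 * h := by linarith
    have hA : 0 < (2 * h) ^ r := by positivity
    have hB' : 0 < (2 * h) ^ q := by positivity
    have hX : 0 ≤ |x - c| ^ r := by positivity
    have hY : 0 ≤ |x - c| ^ q := by positivity
    rw [← mul_div_assoc, div_le_div_iff₀ (by positivity) (by positivity)]
    rcases le_total (2 * h) |x - c| with hcase | hcase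
    · -- `|x-c|^q (2h)^r ≤ |x-c|^r (2h)^q`
      have h3 : (2 * h) ^ (r - q) ≤ |x - c| ^ (r - q) :=
        Real.rpow_le_rpow h2.le hcase (by linarith)
      have e1 : (2 * h) ^ r = (2 * h) ^ q * (2 * h) ^ (r - q) := by
        rw [← Real.rpow_add h2]; congr 1; ring
      have e2 : |x - c| ^ r = |x - c| ^ q * |x - c| ^ (r - q) := by
        rw [← Real.rpow_add (by linarith)]; congr 1; ring
      have h4 : (2 * h) ^ r * |x - c| ^ q ≤ (2 * h) ^ q * |x - c| ^ r := by
        rw [e1, e2]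
        have : 0 ≤ (2 * h) ^ q * |x - c| ^ q := by positivity
        nlinarith
      nlinarith [mul_pos hA hB', mul_nonneg hB'.le hX]
    · have h3 : |x - c| ^ q ≤ (2 * h) ^ q := Real.rpow_le_rpow hx hcase hq.le
      have : (2 * h) ^ r * |x - c| ^ q ≤ (2 * h) ^ r * (2 * h) ^ q := by gcongr
      nlinarith [mul_nonneg hB'.le hX]
  calc ∫⁻ x, ENNReal.ofReal (w r c h x * U x)
      ≤ ∫⁻ x, ENNReal.ofReal 2 * ENNReal.ofReal (w q c h x * U x) := by
        refine lintegral_mono (fun x => ?_)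
        rw [← ENNReal.ofReal_mul (by norm_num)]
        apply ENNReal.ofReal_le_ofReal
        rw [← mul_assoc]
        exact mul_le_mul_of_nonneg_right (key x) (hU.1 x)
    _ = ENNReal.ofReal 2 * ∫⁻ x, ENNReal.ofReal (w q c h x * U x) :=
        lintegral_const_mul' _ _ ENNReal.ofReal_ne_top
    _ ≤ ENNReal.ofReal 2 * (ENNReal.ofReal C * mass U c h 0) := by gcongr; exact hC c h hh
    _ = _ := by rw [← mul_assoc, ← ENNReal.ofReal_mul (by norm_num)]

/-- For `1 < λ ≤ 2`, `2/λ < p < 2` and every weight `U`: the necessary condition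
`U ∈ A_p ∩ B_{λp/2}` coincides with the Strömberg–Torchinsky sufficient condition
`U ∈ A_p ∩ B_q` for some `q < min(λp/2, λ)`. -/
theorem result (l p : ℝ) (hl1 : 1 < l) (_hl2 : l ≤ 2) (hp1 : 2 / l < p) (hp2 : p < 2)
    (U : ℝ → ℝ) (hU : IsWeight U) :
    (InB (l * p / 2) U ↔ ∃ q : ℝ, 1 < q ∧ q < min (l * p / 2) l ∧ InB q U) ∧
    ((InA p U ∧ InB (l * p / 2) U) ↔
      (InA p U ∧ ∃ q : ℝ, 1 < q ∧ q < min (l * p / 2) l ∧ InB q U)) := by
  have h1 : 1 < l * p / 2 := by
    rw [div_lt_iff₀ (by linarith)] at hp1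
    linarith
  have h2 : l * p / 2 < l := by nlinarith
  have key : InB (l * p / 2) U ↔ ∃ q : ℝ, 1 < q ∧ q < min (l * p / 2) l ∧ InB q U := by
    rw [min_eq_left h2.le]
    constructor
    · exact fun h => inB_self_improve h1 hU h
    · rintro ⟨q, hq1, hq2, hq⟩
      exact inB_mono (by linarith) hq2.le hU hq
  exact ⟨key, and_congr_right (fun _ => key)⟩

end Pool.Agent.GLam.OpenEnded
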