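import Pool.Agent.GLam.Aperture

open MeasureTheory Set ENNReal Filter Topology
open scoped NNReal

namespace Pool.Agent.GLam

variable {U : ℝ → ℝ}

lemma iterate_bound {μ : Measure ℝ} {T : (ℝ → ℝ≥0∞) → ℝ → ℝ≥0∞} {p : ℝ} {K : ℝ≥0∞}
    (hT : ∀ f, Measurable f → Measurable (T f))
    (hK : ∀ f, Measurable f → ∫⁻ x, T f x ^ p ∂μ ≤ K ^ p * ∫⁻ x, f x ^ p ∂μ)
    {f : ℝ → ℝ≥0∞} (hf : Measurable f) (n : ℕ) :
    Measurable (T^[n] f) ∧ ∫⁻ x, (T^[n] f) x ^ p ∂μ ≤ (K ^ p) ^ n * ∫⁻ x, f x ^ p ∂μ := by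
  induction n with
  | zero => exact ⟨hf, by simp⟩
  | succ n ih =>
    obtain ⟨h1, h2⟩ := ih
    rw [Function.iterate_succ_apply']
    refine ⟨hT _ h1, (hK _ h1).trans ?_⟩
    calc K ^ p * ∫⁻ x, (T^[n] f) x ^ p ∂μ ≤ K ^ p * ((K ^ p) ^ n * ∫⁻ x, f x ^ p ∂μ) := by gcongr
      _ = _ := by rw [pow_succ]; ring

/-- abstract Rubio de Francia iteration -/
lemma iteration {μ : Measure ℝ} {T : (ℝ → ℝ≥0∞) → ℝ → ℝ≥0∞} {p : ℝ} (hp : 1 < p) {K : ℝ≥0}
    (hK0 : 0 < K)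
    (hT : ∀ f, Measurable f → Measurable (T f))
    (hK : ∀ f, Measurable f → ∫⁻ x, T f x ^ p ∂μ ≤ (K : ℝ≥0∞) ^ p * ∫⁻ x, f x ^ p ∂μ)
    (hsum : ∀ f : ℕ → ℝ → ℝ≥0∞, (∀ n, Measurable (f n)) → ∀ x,
      T (fun x => ∑' n, f n x) x ≤ ∑' n, T (f n) x)
    (hmul : ∀ (f : ℝ → ℝ≥0∞) (c : ℝ≥0∞), c ≠ ∞ → ∀ x, T (fun x => c * f x) x ≤ c * T f x)
    {f : ℝ → ℝ≥0∞} (hf : Measurable f) :
    ∃ h : ℝ → ℝ≥0∞, Measurable h ∧ (∀ x, f x ≤ h x) ∧ (∀ x, T f x ≤ (4 * K) * h x) ∧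
      (∀ x, T h x ≤ (4 * K) * h x) ∧
      ∫⁻ x, h x ^ p ∂μ ≤ 2 ^ p * 2 * ∫⁻ x, f x ^ p ∂μ := by
  have hKc : (K : ℝ≥0∞) ≠ 0 := by simpa using hK0.ne'
  have hKt : (K : ℝ≥0∞) ≠ ∞ := ENNReal.coe_ne_top
  set b : ℝ≥0∞ := (2 * K)⁻¹ with hb
  set a : ℝ≥0∞ := 2⁻¹ * b with ha
  have h2K0 : (2 * K : ℝ≥0∞) ≠ 0 := mul_ne_zero (by norm_num) hKc
  have h2Kt : (2 * K : ℝ≥0∞) ≠ ∞ := ENNReal.mul_ne_top (by norm_num) hKt
  have hbt : b ≠ ∞ := ENNReal.inv_ne_top.2 h2K0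
  have hat : a ≠ ∞ := ENNReal.mul_ne_top (by simp) hbt
  have haK : (4 * K : ℝ≥0∞) * a = 1 := by
    rw [ha, hb]
    have e4 : (4 : ℝ≥0∞) = 2 * 2 := by norm_num
    rw [e4]
    calc (2 * 2 * (K : ℝ≥0∞)) * (2⁻¹ * (2 * (K : ℝ≥0∞))⁻¹) =
          (2 * 2⁻¹) * ((2 * (K : ℝ≥0∞)) * (2 * (K : ℝ≥0∞))⁻¹) := by ring
      _ = 1 := by
          rw [ENNReal.mul_inv_cancel (by norm_num) (by norm_num),
            ENNReal.mul_inv_cancel h2K0 h2Kt, one_mul]
  have hm : ∀ n, Measurable (T^[n] f) := fun n => (iterate_bound hT hK hf n).1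
  have hbd : ∀ n, ∫⁻ x, (T^[n] f) x ^ p ∂μ ≤ ((K : ℝ≥0∞) ^ p) ^ n * ∫⁻ x, f x ^ p ∂μ :=
    fun n => (iterate_bound hT hK hf n).2
  set h : ℝ → ℝ≥0∞ := fun x => ∑' n : ℕ, a ^ n * (T^[n] f) x with hh
  have hterm : ∀ n x, a ^ (n + 1) * (T^[n + 1] f) x ≤ h x := fun n x =>
    ENNReal.le_tsum (f := fun n : ℕ => a ^ n * (T^[n] f) x) (n + 1)
  have hkey : ∀ y : ℝ≥0∞, (4 * K : ℝ≥0∞) * (a * y) = y := fun y => by
    rw [← mul_assoc, haK, one_mul]
  refine ⟨h, Measurable.tsum (fun n => (hm n).const_mul _), fun x => ?_, fun x => ?_,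
    fun x => ?_, ?_⟩
  · have := ENNReal.le_tsum (f := fun n : ℕ => a ^ n * (T^[n] f) x) 0
    simpa using this
  · have h1 := hterm 0 x
    simp only [zero_add, pow_one, Function.iterate_one] at h1
    calc T f x = (4 * K : ℝ≥0∞) * (a * T f x) := (hkey _).symm
      _ ≤ _ := by gcongr
  · calc T h x ≤ ∑' n : ℕ, T (fun x => a ^ n * (T^[n] f) x) x :=
          hsum (fun n x => a ^ n * (T^[n] f) x) (fun n => (hm n).const_mul _) x
      _ ≤ ∑' n : ℕ, (4 * K : ℝ≥0∞) * (a ^ (n + 1) * (T^[n + 1] f) x) := by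
          refine ENNReal.tsum_le_tsum (fun n => ?_)
          refine (hmul _ _ (ENNReal.pow_ne_top hat) x).trans (le_of_eq ?_)
          rw [Function.iterate_succ_apply', pow_succ']
          rw [mul_assoc a, hkey]
      _ = (4 * K : ℝ≥0∞) * ∑' n : ℕ, (a ^ (n + 1) * (T^[n + 1] f) x) := ENNReal.tsum_mul_left
      _ ≤ _ := by
          gcongr
          rw [hh]
          exact ENNReal.tsum_comp_le_tsum_of_injective (add_left_injective 1)
            (fun n : ℕ => a ^ n * (T^[n] f) x)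
  · set S : ℝ → ℝ≥0∞ := fun x => ∑' n : ℕ, (b ^ n * (T^[n] f) x) ^ p with hS
    have hp0 : 0 < p := by linarith
    have hle : ∀ x, h x ≤ 2 * (S x) ^ (1 / p) := by
      intro x
      calc h x ≤ ∑' n : ℕ, (2⁻¹ : ℝ≥0∞) ^ n * (S x) ^ (1 / p) := by
            refine ENNReal.tsum_le_tsum (fun n => ?_)
            rw [ha, mul_pow, mul_assoc]
            gcongr
            calc b ^ n * (T^[n] f) x = ((b ^ n * (T^[n] f) x) ^ p) ^ (1 / p) := by
                  rw [← ENNReal.rpow_mul, mul_one_div_cancel hp0.ne', ENNReal.rpow_one]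
              _ ≤ _ := ENNReal.rpow_le_rpow
                  (ENNReal.le_tsum (f := fun n : ℕ => (b ^ n * (T^[n] f) x) ^ p) n) (by positivity)
        _ = _ := by
            rw [ENNReal.tsum_mul_right, ENNReal.tsum_geometric, ENNReal.one_sub_inv_two, inv_inv]
    have hbK : b * K = 2⁻¹ := by
      rw [hb, ENNReal.mul_inv (Or.inl (by norm_num)) (Or.inl (by norm_num)), mul_assoc,
        ENNReal.inv_mul_cancel hKc hKt, mul_one]
    calc ∫⁻ x, h x ^ p ∂μ ≤ ∫⁻ x, 2 ^ p * S x ∂μ := by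
          refine lintegral_mono (fun x => ?_)
          calc h x ^ p ≤ (2 * (S x) ^ (1 / p)) ^ p := ENNReal.rpow_le_rpow (hle x) hp0.le
            _ = _ := by
                rw [ENNReal.mul_rpow_of_nonneg _ _ hp0.le, ← ENNReal.rpow_mul,
                  one_div_mul_cancel hp0.ne', ENNReal.rpow_one]
      _ = 2 ^ p * ∑' n : ℕ, ∫⁻ x, (b ^ n * (T^[n] f) x) ^ p ∂μ := by
          rw [lintegral_const_mul' _ _ (ENNReal.rpow_ne_top_of_nonneg hp0.le (by norm_num)), hS,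
            lintegral_tsum (fun n => (((hm n).const_mul _).pow_const _).aemeasurable)]
      _ ≤ 2 ^ p * ∑' n : ℕ, (2⁻¹ : ℝ≥0∞) ^ n * ∫⁻ x, f x ^ p ∂μ := by
          gcongr with n
          calc ∫⁻ x, (b ^ n * (T^[n] f) x) ^ p ∂μ
              = (b ^ n) ^ p * ∫⁻ x, (T^[n] f) x ^ p ∂μ := by
                rw [← lintegral_const_mul' _ _
                  (ENNReal.rpow_ne_top_of_nonneg hp0.le (ENNReal.pow_ne_top hbt))]
                refine lintegral_congr (fun x => ?_)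
                rw [ENNReal.mul_rpow_of_nonneg _ _ hp0.le]
            _ ≤ (b ^ n) ^ p * (((K : ℝ≥0∞) ^ p) ^ n * ∫⁻ x, f x ^ p ∂μ) := by
                gcongr; exact hbd n
            _ = ((b * K) ^ n) ^ p * ∫⁻ x, f x ^ p ∂μ := by
                rw [mul_pow, ENNReal.mul_rpow_of_nonneg _ _ hp0.le, ← mul_assoc]
                congr 2
                rw [← ENNReal.rpow_natCast, ← ENNReal.rpow_natCast, ← ENNReal.rpow_mul,
                  ← ENNReal.rpow_mul, mul_comm]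
            _ ≤ (2⁻¹ : ℝ≥0∞) ^ n * ∫⁻ x, f x ^ p ∂μ := by
                rw [hbK]
                gcongr
                have h1 : ((2⁻¹ : ℝ≥0∞) ^ n) ≤ 1 := pow_le_one' (by simp) n
                calc ((2⁻¹ : ℝ≥0∞) ^ n) ^ p ≤ ((2⁻¹ : ℝ≥0∞) ^ n) ^ (1 : ℝ) :=
                      ENNReal.rpow_le_rpow_of_exponent_ge h1 hp.le
                  _ = _ := ENNReal.rpow_one _
      _ = _ := by
          rw [ENNReal.tsum_mul_right, ENNReal.tsum_geometric, ENNReal.one_sub_inv_two, inv_inv,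
            mul_assoc]

/-- the majorant used in the proof of the main theorem -/
theorem rubio (hU : Nice U) {A : ℝ≥0} {l p : ℝ} (hl : 0 < l) (hl2 : l ≤ 2) (hp : 1 < p)
    (hA : ApW p A U) {D θ : ℝ} (hG : Gr D θ (l * p / 2) U) :
    ∃ K : ℝ≥0, 0 < K ∧ ∀ f : ℝ → ℝ≥0∞, Measurable f → ∫⁻ x, f x ^ p ∂(wm U) ≠ ∞ →
      (¬ f =ᵐ[volume] 0) → ∃ h : ℝ → ℝ, (∀ x, 0 < h x) ∧ Measurable h ∧
      (∀ᵐ x, f x ≤ ENNReal.ofReal (h x)) ∧
      (∀ᵐ x, ∀ z y : ℝ, 0 < y → ENNReal.ofReal ((y / (|x - z| + y)) ^ (l / 2)) *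
        ((∫⁻ t in Ioo (z - y) (z + y), ENNReal.ofReal (h t)) / ENNReal.ofReal (2 * y)) ≤
          K * ENNReal.ofReal (h x)) ∧
      ∫⁻ x, ENNReal.ofReal (h x) ^ p ∂(wm U) ≤ K * ∫⁻ x, f x ^ p ∂(wm U) := by
  have hp0 : 0 < p := by linarith
  obtain ⟨K1, hK1⟩ := muckenhoupt hp hA
  have hD := hG.D0
  have ht1 := hG.t1
  have h1t : 0 < 1 - θ := by linarith
  -- the operator bound
  set c : ℝ≥0∞ := ENNReal.ofReal (4 * D / (1 - θ)) * K1 with hc
  have hct : c ≠ ∞ := ENNReal.mul_ne_top ENNReal.ofReal_ne_top ENNReal.coe_ne_top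
  set K : ℝ≥0 := (c.toNNReal) ^ (1 / p) + 1 with hK
  have hK0 : 0 < K := by rw [hK]; positivity
  have hcK : c ≤ (K : ℝ≥0∞) ^ p := by
    have h1 : (c.toNNReal : ℝ≥0) ≤ K ^ p := by
      calc c.toNNReal = (c.toNNReal ^ (1 / p)) ^ p := by
            rw [← NNReal.rpow_mul, one_div_mul_cancel hp0.ne', NNReal.rpow_one]
        _ ≤ K ^ p := NNReal.rpow_le_rpow (by rw [hK]; exact le_self_add) hp0.le
    calc c = (c.toNNReal : ℝ≥0∞) := (ENNReal.coe_toNNReal hct).symm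
      _ ≤ ((K ^ p : ℝ≥0) : ℝ≥0∞) := by exact_mod_cast h1
      _ = _ := by rw [ENNReal.coe_rpow_of_nonneg _ hp0.le]
  have hKbd : ∀ f, Measurable f → ∫⁻ x, TT l f x ^ p ∂(wm U) ≤
      (K : ℝ≥0∞) ^ p * ∫⁻ x, f x ^ p ∂(wm U) := by
    intro f hf
    refine (TT_strong hU hG hp0 f).trans ?_
    have h1 := hK1 f hf
    rw [← hU.lintegral ((measurable_MM volume f).pow_const p),
      ← hU.lintegral (hf.pow_const p)] at h1
    calc _ ≤ ENNReal.ofReal (4 * D / (1 - θ)) * (K1 * ∫⁻ x, f x ^ p ∂(wm U)) := by gcongr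
      _ = c * ∫⁻ x, f x ^ p ∂(wm U) := by rw [hc, mul_assoc]
      _ ≤ _ := by gcongr
  set K' : ℝ≥0 := 8 * K + (2 ^ p * 2) with hK'
  have hK'0 : 0 < K' := by rw [hK']; positivity
  refine ⟨K', hK'0, fun f hf hfin hne => ?_⟩
  obtain ⟨H, hHm, hfH, hTfH, hTH, hHint⟩ := iteration (T := TT l) hp hK0
    (fun f _ => measurable_TT l f) hKbd (fun f hf x => TT_tsum l hf x)
    (fun f c hc x => TT_const_mul l hc x) hf
  -- positivity
  have hTpos : ∀ x, 0 < TT l f x := by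
    intro x
    have hex : ∃ n : ℕ, 0 < ∫⁻ t in Ioo (-(n : ℝ)) n, f t := by
      by_contra hcon
      push Not at hcon
      apply hne
      have h1 : ∀ n : ℕ, ∀ᵐ t, t ∈ Ioo (-(n : ℝ)) n → f t = 0 := by
        intro n
        have h2 : ∫⁻ t in Ioo (-(n : ℝ)) n, f t = 0 := le_antisymm (hcon n) zero_le
        rw [lintegral_eq_zero_iff hf] at h2
        exact (ae_restrict_iff' measurableSet_Ioo).1 h2
      rw [← ae_all_iff] at h1
      filter_upwards [h1] with t ht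
      obtain ⟨n, hn⟩ := exists_nat_gt |t|
      exact ht n (abs_lt.1 hn)
    obtain ⟨n, hn⟩ := hex
    set y : ℝ := max (n : ℝ) (|x| + 1) with hy
    have hy1 : (n : ℝ) ≤ y := le_max_left _ _
    have hy2 : |x| + 1 ≤ y := le_max_right _ _
    have hy0 : 0 < y := by have := abs_nonneg x; linarith
    have h1 : (∫⁻ t in Ioo (0 - y) (0 + y), f t) / ENNReal.ofReal (2 * y) ≤ NN 0 f x :=
      le_NN 0 f hy0 (by simp; linarith)
    refine lt_of_lt_of_le ?_ (h1.trans (NN_zero_le_TT l f x))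
    apply ENNReal.div_pos _ ENNReal.ofReal_ne_top
    apply ne_of_gt
    refine lt_of_lt_of_le hn (lintegral_mono_set ?_)
    apply Ioo_subset_Ioo <;> linarith
  have hHpos : ∀ x, 0 < H x := by
    intro x
    rcases eq_or_ne (H x) 0 with h0 | h0
    · have := hTfH x
      rw [h0, mul_zero] at this
      exact absurd this (not_le.2 (hTpos x))
    · exact pos_iff_ne_zero.2 h0
  have hHfin : ∀ᵐ x, H x ≠ ∞ := by
    have h1 : ∫⁻ x, H x ^ p * ENNReal.ofReal (U x) ≠ ∞ := by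
      rw [← hU.lintegral (hHm.pow_const p)]
      refine ne_top_of_le_ne_top ?_ hHint
      exact ENNReal.mul_ne_top (ENNReal.mul_ne_top
        (ENNReal.rpow_ne_top_of_nonneg hp0.le (by norm_num)) (by norm_num)) hfin
    have h2 := ae_lt_top ((hHm.pow_const p).mul hU.ofReal_meas) h1
    filter_upwards [h2] with x hx hcon
    rw [Pi.mul_apply, hcon, ENNReal.top_rpow_of_pos hp0, ENNReal.top_mul] at hx
    · exact absurd hx (lt_irrefl _)
    · simpa using hU.pos x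
  classical
  set h : ℝ → ℝ := fun x => if H x = ∞ then 1 else (H x).toReal with hh
  have hhH : ∀ᵐ x, ENNReal.ofReal (h x) = H x := by
    filter_upwards [hHfin] with x hx
    simp only [hh]
    rw [if_neg hx, ENNReal.ofReal_toReal hx]
  refine ⟨h, fun x => ?_, ?_, ?_, ?_, ?_⟩
  · simp only [hh]
    split_ifs with hx
    · exact one_pos
    · exact ENNReal.toReal_pos (hHpos x).ne' hx
  · exact Measurable.ite (hHm (measurableSet_singleton _)) measurable_const hHm.ennreal_toReal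
  · filter_upwards [hhH] with x hx
    rw [hx]; exact hfH x
  · filter_upwards [hhH] with x hx z y hy
    have h1 : ∫⁻ t in Ioo (z - y) (z + y), ENNReal.ofReal (h t) =
        ∫⁻ t in Ioo (z - y) (z + y), H t := by
      refine lintegral_congr_ae ?_
      exact ae_restrict_of_ae hhH
    rw [h1, hx]
    calc _ ≤ 2 * TT l H x := TT_low hl hl2 H x z hy
      _ ≤ 2 * ((4 * K) * H x) := by gcongr; exact hTH x
      _ = (8 * K) * H x := by ring
      _ ≤ K' * H x := by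
          gcongr
          rw [hK']
          push_cast
          exact le_self_add
  · have h1 : ∫⁻ x, ENNReal.ofReal (h x) ^ p ∂(wm U) = ∫⁻ x, H x ^ p ∂(wm U) := by
      have hhm : Measurable h :=
        Measurable.ite (hHm (measurableSet_singleton _)) measurable_const hHm.ennreal_toReal
      rw [hU.lintegral (hhm.ennreal_ofReal.pow_const p), hU.lintegral (hHm.pow_const p)]
      refine lintegral_congr_ae ?_
      filter_upwards [hhH] with x hx
      rw [hx]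
    rw [h1]
    refine hHint.trans ?_
    gcongr
    rw [hK']
    push_cast
    rw [ENNReal.coe_rpow_of_nonneg _ hp0.le]
    push_cast
    exact le_add_self

end Pool.Agent.GLam
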