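import Pool.Agent.GLam.Weights
import Pool.Agent.GLam.Rubio
import Pool.Agent.GLam.Grad

open MeasureTheory Set ENNReal Filter Topology
open scoped NNReal

namespace Pool.Agent.GLam

variable {U V W f : ℝ → ℝ} {Q : ℝ}

/-- squared gradient of the Poisson integral -/
noncomputable def gF (f : ℝ → ℝ) (z y : ℝ) : ℝ :=
  (deriv (fun s => Fn f y s) z) ^ 2 + (deriv (fun s => Fn f s z) y) ^ 2

noncomputable def tk (k : ℤ) : ℝ := (2 : ℝ) ^ (k - 2)

lemma tk_pos (k : ℤ) : 0 < tk k := by unfold tk; positivity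

lemma tk_four (k : ℤ) : 4 * tk k = (2 : ℝ) ^ k := by
  unfold tk
  rw [zpow_sub₀ (by norm_num)]
  norm_num
  ring

lemma tk_eight (k : ℤ) : 8 * tk k = (2 : ℝ) ^ (k + 1) := by
  rw [zpow_add_one₀ (by norm_num), ← tk_four]
  ring

noncomputable def Gk (f V W : ℝ → ℝ) (k : ℤ) (z : ℝ) : ℝ≥0∞ :=
  ENNReal.ofReal (8 / (tk k) ^ 2) * (St f V (tk k) z * pe W (tk k + tk k) z)

noncomputable def M2 (l : ℝ) (f V W : ℝ → ℝ) (x : ℝ) : ℝ≥0∞ :=
  ∑' k : ℤ, ∫⁻ z, ENNReal.ofReal (4 * tk k) *
    (ENNReal.ofReal ((8 * tk k / (|x - z| + 8 * tk k)) ^ l) * Gk f V W k z)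

lemma measurable_St (hf : Measurable f) (hV : Measurable V) (t : ℝ) : Measurable (St f V t) := by
  unfold St
  refine Measurable.lintegral_prod_right' (f := fun q : ℝ × ℝ => ENNReal.ofReal (Pk t (q.1 - q.2)) *
    ENNReal.ofReal ((Fn f t q.2 - Fn f (t + t) q.1) ^ 2 * (pe V t q.2).toReal)) ?_
  have m1 : Measurable (fun q : ℝ × ℝ => ENNReal.ofReal (Pk t (q.1 - q.2))) :=
    ((measurable_Pk t).comp (measurable_fst.sub measurable_snd)).ennreal_ofReal
  have m3 : Measurable (fun q : ℝ × ℝ => Fn f t q.2) := (measurable_Fn hf t).comp measurable_snd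
  have m4 : Measurable (fun q : ℝ × ℝ => Fn f (t + t) q.1) :=
    (measurable_Fn hf (t + t)).comp measurable_fst
  have m5 : Measurable (fun q : ℝ × ℝ => (pe V t q.2).toReal) :=
    (measurable_pe hV t).ennreal_toReal.comp measurable_snd
  exact m1.mul (((m3.sub m4).pow_const 2).mul m5).ennreal_ofReal

lemma measurable_Gk (hf : Measurable f) (hV : Measurable V) (hW : Measurable W) (k : ℤ) :
    Measurable (Gk f V W k) := by
  unfold Gk
  exact ((measurable_St hf hV _).mul (measurable_pe hW _)).const_mul _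

lemma measurable_rho (l c : ℝ) :
    Measurable (fun q : ℝ × ℝ => ENNReal.ofReal ((c / (|q.1 - q.2| + c)) ^ l)) := by
  refine Measurable.ennreal_ofReal (Measurable.pow_const ?_ _)
  exact measurable_const.div (((continuous_abs.measurable.comp
    (measurable_fst.sub measurable_snd))).add measurable_const)

lemma measurable_term (l : ℝ) (hf : Measurable f) (hV : Measurable V) (hW : Measurable W) (k : ℤ) :
    Measurable (fun q : ℝ × ℝ => ENNReal.ofReal (4 * tk k) *
    (ENNReal.ofReal ((8 * tk k / (|q.1 - q.2| + 8 * tk k)) ^ l) * Gk f V W k q.2)) :=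
  ((measurable_rho l _).mul ((measurable_Gk hf hV hW k).comp measurable_snd)).const_mul _

lemma measurable_M2 (l : ℝ) (hf : Measurable f) (hV : Measurable V) (hW : Measurable W) :
    Measurable (M2 l f V W) := by
  unfold M2
  exact Measurable.tsum (fun k => (measurable_term l hf hV hW k).lintegral_prod_right')

/-- pointwise domination of the square of the `g` function -/
lemma g_le_M2 {l : ℝ} (hl : 0 < l) (h : Pair Q V W) (hf : Measurable f) (hfin : Fin f) (x : ℝ) :
    ∫⁻ z, ∫⁻ y in Ioi (0 : ℝ), ENNReal.ofReal ((y / (|x - z| + y)) ^ l * gF f z y) ≤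
      M2 l f V W x := by
  unfold M2
  have hm : ∀ k : ℤ, Measurable (fun z => ENNReal.ofReal (4 * tk k) *
    (ENNReal.ofReal ((8 * tk k / (|x - z| + 8 * tk k)) ^ l) * Gk f V W k z)) := by
    intro k
    have h1 := (measurable_term l hf h.mV h.mW k).comp (measurable_prodMk_left (x := x))
    exact h1
  rw [← lintegral_tsum (fun k => (hm k).aemeasurable)]
  refine lintegral_mono (fun z => ?_)
  have hsub : Ioi (0 : ℝ) ⊆ ⋃ k : ℤ, Ico ((2 : ℝ) ^ k) ((2 : ℝ) ^ (k + 1)) := by
    intro y hy
    obtain ⟨n, hn⟩ := exists_mem_Ico_zpow (x := y) (y := 2) hy (by norm_num)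
    exact mem_iUnion.2 ⟨n, hn⟩
  calc ∫⁻ y in Ioi (0 : ℝ), ENNReal.ofReal ((y / (|x - z| + y)) ^ l * gF f z y)
      ≤ ∫⁻ y in ⋃ k : ℤ, Ico ((2 : ℝ) ^ k) ((2 : ℝ) ^ (k + 1)),
        ENNReal.ofReal ((y / (|x - z| + y)) ^ l * gF f z y) := lintegral_mono_set hsub
    _ ≤ ∑' k : ℤ, ∫⁻ y in Ico ((2 : ℝ) ^ k) ((2 : ℝ) ^ (k + 1)),
        ENNReal.ofReal ((y / (|x - z| + y)) ^ l * gF f z y) := lintegral_iUnion_le _ _
    _ ≤ _ := by
        refine ENNReal.tsum_le_tsum (fun k => ?_)
        have ht := tk_pos k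
        have habs := abs_nonneg (x - z)
        calc ∫⁻ y in Ico ((2 : ℝ) ^ k) ((2 : ℝ) ^ (k + 1)),
              ENNReal.ofReal ((y / (|x - z| + y)) ^ l * gF f z y)
            ≤ ∫⁻ _ in Ico ((2 : ℝ) ^ k) ((2 : ℝ) ^ (k + 1)),
              ENNReal.ofReal ((8 * tk k / (|x - z| + 8 * tk k)) ^ l) * Gk f V W k z := by
              refine setLIntegral_mono' measurableSet_Ico (fun y hy => ?_)
              have hy1 : 4 * tk k ≤ y := by rw [tk_four]; exact hy.1
              have hy2 : y ≤ 8 * tk k := by rw [tk_eight]; exact hy.2.le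
              have hy0 : 0 < y := by linarith
              rw [ENNReal.ofReal_mul (by positivity)]
              refine mul_le_mul' (ENNReal.ofReal_le_ofReal ?_) (h.grad_le hf hfin ht hy1 z)
              refine Real.rpow_le_rpow (by positivity) ?_ hl.le
              rw [div_le_div_iff₀ (by positivity) (by positivity)]
              nlinarith
          _ = _ := by
              rw [setLIntegral_const, Real.volume_Ico, ← tk_eight, ← tk_four]
              rw [show 8 * tk k - 4 * tk k = 4 * tk k by ring, mul_comm]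

/-- the weighted `L^2` bound -/
lemma M2_bound {l : ℝ} (h : Pair Q V W) (hf : Measurable f)
    (hN : ∫⁻ x, ENNReal.ofReal (f x ^ 2 * V x) ≠ ∞) {C1 : ℝ} (hC1 : 0 ≤ C1)
    (hC : ∀ z y : ℝ, 0 < y → ∫⁻ x, ENNReal.ofReal ((y / (|x - z| + y)) ^ l) *
      ENNReal.ofReal (V x) ≤ ENNReal.ofReal C1 * wm V (Ioo (z - y) (z + y))) :
    ∫⁻ x, M2 l f V W x * ENNReal.ofReal (V x) ≤
      ENNReal.ofReal (2048 * Real.pi * C1 * Q) *
      (2 * (ENNReal.ofReal ((1 + 8 * Q ^ 2) * Q) * ∫⁻ x, ENNReal.ofReal (f x ^ 2 * V x))) := by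
  have hpi := Real.pi_pos
  have hQ := h.Q0
  have hmV := h.mV.ennreal_ofReal
  have hterm := fun k => measurable_term l hf h.mV h.mW k
  calc ∫⁻ x, M2 l f V W x * ENNReal.ofReal (V x)
      = ∑' k : ℤ, ∫⁻ x, (∫⁻ z, ENNReal.ofReal (4 * tk k) *
        (ENNReal.ofReal ((8 * tk k / (|x - z| + 8 * tk k)) ^ l) * Gk f V W k z)) *
          ENNReal.ofReal (V x) := by
        rw [← lintegral_tsum]
        · refine lintegral_congr (fun x => ?_)
          unfold M2
          rw [ENNReal.tsum_mul_right]
        · intro k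
          exact ((hterm k).lintegral_prod_right'.mul hmV).aemeasurable
    _ ≤ ∑' k : ℤ, ENNReal.ofReal (2048 * Real.pi * C1 * Q) * ∫⁻ z, St f V (tk k) z := by
        refine ENNReal.tsum_le_tsum (fun k => ?_)
        have ht := tk_pos k
        calc ∫⁻ x, (∫⁻ z, ENNReal.ofReal (4 * tk k) *
              (ENNReal.ofReal ((8 * tk k / (|x - z| + 8 * tk k)) ^ l) * Gk f V W k z)) *
                ENNReal.ofReal (V x)
            = ∫⁻ x, ∫⁻ z, (ENNReal.ofReal (4 * tk k) *
              (ENNReal.ofReal ((8 * tk k / (|x - z| + 8 * tk k)) ^ l) * Gk f V W k z)) *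
                ENNReal.ofReal (V x) := by
              refine lintegral_congr (fun x => ?_)
              rw [lintegral_mul_const' _ _ ENNReal.ofReal_ne_top]
          _ = ∫⁻ z, ∫⁻ x, (ENNReal.ofReal (4 * tk k) *
              (ENNReal.ofReal ((8 * tk k / (|x - z| + 8 * tk k)) ^ l) * Gk f V W k z)) *
                ENNReal.ofReal (V x) := by
              refine lintegral_lintegral_swap (Measurable.aemeasurable ?_)
              exact (hterm k).mul (hmV.comp measurable_fst)
          _ ≤ ∫⁻ z, ENNReal.ofReal (2048 * Real.pi * C1 * Q) * St f V (tk k) z := by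
              refine lintegral_mono (fun z => ?_)
              have hm1 : Measurable (fun x => ENNReal.ofReal ((8 * tk k / (|x - z| + 8 * tk k)) ^ l) *
                  ENNReal.ofReal (V x)) :=
                ((measurable_rho l (8 * tk k)).comp (measurable_id.prodMk measurable_const)).mul hmV
              calc ∫⁻ x, (ENNReal.ofReal (4 * tk k) *
                  (ENNReal.ofReal ((8 * tk k / (|x - z| + 8 * tk k)) ^ l) * Gk f V W k z)) *
                    ENNReal.ofReal (V x)
                  = (ENNReal.ofReal (4 * tk k) * Gk f V W k z) *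
                    ∫⁻ x, (ENNReal.ofReal ((8 * tk k / (|x - z| + 8 * tk k)) ^ l)) *
                      ENNReal.ofReal (V x) := by
                    rw [← lintegral_const_mul _ hm1]
                    refine lintegral_congr (fun x => ?_)
                    ring
                _ ≤ (ENNReal.ofReal (4 * tk k) * Gk f V W k z) *
                    (ENNReal.ofReal C1 * (ENNReal.ofReal (64 * Real.pi * tk k) *
                      pe V (tk k + tk k) z)) := by
                    gcongr
                    refine (hC z (8 * tk k) (by positivity)).trans ?_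
                    gcongr
                    exact wm_le_pe z ht
                _ = (ENNReal.ofReal (4 * tk k) * ENNReal.ofReal (8 / (tk k) ^ 2) * ENNReal.ofReal C1 *
                    ENNReal.ofReal (64 * Real.pi * tk k)) * St f V (tk k) z *
                      (pe V (tk k + tk k) z * pe W (tk k + tk k) z) := by
                    unfold Gk
                    ring
                _ ≤ (ENNReal.ofReal (4 * tk k) * ENNReal.ofReal (8 / (tk k) ^ 2) * ENNReal.ofReal C1 *
                    ENNReal.ofReal (64 * Real.pi * tk k)) * St f V (tk k) z * ENNReal.ofReal Q := by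
                    gcongr
                    exact h.bd _ _ (by positivity)
                _ = (ENNReal.ofReal (4 * tk k) * ENNReal.ofReal (8 / (tk k) ^ 2) * ENNReal.ofReal C1 *
                    ENNReal.ofReal (64 * Real.pi * tk k) * ENNReal.ofReal Q) * St f V (tk k) z := by
                    ring
                _ = _ := by
                    rw [← ENNReal.ofReal_mul (by positivity), ← ENNReal.ofReal_mul (by positivity),
                      ← ENNReal.ofReal_mul (by positivity), ← ENNReal.ofReal_mul (by positivity)]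
                    congr 2
                    field_simp
                    ring
          _ = _ := lintegral_const_mul' _ _ ENNReal.ofReal_ne_top
    _ = ENNReal.ofReal (2048 * Real.pi * C1 * Q) * ∑' k : ℤ, ∫⁻ z, St f V (tk k) z :=
        ENNReal.tsum_mul_left
    _ ≤ _ := by
        gcongr
        have e : ∑' k : ℤ, ∫⁻ z, St f V (tk k) z = ∑' k : ℤ, ∫⁻ z, St f V ((2 : ℝ) ^ k) z := by
          have := (Equiv.subRight (2 : ℤ)).tsum_eq (fun k : ℤ => ∫⁻ z, St f V ((2 : ℝ) ^ k) z)
          rw [← this]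
          rfl
        rw [e]
        exact h.tsum_St hf hN

/-- **sufficiency** for strictly positive weights -/
theorem suff {A : ℝ≥0} {l p : ℝ} (hl : 0 < l) (hl2 : l ≤ 2) (hp1 : 1 < p) (hp2 : p < 2)
    (hA : ApW p A U) {D θ : ℝ} (hG : Gr D θ (l * p / 2) U) {CB : ℝ} (hCB : 0 ≤ CB)
    (hB : ∀ z y : ℝ, 0 < y → ∫⁻ x, ENNReal.ofReal ((y / (|x - z| + y)) ^ (l * p / 2)) *
      ENNReal.ofReal (U x) ≤ ENNReal.ofReal CB * wm U (Ioo (z - y) (z + y))) :
    ∃ C : ℝ≥0, ∀ f : ℝ → ℝ, Measurable f → ∫⁻ x, ENNReal.ofReal (|f x| ^ p * U x) ≠ ∞ →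
      Fin f ∧ ∫⁻ x, ((∫⁻ z, ∫⁻ y in Ioi (0 : ℝ),
        ENNReal.ofReal ((y / (|x - z| + y)) ^ l * gF f z y)) ^ (1 / 2 : ℝ)) ^ p *
          ENNReal.ofReal (U x) ≤ C * ∫⁻ x, ENNReal.ofReal (|f x| ^ p * U x) := by
  have hU := hA.nice
  have hp0 : 0 < p := by linarith
  have hp' : 0 < 1 - p / 2 := by linarith
  have hpi := Real.pi_pos
  obtain ⟨K, hK0, hK⟩ := rubio hU hl hl2 hp1 hA hG
  have hKr : (0 : ℝ) < K := by exact_mod_cast hK0
  set A' : ℝ := max 1 ((2 * K) ^ (2 - p) * A) with hA'
  have hA'1 : 1 ≤ A' := le_max_left _ _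
  set Q : ℝ := 1024 * A' ^ 5 / Real.pi ^ 2 with hQ
  have hQ0 : 0 < Q := by positivity
  set C1 : ℝ := (K : ℝ) ^ (2 - p) * CB * A with hC1
  have hC10 : 0 ≤ C1 := by positivity
  set C2 : ℝ≥0∞ := ENNReal.ofReal (2048 * Real.pi * C1 * Q) *
      (2 * ENNReal.ofReal ((1 + 8 * Q ^ 2) * Q)) with hC2
  have hC2t : C2 ≠ ∞ := ENNReal.mul_ne_top ENNReal.ofReal_ne_top
    (ENNReal.mul_ne_top (by norm_num) ENNReal.ofReal_ne_top)
  set C3 : ℝ≥0∞ := C2 ^ (p / 2) * (K : ℝ≥0∞) ^ (1 - p / 2) with hC3
  have hC3t : C3 ≠ ∞ := ENNReal.mul_ne_top (ENNReal.rpow_ne_top_of_nonneg (by linarith) hC2t)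
    (ENNReal.rpow_ne_top_of_nonneg hp'.le ENNReal.coe_ne_top)
  refine ⟨C3.toNNReal, fun f hf hfin => ?_⟩
  rw [ENNReal.coe_toNNReal hC3t]
  by_cases hz : (fun x => ENNReal.ofReal |f x|) =ᵐ[volume] 0
  · -- the trivial case
    have hz' : ∀ᵐ x, f x = 0 := by
      filter_upwards [hz] with x hx
      simpa using hx
    have hPE : ∀ g : ℝ → ℝ≥0∞, g =ᵐ[volume] 0 → ∀ t z, PE g t z = 0 := by
      intro g hg t z
      unfold PE
      have h1 : (fun x => ENNReal.ofReal (Pk t (z - x)) * g x) =ᵐ[volume] fun _ => 0 := by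
        filter_upwards [hg] with x hx
        rw [hx]; simp
      rw [lintegral_congr_ae h1, lintegral_zero]
    have hFn : ∀ t z, Fn f t z = 0 := by
      intro t z
      unfold Fn
      rw [hPE (fun x => ENNReal.ofReal (f x)) (by filter_upwards [hz'] with x hx; simp [hx]) t z,
        hPE (fun x => ENNReal.ofReal (-f x)) (by filter_upwards [hz'] with x hx; simp [hx]) t z]
      simp
    refine ⟨fun t z _ => by rw [hPE _ hz t z]; simp, ?_⟩
    have hg0 : ∀ z y, gF f z y = 0 := by
      intro z y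
      unfold gF
      simp [hFn]
    simp only [hg0, mul_zero, ENNReal.ofReal_zero, lintegral_zero]
    rw [ENNReal.zero_rpow_of_pos (by norm_num), ENNReal.zero_rpow_of_pos hp0]
    simp
  · -- the main case
    have hf0 : Measurable (fun x => ENNReal.ofReal |f x|) :=
      (continuous_abs.measurable.comp hf).ennreal_ofReal
    have hNp : ∫⁻ x, (ENNReal.ofReal |f x|) ^ p ∂(wm U) = ∫⁻ x, ENNReal.ofReal (|f x| ^ p * U x) := by
      rw [hU.lintegral (hf0.pow_const p)]
      refine lintegral_congr (fun x => ?_)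
      rw [ENNReal.ofReal_mul (by positivity), ENNReal.ofReal_rpow_of_nonneg (abs_nonneg _) hp0.le]
    obtain ⟨h, hh0, hhm, hfh, hMaj, hhint⟩ := hK _ hf0 (by rw [hNp]; exact hfin) hz
    rw [hNp] at hhint
    set Np := ∫⁻ x, ENNReal.ofReal (|f x| ^ p * U x) with hNpdef
    obtain ⟨hA2, hKW⟩ := weights hp1 hp2 hA hh0 hhm hl hl2 hK0 hMaj hCB hB
    rw [← hA'] at hA2
    set V : ℝ → ℝ := fun x => h x ^ (p - 2) * U x with hV
    set W : ℝ → ℝ := fun x => h x ^ (2 - p) / U x with hW
    have hpair := hA2.pair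
    rw [← hQ] at hpair
    have hNle : ∫⁻ x, ENNReal.ofReal (f x ^ 2 * V x) ≤ Np := by
      refine lintegral_mono_ae ?_
      filter_upwards [hfh] with x hx
      apply ENNReal.ofReal_le_ofReal
      have hhx := hh0 x
      have hUx := hU.pos x
      have hle : |f x| ≤ h x := (ENNReal.ofReal_le_ofReal_iff hhx.le).1 hx
      simp only [hV]
      rw [← mul_assoc]
      gcongr
      rw [← sq_abs]
      rcases (abs_nonneg (f x)).eq_or_lt with h0 | h0
      · rw [← h0, Real.zero_rpow hp0.ne']; simp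
      · have e1 : |f x| ^ 2 = |f x| ^ p * |f x| ^ (2 - p) := by
          rw [← Real.rpow_add h0, ← Real.rpow_natCast]
          congr 1
          push_cast
          ring
        have e2 : h x ^ (p - 2) * h x ^ (2 - p) = 1 := by
          rw [← Real.rpow_add hhx]; simp
        have e3 : |f x| ^ (2 - p) ≤ h x ^ (2 - p) :=
          Real.rpow_le_rpow h0.le hle (by linarith)
        rw [e1]
        calc |f x| ^ p * |f x| ^ (2 - p) * h x ^ (p - 2)
            ≤ |f x| ^ p * h x ^ (2 - p) * h x ^ (p - 2) := by gcongr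
          _ = |f x| ^ p * (h x ^ (p - 2) * h x ^ (2 - p)) := by ring
          _ = _ := by rw [e2, mul_one]
    have hNfin : ∫⁻ x, ENNReal.ofReal (f x ^ 2 * V x) ≠ ∞ := ne_top_of_le_ne_top hfin hNle
    have hFin : Fin f := hpair.fin hf hNfin
    refine ⟨hFin, ?_⟩
    have hM2 := M2_bound (l := l) hpair hf hNfin hC10 hKW
    have hM2' : ∫⁻ x, M2 l f V W x * ENNReal.ofReal (V x) ≤ C2 * Np := by
      refine hM2.trans ?_
      rw [hC2]
      calc _ ≤ ENNReal.ofReal (2048 * Real.pi * C1 * Q) *
            (2 * (ENNReal.ofReal ((1 + 8 * Q ^ 2) * Q) * Np)) := by gcongr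
        _ = _ := by ring
    have hMm := measurable_M2 l hf hpair.mV hpair.mW
    set a : ℝ → ℝ≥0∞ := fun x => (M2 l f V W x * ENNReal.ofReal (V x)) ^ (p / 2) with ha
    set b : ℝ → ℝ≥0∞ := fun x => (ENNReal.ofReal (h x) ^ p * ENNReal.ofReal (U x)) ^ (1 - p / 2)
      with hb
    have ham : Measurable a := (hMm.mul hpair.mV.ennreal_ofReal).pow_const _
    have hbm : Measurable b := ((hhm.ennreal_ofReal.pow_const _).mul hU.ofReal_meas).pow_const _
    have hconj : (2 / p).HolderConjugate (1 / (1 - p / 2)) := by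
      constructor
      · field_simp; ring
      · positivity
      · positivity
    have hH := ENNReal.lintegral_mul_le_Lp_mul_Lq volume hconj ham.aemeasurable hbm.aemeasurable
    have ea : ∀ x, a x ^ (2 / p) = M2 l f V W x * ENNReal.ofReal (V x) := by
      intro x
      simp only [ha]
      rw [← ENNReal.rpow_mul]
      have : p / 2 * (2 / p) = 1 := by field_simp
      rw [this, ENNReal.rpow_one]
    have eb : ∀ x, b x ^ (1 / (1 - p / 2)) = ENNReal.ofReal (h x) ^ p * ENNReal.ofReal (U x) := by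
      intro x
      simp only [hb]
      rw [← ENNReal.rpow_mul, mul_one_div_cancel hp'.ne', ENNReal.rpow_one]
    simp only [ea, eb] at hH
    have hint : ∫⁻ x, ENNReal.ofReal (h x) ^ p * ENNReal.ofReal (U x) ≤ K * Np := by
      rw [← hU.lintegral (hhm.ennreal_ofReal.pow_const p)]
      exact hhint
    calc ∫⁻ x, ((∫⁻ z, ∫⁻ y in Ioi (0 : ℝ),
        ENNReal.ofReal ((y / (|x - z| + y)) ^ l * gF f z y)) ^ (1 / 2 : ℝ)) ^ p *
          ENNReal.ofReal (U x)
        ≤ ∫⁻ x, (a * b) x := by
          refine lintegral_mono (fun x => ?_)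
          have hhx := hh0 x
          have hUx := hU.pos x
          have e1 : (a * b) x = M2 l f V W x ^ (p / 2) * ENNReal.ofReal (U x) := by
            simp only [Pi.mul_apply, ha, hb]
            rw [ENNReal.mul_rpow_of_nonneg _ _ (by linarith : 0 ≤ p / 2), mul_assoc]
            congr 1
            rw [ENNReal.ofReal_rpow_of_pos hhx, ← ENNReal.ofReal_mul (by positivity),
              ENNReal.ofReal_rpow_of_pos (by simp only [hV]; positivity),
              ENNReal.ofReal_rpow_of_pos (by positivity),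
              ← ENNReal.ofReal_mul (by simp only [hV]; positivity)]
            congr 1
            simp only [hV]
            rw [Real.mul_rpow (by positivity) hUx.le, Real.mul_rpow (by positivity) hUx.le,
              ← Real.rpow_mul hhx.le, ← Real.rpow_mul hhx.le]
            calc h x ^ ((p - 2) * (p / 2)) * U x ^ (p / 2) * (h x ^ (p * (1 - p / 2)) *
                  U x ^ (1 - p / 2)) = (h x ^ ((p - 2) * (p / 2)) * h x ^ (p * (1 - p / 2))) *
                  (U x ^ (p / 2) * U x ^ (1 - p / 2)) := by ring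
              _ = h x ^ (0 : ℝ) * U x ^ (1 : ℝ) := by
                  rw [← Real.rpow_add hhx, ← Real.rpow_add hUx]
                  congr 2 <;> ring
              _ = U x := by simp
          rw [e1, ← ENNReal.rpow_mul]
          have e2 : (1 / 2 : ℝ) * p = p / 2 := by ring
          rw [e2]
          gcongr
          exact g_le_M2 hl hpair hf hFin x
      _ ≤ _ := hH
      _ ≤ (C2 * Np) ^ (1 / (2 / p)) * (K * Np) ^ (1 / (1 / (1 - p / 2))) := by gcongr
      _ = C3 * Np := by
          rw [one_div_one_div, one_div_div, hC3, ENNReal.mul_rpow_of_nonneg _ _ (by linarith),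
            ENNReal.mul_rpow_of_nonneg _ _ hp'.le]
          calc C2 ^ (p / 2) * Np ^ (p / 2) * ((K : ℝ≥0∞) ^ (1 - p / 2) * Np ^ (1 - p / 2))
              = C2 ^ (p / 2) * (K : ℝ≥0∞) ^ (1 - p / 2) * (Np ^ (p / 2) * Np ^ (1 - p / 2)) := by ring
            _ = _ := by
                rw [← ENNReal.rpow_add_of_nonneg _ _ (by linarith) hp'.le]
                have : p / 2 + (1 - p / 2) = 1 := by ring
                rw [this, ENNReal.rpow_one]

end Pool.Agent.GLam
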