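import Pool.Agent.GLam.Growth
import Pool.Agent.GLam.Nec
import Pool.Agent.GLam.Suff

open MeasureTheory Set ENNReal Filter Topology
open scoped NNReal

namespace Pool.Agent.GLam

variable {U : ℝ → ℝ}

lemma kernel_form {r : ℝ} (hr : 0 < r) (hU : ∀ x, 0 ≤ U x) (hB : InB r U) :
    ∃ CB : ℝ, 0 ≤ CB ∧ ∀ z y : ℝ, 0 < y →
      ∫⁻ x, ENNReal.ofReal ((y / (|x - z| + y)) ^ r) * ENNReal.ofReal (U x) ≤
        ENNReal.ofReal CB * wm U (Ioo (z - y) (z + y)) := by
  obtain ⟨C, hC0, hC⟩ := (inB_iff r U).1 hB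
  refine ⟨2 * C, by positivity, fun z y hy => ?_⟩
  have hm : wm U (Ioo (z - y) (z + y)) = mass U z y 0 := by
    rw [wm_apply U measurableSet_Ioo]
    unfold mass
    rw [pow_zero, one_mul]
  rw [hm]
  calc ∫⁻ x, ENNReal.ofReal ((y / (|x - z| + y)) ^ r) * ENNReal.ofReal (U x)
      ≤ ∫⁻ x, ENNReal.ofReal 2 * ENNReal.ofReal (w r z y x * U x) := by
        refine lintegral_mono (fun x => ?_)
        have habs := abs_nonneg (x - z)
        have hUx := hU x
        have hw := w_nonneg r z y x hy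
        rw [← ENNReal.ofReal_mul (by positivity), ← ENNReal.ofReal_mul (by norm_num)]
        apply ENNReal.ofReal_le_ofReal
        rw [← mul_assoc]
        gcongr
        unfold w
        set d := |x - z| with hd
        rw [Real.div_rpow hy.le (by positivity), mul_div_assoc', div_le_div_iff₀ (by positivity)
          (by positivity)]
        have h1 : y ^ r ≤ (d + y) ^ r := Real.rpow_le_rpow hy.le (by linarith) hr.le
        have h2 : d ^ r ≤ (d + y) ^ r := Real.rpow_le_rpow habs (by linarith) hr.le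
        have h3 : y ^ r ≤ (2 * y) ^ r := Real.rpow_le_rpow hy.le (by linarith) hr.le
        have p1 : 0 ≤ y ^ r := by positivity
        have p2 : 0 ≤ (2 * y) ^ r := by positivity
        have p3 : 0 ≤ d ^ r := by positivity
        have p4 : 0 ≤ (d + y) ^ r := by positivity
        calc y ^ r * ((2 * y) ^ r + d ^ r) = y ^ r * (2 * y) ^ r + y ^ r * d ^ r := by ring
          _ ≤ (d + y) ^ r * (2 * y) ^ r + (2 * y) ^ r * (d + y) ^ r := by gcongr
          _ = _ := by ring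
    _ = ENNReal.ofReal 2 * ∫⁻ x, ENNReal.ofReal (w r z y x * U x) :=
        lintegral_const_mul' _ _ ENNReal.ofReal_ne_top
    _ ≤ ENNReal.ofReal 2 * (ENNReal.ofReal C * mass U z y 0) := by gcongr; exact hC z y hy
    _ = _ := by rw [← mul_assoc, ← ENNReal.ofReal_mul (by norm_num)]

lemma Gr_of_InB {r : ℝ} (hr : 0 < r) (hU : IsWeight U) (hB : InB r U) :
    ∃ D θ : ℝ, Gr D θ r U := by
  obtain ⟨D, θ, hD, h0, h1, h⟩ := growth hr hU hB
  refine ⟨D, θ, hD, h0, h1, fun z y hy k => ?_⟩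
  have e1 : wm U (Ioo (z - 2 ^ k * y) (z + 2 ^ k * y)) = mass U z y k := by
    rw [wm_apply U measurableSet_Ioo]; rfl
  have e0 : wm U (Ioo (z - y) (z + y)) = mass U z y 0 := by
    rw [wm_apply U measurableSet_Ioo]
    unfold mass
    rw [pow_zero, one_mul]
  have h2 := h z y hy k
  rw [e1, e0, ← ENNReal.ofReal_toReal (mass_lt_top hU z y k).ne,
    ← ENNReal.ofReal_toReal (mass_lt_top hU z y 0).ne, ← ENNReal.ofReal_mul (by positivity)]
  exact ENNReal.ofReal_le_ofReal h2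

lemma split_form {p : ℝ} (hp : 1 < p) {ℓ : ℝ} (hℓ : 0 < ℓ) (R T : ℝ≥0∞) :
    R / ENNReal.ofReal ℓ * (T / ENNReal.ofReal ℓ) ^ (p - 1) =
      (R * T ^ (p - 1)) / ENNReal.ofReal ℓ ^ p := by
  have hp1 : 0 < p - 1 := by linarith
  have hne0 : ENNReal.ofReal ℓ ≠ 0 := by simpa using hℓ
  have hnt : ENNReal.ofReal ℓ ≠ ∞ := ENNReal.ofReal_ne_top
  have e1 : ENNReal.ofReal ℓ ^ p = ENNReal.ofReal ℓ * ENNReal.ofReal ℓ ^ (p - 1) := by
    have := ENNReal.rpow_add_of_nonneg (x := ENNReal.ofReal ℓ) 1 (p - 1) (by norm_num) hp1.le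
    rw [ENNReal.rpow_one] at this
    rw [← this]; congr 1; ring
  rw [e1, ENNReal.div_rpow_of_nonneg _ _ hp1.le, div_eq_mul_inv, div_eq_mul_inv, div_eq_mul_inv,
    ENNReal.mul_inv (Or.inl hne0) (Or.inl hnt)]
  ring

lemma InA_form {p : ℝ} (hp : 1 < p) (hA : InA p U) : ∃ A : ℝ≥0, ∀ a b : ℝ, a < b →
    (∫⁻ x in Ioo a b, ENNReal.ofReal (U x)) *
      (∫⁻ x in Ioo a b, (ENNReal.ofReal (U x)) ^ (-(1 / (p - 1)))) ^ (p - 1) ≤
        A * ENNReal.ofReal (b - a) ^ p := by
  obtain ⟨C, hC⟩ := hA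
  refine ⟨C.toNNReal, fun a b hab => ?_⟩
  have hℓ : 0 < b - a := by linarith
  have h1 := hC a b hab
  rw [split_form hp hℓ] at h1
  have hne0 : ENNReal.ofReal (b - a) ^ p ≠ 0 := by
    rw [ENNReal.ofReal_rpow_of_pos hℓ]
    simp only [ne_eq, ENNReal.ofReal_eq_zero, not_le]
    positivity
  have hnt : ENNReal.ofReal (b - a) ^ p ≠ ∞ :=
    ENNReal.rpow_ne_top_of_nonneg (by linarith) ENNReal.ofReal_ne_top
  rwa [ENNReal.div_le_iff hne0 hnt] at h1

lemma finS {p : ℝ} (hp : 1 < p) (hA : InA p U) {a b : ℝ} (hab : a < b)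
    (hpos : 0 < ∫⁻ x in Ioo a b, ENNReal.ofReal (U x)) :
    ∫⁻ x in Ioo a b, (ENNReal.ofReal (U x)) ^ (-(1 / (p - 1))) ≠ ∞ := by
  obtain ⟨A, hA⟩ := InA_form hp hA
  have hp1 : 0 < p - 1 := by linarith
  intro htop
  have h1 := hA a b hab
  rw [htop, ENNReal.top_rpow_of_pos hp1, ENNReal.mul_top hpos.ne'] at h1
  refine absurd h1 (not_le.2 ?_)
  exact ENNReal.mul_lt_top ENNReal.coe_lt_top
    (ENNReal.rpow_lt_top_of_nonneg (by linarith) ENNReal.ofReal_ne_top)

lemma pos_ae {p : ℝ} (hp : 1 < p) (hU : IsWeight U) (hA : InA p U) (hne : ¬ U =ᵐ[volume] 0) :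
    ∀ᵐ x, 0 < U x := by
  have hUm : AEMeasurable U := hU.2.aestronglyMeasurable.aemeasurable
  have hp1 : 0 < p - 1 := by linarith
  have hex : ∃ n : ℕ, 0 < ∫⁻ t in Ioo (-(n : ℝ)) n, ENNReal.ofReal (U t) := by
    by_contra hcon
    push Not at hcon
    apply hne
    have h1 : ∀ n : ℕ, ∀ᵐ t, t ∈ Ioo (-(n : ℝ)) n → U t = 0 := by
      intro n
      have h2 : ∫⁻ t in Ioo (-(n : ℝ)) n, ENNReal.ofReal (U t) = 0 := le_antisymm (hcon n) zero_le
      rw [lintegral_eq_zero_iff' hUm.ennreal_ofReal.restrict] at h2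
      have h3 := (ae_restrict_iff' measurableSet_Ioo).1 h2
      filter_upwards [h3] with t ht hti
      have h4 := ht hti
      simp only [Pi.zero_apply, ENNReal.ofReal_eq_zero] at h4
      exact le_antisymm h4 (hU.1 t)
    rw [← ae_all_iff] at h1
    filter_upwards [h1] with t ht
    obtain ⟨n, hn⟩ := exists_nat_gt |t|
    exact ht n (abs_lt.1 hn)
  obtain ⟨n0, hn0⟩ := hex
  have h1 : ∀ k : ℕ, ∀ᵐ t, t ∈ Ioo (-((n0 + k + 1 : ℕ) : ℝ)) ((n0 + k + 1 : ℕ) : ℝ) → 0 < U t := by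
    intro k
    set n := n0 + k + 1 with hn
    have hn1 : (n0 : ℝ) ≤ n := by rw [hn]; push_cast; linarith [Nat.cast_nonneg (α := ℝ) k]
    have hn2 : (0 : ℝ) < n := by rw [hn]; positivity
    have hpos : 0 < ∫⁻ t in Ioo (-(n : ℝ)) n, ENNReal.ofReal (U t) :=
      lt_of_lt_of_le hn0 (lintegral_mono_set (Ioo_subset_Ioo (by linarith) hn1))
    have hS := finS hp hA (by linarith : -(n : ℝ) < n) hpos
    have hSm : AEMeasurable (fun x => (ENNReal.ofReal (U x)) ^ (-(1 / (p - 1)))) :=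
      hUm.ennreal_ofReal.pow_const _
    have h2 := ae_lt_top' hSm.restrict hS
    have h3 := (ae_restrict_iff' measurableSet_Ioo).1 h2
    filter_upwards [h3] with t ht hti
    have h4 := ht hti
    rcases (hU.1 t).eq_or_lt with h0 | h0
    · rw [← h0, ENNReal.ofReal_zero, ENNReal.zero_rpow_of_neg (by
        rw [neg_lt_zero]; positivity)] at h4
      exact absurd h4 (lt_irrefl _)
    · exact h0
  rw [← ae_all_iff] at h1
  filter_upwards [h1] with t ht
  obtain ⟨n, hn⟩ := exists_nat_gt |t|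
  refine ht n (abs_lt.1 (hn.trans_le ?_))
  push_cast
  have := Nat.cast_nonneg (α := ℝ) n0
  linarith

/-- a strictly positive Borel version of the weight -/
lemma nice_version {p : ℝ} (hp : 1 < p) (hU : IsWeight U) (hA : InA p U)
    (hne : ¬ U =ᵐ[volume] 0) :
    ∃ (U' : ℝ → ℝ) (A : ℝ≥0), U' =ᵐ[volume] U ∧ ApW p A U' := by
  have hUm : AEMeasurable U := hU.2.aestronglyMeasurable.aemeasurable
  have hpos := pos_ae hp hU hA hne
  obtain ⟨A, hAf⟩ := InA_form hp hA
  classical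
  set U0 := hUm.mk U with hU0
  have hU0m : Measurable U0 := hUm.measurable_mk
  have hU0e : U =ᵐ[volume] U0 := hUm.ae_eq_mk
  set U' : ℝ → ℝ := fun x => if 0 < U0 x then U0 x else 1 with hU'
  have hU'm : Measurable U' :=
    Measurable.ite (measurableSet_lt measurable_const hU0m) hU0m measurable_const
  have hU'e : U' =ᵐ[volume] U := by
    filter_upwards [hU0e, hpos] with x hx hx0
    simp only [hU']
    rw [← hx, if_pos hx0]
  have hU'pos : ∀ x, 0 < U' x := by
    intro x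
    simp only [hU']
    split_ifs with h
    · exact h
    · exact one_pos
  have hfinU : ∀ a b : ℝ, ∫⁻ x in Ioo a b, ENNReal.ofReal (U x) < ∞ := by
    intro a b
    have h1 : IntegrableOn U (Icc a b) := hU.2.integrableOn_isCompact isCompact_Icc
    have h2 : IntegrableOn U (Ioo a b) := h1.mono_set Ioo_subset_Icc_self
    have h3 := h2.2
    rwa [hasFiniteIntegral_iff_ofReal (Filter.Eventually.of_forall hU.1)] at h3
  have heq : ∀ a b : ℝ, ∫⁻ x in Ioo a b, ENNReal.ofReal (U' x) =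
      ∫⁻ x in Ioo a b, ENNReal.ofReal (U x) := by
    intro a b
    refine lintegral_congr_ae (ae_restrict_of_ae ?_)
    filter_upwards [hU'e] with x hx
    rw [hx]
  have hnU : Nice U' := ⟨hU'pos, hU'm, fun a b => by rw [heq]; exact hfinU a b⟩
  have heq2 : ∀ a b : ℝ, ∫⁻ x in Ioo a b, ENNReal.ofReal (conj p U' x) =
      ∫⁻ x in Ioo a b, (ENNReal.ofReal (U x)) ^ (-(1 / (p - 1))) := by
    intro a b
    refine lintegral_congr_ae (ae_restrict_of_ae ?_)
    filter_upwards [hU'e] with x hx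
    rw [ofReal_conj hnU, hx]
  have hnU' : Nice (conj p U') := by
    refine ⟨fun x => ?_, hU'm.pow_const _, fun a b => ?_⟩
    · unfold conj
      exact Real.rpow_pos_of_pos (hU'pos x) _
    · rw [heq2]
      rcases le_or_gt b a with hab | hab
      · rw [Ioo_eq_empty (not_lt.2 hab)]; simp
      · refine (finS hp hA hab ?_).lt_top
        rw [← heq, ← wm_apply U' measurableSet_Ioo]
        exact hnU.mass_pos hab
  refine ⟨U', A, hU'e, hnU, hnU', fun a b hab => ?_⟩
  rw [wm_apply U' measurableSet_Ioo, wm_apply (conj p U') measurableSet_Ioo, heq, heq2]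
  exact hAf a b hab

lemma InB_congr {r : ℝ} {U' : ℝ → ℝ} (h : U' =ᵐ[volume] U) (hB : InB r U) : InB r U' := by
  obtain ⟨C, hC⟩ := hB
  refine ⟨C, fun a b hab => ?_⟩
  have e1 : ∫⁻ x, ENNReal.ofReal ((b - a) ^ (r - 1) * U' x / ((b - a) ^ r + |x - (a + b) / 2| ^ r)) =
      ∫⁻ x, ENNReal.ofReal ((b - a) ^ (r - 1) * U x / ((b - a) ^ r + |x - (a + b) / 2| ^ r)) := by
    refine lintegral_congr_ae ?_
    filter_upwards [h] with x hx
    rw [hx]
  have e2 : ∫⁻ x in Ioo a b, ENNReal.ofReal (U' x) = ∫⁻ x in Ioo a b, ENNReal.ofReal (U x) := by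
    refine lintegral_congr_ae (ae_restrict_of_ae ?_)
    filter_upwards [h] with x hx
    rw [hx]
  rw [e1, e2]
  exact hC a b hab

lemma gradSq_eq_gF {f : ℝ → ℝ} (hf : Measurable f) (hfin : Fin f) (z : ℝ) {y : ℝ} (hy : 0 < y) :
    gradSq f z y = gF f z y := by
  have key : ∀ (s t : ℝ), 0 < t → poisson f s t = Fn f t s := by
    intro s t ht
    rw [poisson_eq]
    exact (Fn_eq_integral hf hfin ht s).2
  unfold gradSq gF
  congr 2
  · congr 1
    ext s
    exact key s y hy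
  · refine Filter.EventuallyEq.deriv_eq ?_
    filter_upwards [eventually_gt_nhds hy] with s hs
    exact key z s hs

lemma gradSq_congr {f g : ℝ → ℝ} (h : f =ᵐ[volume] g) (z y : ℝ) : gradSq f z y = gradSq g z y := by
  unfold gradSq
  simp only [poisson_congr h]

/-- the full sufficiency statement -/
theorem suff_general {l p : ℝ} (hl : 0 < l) (hl2 : l ≤ 2) (hp : 1 < p) (hp2 : p < 2)
    (hU : IsWeight U) (hA : InA p U) (hB : InB (l * p / 2) U) (hne : ¬ U =ᵐ[volume] 0) :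
    ∃ C : ℝ≥0, ∀ f : ℝ → ℝ, AEMeasurable f → ∫⁻ x, ENNReal.ofReal (|f x| ^ p * U x) < ∞ →
      (∀ z y : ℝ, 0 < y → Integrable (fun x => Pk y (z - x) * f x)) ∧
      ∫⁻ x, gstar l f x ^ p * ENNReal.ofReal (U x) ≤
        C * ∫⁻ x, ENNReal.ofReal (|f x| ^ p * U x) := by
  obtain ⟨U', A, hU'e, hAp⟩ := nice_version hp hU hA hne
  have hB' := InB_congr hU'e hB
  have hr : 0 < l * p / 2 := by positivity
  have hW' : IsWeight U' := by
    refine ⟨fun x => (hAp.nice.pos x).le, ?_⟩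
    intro x
    refine ⟨Ioo (x - 1) (x + 1), Ioo_mem_nhds (by linarith) (by linarith),
      hAp.nice.meas.aestronglyMeasurable, ?_⟩
    rw [hasFiniteIntegral_iff_ofReal (Filter.Eventually.of_forall
      (fun x => (hAp.nice.pos x).le))]
    exact hAp.nice.fin _ _
  obtain ⟨D, θ, hG⟩ := Gr_of_InB hr hW' hB'
  obtain ⟨CB, hCB, hker⟩ := kernel_form hr hW'.1 hB'
  obtain ⟨C, hC⟩ := suff hl hl2 hp hp2 hAp hG hCB hker
  refine ⟨C, fun f hf hfin => ?_⟩
  set f0 := hf.mk f with hf0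
  have hf0m : Measurable f0 := hf.measurable_mk
  have hf0e : f =ᵐ[volume] f0 := hf.ae_eq_mk
  have e1 : ∫⁻ x, ENNReal.ofReal (|f0 x| ^ p * U' x) = ∫⁻ x, ENNReal.ofReal (|f x| ^ p * U x) := by
    refine lintegral_congr_ae ?_
    filter_upwards [hf0e, hU'e] with x hx hx'
    rw [hx, hx']
  obtain ⟨hFin, hbd⟩ := hC f0 hf0m (by rw [e1]; exact hfin.ne)
  rw [e1] at hbd
  refine ⟨fun z y hy => ?_, ?_⟩
  · refine (Fn_eq_integral hf0m hFin hy z).1.congr ?_
    filter_upwards [hf0e] with x hx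
    rw [hx]
  · refine le_trans (le_of_eq ?_) hbd
    refine lintegral_congr_ae ?_
    filter_upwards [hU'e] with x hx
    rw [hx]
    congr 2
    unfold gstar
    congr 1
    refine lintegral_congr (fun z => ?_)
    refine setLIntegral_congr_fun measurableSet_Ioi (fun y hy => ?_)
    rw [gradSq_congr hf0e, gradSq_eq_gF hf0m hFin z hy]

end Pool.Agent.GLam
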