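import Pool.Agent.GLam.Maximal

open MeasureTheory Set ENNReal

namespace Pool.Agent.GLam

lemma lintegral_Ioo_rpow {r : ℝ} (hr : 0 < r) {t : ℝ} (ht : 0 ≤ t) :
    ∫⁻ a in Ioo 0 t, ENNReal.ofReal (r * a ^ (r - 1)) = ENNReal.ofReal (t ^ r) := by
  have hint : IntervalIntegrable (fun a : ℝ => r * a ^ (r - 1)) volume 0 t :=
    (intervalIntegral.intervalIntegrable_rpow' (by linarith)).const_mul r
  have hint2 : IntegrableOn (fun a : ℝ => r * a ^ (r - 1)) (Ioo 0 t) := by
    rw [← integrableOn_Ioc_iff_integrableOn_Ioo]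
    exact (intervalIntegrable_iff_integrableOn_Ioc_of_le ht).1 hint
  rw [← ofReal_integral_eq_lintegral_ofReal hint2]
  · rw [← integral_Ioc_eq_integral_Ioo, ← intervalIntegral.integral_of_le ht,
      intervalIntegral.integral_const_mul, integral_rpow (Or.inl (by linarith))]
    congr 1
    rw [sub_add_cancel, Real.zero_rpow hr.ne', sub_zero]
    field_simp
  · refine (ae_restrict_iff' measurableSet_Ioo).2 (Filter.Eventually.of_forall (fun a ha => ?_))
    have := ha.1
    simp only [Pi.zero_apply]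
    positivity

lemma rpow_eq_lintegral (g : ℝ≥0∞) {r : ℝ} (hr : 0 < r) :
    ∫⁻ a in Ioi (0 : ℝ), (if ENNReal.ofReal a < g then ENNReal.ofReal (r * a ^ (r - 1)) else 0) =
      g ^ r := by
  classical
  have hfin : ∀ t : ℝ, 0 ≤ t → ∫⁻ a in Ioi (0 : ℝ), (if ENNReal.ofReal a < ENNReal.ofReal t then
      ENNReal.ofReal (r * a ^ (r - 1)) else 0) = (ENNReal.ofReal t) ^ r := by
    intro t ht
    have h1 : ∫⁻ a in Ioi (0 : ℝ), (if ENNReal.ofReal a < ENNReal.ofReal t then
      ENNReal.ofReal (r * a ^ (r - 1)) else 0) =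
      ∫⁻ a in Ioi (0 : ℝ), (Iio t).indicator (fun a => ENNReal.ofReal (r * a ^ (r - 1))) a := by
      refine setLIntegral_congr_fun measurableSet_Ioi (fun a ha => ?_)
      simp only [indicator, mem_Iio]
      have ha' : (0 : ℝ) < a := ha
      by_cases h : a < t
      · rw [if_pos h, if_pos ((ENNReal.ofReal_lt_ofReal_iff (ha'.trans h)).2 h)]
      · rw [if_neg h, if_neg]
        intro h2
        apply h
        exact (ENNReal.ofReal_lt_ofReal_iff_of_nonneg ha'.le).1 h2
    rw [h1, lintegral_indicator measurableSet_Iio, Measure.restrict_restrict measurableSet_Iio,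
      inter_comm, Ioi_inter_Iio, lintegral_Ioo_rpow hr ht, ENNReal.ofReal_rpow_of_nonneg ht hr.le]
  by_cases hg : g = ∞
  · subst hg
    rw [ENNReal.top_rpow_of_pos hr]
    rw [eq_top_iff]
    refine ENNReal.le_of_forall_nnreal_lt (fun c _ => ?_)
    have h1 := hfin ((c : ℝ) ^ (1 / r)) (by positivity)
    rw [ENNReal.ofReal_rpow_of_nonneg (by positivity) hr.le, ← Real.rpow_mul (by positivity),
      one_div_mul_cancel hr.ne', Real.rpow_one] at h1
    have h2 : (c : ℝ≥0∞) = ENNReal.ofReal (c : ℝ) := (ENNReal.ofReal_coe_nnreal).symm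
    rw [h2, ← h1]
    refine lintegral_mono (fun a => ?_)
    simp only [ENNReal.ofReal_lt_top, if_true]
    split_ifs
    · exact le_rfl
    · exact bot_le
  · have := hfin g.toReal ENNReal.toReal_nonneg
    rwa [ENNReal.ofReal_toReal hg] at this

/-- layer cake formula for extended-valued functions -/
lemma layer_cake (μ : Measure ℝ) [SFinite μ] {g : ℝ → ℝ≥0∞} (hg : Measurable g) {r : ℝ}
    (hr : 0 < r) : ∫⁻ x, g x ^ r ∂μ =
      ∫⁻ a in Ioi (0 : ℝ), ENNReal.ofReal (r * a ^ (r - 1)) * μ {x | ENNReal.ofReal a < g x} := by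
  classical
  calc ∫⁻ x, g x ^ r ∂μ = ∫⁻ x, (∫⁻ a in Ioi (0 : ℝ), (if ENNReal.ofReal a < g x then
        ENNReal.ofReal (r * a ^ (r - 1)) else 0)) ∂μ := by
        refine lintegral_congr (fun x => ?_)
        rw [rpow_eq_lintegral _ hr]
    _ = ∫⁻ a in Ioi (0 : ℝ), ∫⁻ x, (if ENNReal.ofReal a < g x then
        ENNReal.ofReal (r * a ^ (r - 1)) else 0) ∂μ := by
        rw [lintegral_lintegral_swap]
        apply Measurable.aemeasurable
        apply Measurable.ite
        · exact measurableSet_lt (ENNReal.measurable_ofReal.comp measurable_snd)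
            (hg.comp measurable_fst)
        · exact ENNReal.measurable_ofReal.comp (by fun_prop)
        · exact measurable_const
    _ = _ := by
        refine lintegral_congr (fun a => ?_)
        have hset : MeasurableSet {x | ENNReal.ofReal a < g x} := measurableSet_lt measurable_const hg
        have : ∀ x, (if ENNReal.ofReal a < g x then ENNReal.ofReal (r * a ^ (r - 1)) else 0) =
            {x | ENNReal.ofReal a < g x}.indicator (fun _ => ENNReal.ofReal (r * a ^ (r - 1))) x := by
          intro x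
          simp [indicator]
        simp_rw [this]
        rw [lintegral_indicator hset, setLIntegral_const]

lemma MM_le_add (μ : Measure ℝ) {f f₁ : ℝ → ℝ≥0∞} (hf₁ : Measurable f₁) {c : ℝ≥0∞}
    (h : ∀ x, f x ≤ f₁ x + c) (x : ℝ) : MM μ f x ≤ MM μ f₁ x + c := by
  unfold MM
  refine iSup_le (fun a => iSup_le (fun b => iSup_le (fun hab => ?_)))
  calc (∫⁻ t in Ioo a b, f t ∂μ) / μ (Ioo a b)
      ≤ (∫⁻ t in Ioo a b, (f₁ t + c) ∂μ) / μ (Ioo a b) := by
        gcongr with t; exact h t
    _ = (∫⁻ t in Ioo a b, f₁ t ∂μ) / μ (Ioo a b) + c * μ (Ioo a b) / μ (Ioo a b) := by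
        rw [lintegral_add_left hf₁, setLIntegral_const, ENNReal.add_div]
    _ ≤ MM μ f₁ x + c := by
        gcongr
        · exact le_MM μ f₁ hab.1 hab.2
        · rw [mul_div_assoc]
          calc c * (μ (Ioo a b) / μ (Ioo a b)) ≤ c * 1 := by gcongr; exact ENNReal.div_self_le_one
            _ = c := mul_one c

/-- strong type `(r,r)` for `r > 1` -/
lemma strong_type (μ : Measure ℝ) [IsLocallyFiniteMeasure μ] {f : ℝ → ℝ≥0∞} (hf : Measurable f)
    {r : ℝ} (hr : 1 < r) :
    ∫⁻ x, (MM μ f x) ^ r ∂μ ≤ ENNReal.ofReal (4 * r / (r - 1)) * 2 ^ (r - 1) * ∫⁻ x, f x ^ r ∂μ := by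
  classical
  rw [layer_cake μ (measurable_MM μ f) (by linarith : 0 < r)]
  have hstep : ∀ a ∈ Ioi (0 : ℝ), ENNReal.ofReal (r * a ^ (r - 1)) *
      μ {x | ENNReal.ofReal a < MM μ f x} ≤ ENNReal.ofReal (4 * r / (r - 1)) *
        ∫⁻ x, f x * (if ENNReal.ofReal a < 2 * f x then ENNReal.ofReal ((r - 1) * a ^ (r - 1 - 1))
          else 0) ∂μ := by
    intro a ha
    have ha' : (0 : ℝ) < a := ha
    set f₁ : ℝ → ℝ≥0∞ := {x | ENNReal.ofReal (a / 2) < f x}.indicator f with hf₁
    have hset : MeasurableSet {x | ENNReal.ofReal (a / 2) < f x} :=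
      measurableSet_lt measurable_const hf
    have hf₁m : Measurable f₁ := hf.indicator hset
    have hle : ∀ x, f x ≤ f₁ x + ENNReal.ofReal (a / 2) := by
      intro x
      by_cases h : ENNReal.ofReal (a / 2) < f x
      · rw [hf₁, indicator_of_mem (show x ∈ {x | ENNReal.ofReal (a / 2) < f x} from h)]
        exact le_self_add
      · push Not at h
        exact h.trans le_add_self
    have hsub : {x | ENNReal.ofReal a < MM μ f x} ⊆ {x | ENNReal.ofReal (a / 2) < MM μ f₁ x} := by
      intro x hx
      simp only [mem_ofPred_eq] at hx ⊢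
      by_contra hcon
      push Not at hcon
      have h1 := MM_le_add μ hf₁m hle x
      have h2 : MM μ f x ≤ ENNReal.ofReal a := by
        refine h1.trans ((add_le_add_left hcon _).trans ?_)
        rw [← ENNReal.ofReal_add (by positivity) (by positivity)]
        apply ENNReal.ofReal_le_ofReal; linarith
      exact absurd hx (not_lt.2 h2)
    have hweak := weak_type μ hf₁m (ENNReal.ofReal (a / 2))
    have e1 : ENNReal.ofReal (r * a ^ (r - 1)) =
        ENNReal.ofReal (2 * r * a ^ (r - 1 - 1)) * ENNReal.ofReal (a / 2) := by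
      rw [← ENNReal.ofReal_mul (by positivity)]
      congr 1
      rw [Real.rpow_sub_one ha'.ne' (r - 1)]
      field_simp
    calc ENNReal.ofReal (r * a ^ (r - 1)) * μ {x | ENNReal.ofReal a < MM μ f x}
        ≤ ENNReal.ofReal (r * a ^ (r - 1)) * μ {x | ENNReal.ofReal (a / 2) < MM μ f₁ x} := by
          gcongr
      _ = ENNReal.ofReal (2 * r * a ^ (r - 1 - 1)) *
          (ENNReal.ofReal (a / 2) * μ {x | ENNReal.ofReal (a / 2) < MM μ f₁ x}) := by
          rw [e1, mul_assoc]
      _ ≤ ENNReal.ofReal (2 * r * a ^ (r - 1 - 1)) * (2 * ∫⁻ x, f₁ x ∂μ) := by gcongr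
      _ = ENNReal.ofReal (4 * r / (r - 1)) * (ENNReal.ofReal ((r - 1) * a ^ (r - 1 - 1)) *
          ∫⁻ x, f₁ x ∂μ) := by
          rw [← mul_assoc, ← mul_assoc]
          congr 1
          have hr1 : 0 < r - 1 := by linarith
          rw [← ENNReal.ofReal_mul (by positivity), show (2 : ℝ≥0∞) = ENNReal.ofReal 2 by simp,
            ← ENNReal.ofReal_mul (by positivity)]
          congr 1
          field_simp
          try ring
      _ = ENNReal.ofReal (4 * r / (r - 1)) * ∫⁻ x, f x * (if ENNReal.ofReal a < 2 * f x then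
          ENNReal.ofReal ((r - 1) * a ^ (r - 1 - 1)) else 0) ∂μ := by
          congr 1
          rw [← lintegral_const_mul _ hf₁m]
          refine lintegral_congr (fun x => ?_)
          have hiff : (ENNReal.ofReal (a / 2) < f x) ↔ (ENNReal.ofReal a < 2 * f x) := by
            rw [ENNReal.ofReal_div_of_pos (by norm_num), ENNReal.ofReal_ofNat,
              ENNReal.div_lt_iff (by simp) (by simp), mul_comm]
          by_cases h : ENNReal.ofReal (a / 2) < f x
          · rw [hf₁, indicator_of_mem (show x ∈ {x | ENNReal.ofReal (a / 2) < f x} from h),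
              if_pos (hiff.1 h), mul_comm]
          · rw [hf₁, indicator_of_notMem (show x ∉ {x | ENNReal.ofReal (a / 2) < f x} from h),
              if_neg (fun h2 => h (hiff.2 h2)), mul_zero, mul_zero]
  calc _ ≤ ∫⁻ a in Ioi (0 : ℝ), ENNReal.ofReal (4 * r / (r - 1)) *
        ∫⁻ x, f x * (if ENNReal.ofReal a < 2 * f x then ENNReal.ofReal ((r - 1) * a ^ (r - 1 - 1))
          else 0) ∂μ := setLIntegral_mono' measurableSet_Ioi hstep
    _ = ENNReal.ofReal (4 * r / (r - 1)) * ∫⁻ a in Ioi (0 : ℝ),
        ∫⁻ x, f x * (if ENNReal.ofReal a < 2 * f x then ENNReal.ofReal ((r - 1) * a ^ (r - 1 - 1))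
          else 0) ∂μ := lintegral_const_mul' _ _ ENNReal.ofReal_ne_top
    _ = ENNReal.ofReal (4 * r / (r - 1)) * ∫⁻ x, (∫⁻ a in Ioi (0 : ℝ),
        f x * (if ENNReal.ofReal a < 2 * f x then ENNReal.ofReal ((r - 1) * a ^ (r - 1 - 1))
          else 0)) ∂μ := by
        congr 1
        rw [lintegral_lintegral_swap]
        apply Measurable.aemeasurable
        apply Measurable.mul (hf.comp measurable_snd)
        apply Measurable.ite
        · exact measurableSet_lt (ENNReal.measurable_ofReal.comp measurable_fst)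
            ((hf.comp measurable_snd).const_mul 2)
        · exact ENNReal.measurable_ofReal.comp (by fun_prop)
        · exact measurable_const
    _ = ENNReal.ofReal (4 * r / (r - 1)) * ∫⁻ x, 2 ^ (r - 1) * f x ^ r ∂μ := by
        congr 1
        refine lintegral_congr (fun x => ?_)
        rw [lintegral_const_mul _ (by
          apply Measurable.ite
          · exact measurableSet_lt ENNReal.measurable_ofReal measurable_const
          · exact ENNReal.measurable_ofReal.comp (by fun_prop)
          · exact measurable_const),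
          rpow_eq_lintegral (2 * f x) (by linarith : 0 < r - 1),
          ENNReal.mul_rpow_of_nonneg _ _ (by linarith : 0 ≤ r - 1), ← mul_assoc,
          mul_comm (f x), mul_assoc]
        congr 1
        have h3 := ENNReal.rpow_add_of_nonneg (x := f x) 1 (r - 1) (by norm_num) (by linarith)
        rw [ENNReal.rpow_one] at h3
        rw [← h3]
        congr 1; ring
    _ = ENNReal.ofReal (4 * r / (r - 1)) * 2 ^ (r - 1) * ∫⁻ x, f x ^ r ∂μ := by
        rw [lintegral_const_mul _ (hf.pow_const r), mul_assoc]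

end Pool.Agent.GLam
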