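import Pool.Agent.GLam.ATwo

open MeasureTheory Set ENNReal Filter Topology
open scoped NNReal

namespace Pool.Agent.GLam

variable {U : ℝ → ℝ}

/-- the tangential majorant condition -/
def Maj (l : ℝ) (K : ℝ≥0) (h : ℝ → ℝ) : Prop :=
  ∀ᵐ x, ∀ z y : ℝ, 0 < y → ENNReal.ofReal ((y / (|x - z| + y)) ^ (l / 2)) *
        ((∫⁻ t in Ioo (z - y) (z + y), ENNReal.ofReal (h t)) / ENNReal.ofReal (2 * y)) ≤
          K * ENNReal.ofReal (h x)

/-- average of `h` over `(z-y,z+y)` -/
noncomputable def av (h : ℝ → ℝ) (z y : ℝ) : ℝ :=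
  ((∫⁻ t in Ioo (z - y) (z + y), ENNReal.ofReal (h t)) / ENNReal.ofReal (2 * y)).toReal

lemma av_spec {l : ℝ} {K : ℝ≥0} {h : ℝ → ℝ} (hh0 : ∀ x, 0 < h x)
    (hhm : Measurable h) (hM : Maj l K h) (z : ℝ) {y : ℝ} (hy : 0 < y) :
    0 < av h z y ∧ ENNReal.ofReal (av h z y) =
      (∫⁻ t in Ioo (z - y) (z + y), ENNReal.ofReal (h t)) / ENNReal.ofReal (2 * y) := by
  set X := (∫⁻ t in Ioo (z - y) (z + y), ENNReal.ofReal (h t)) / ENNReal.ofReal (2 * y) with hX
  have hfin : X ≠ ∞ := by
    intro htop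
    obtain ⟨x, hx⟩ := hM.exists
    have h1 := hx z y hy
    rw [← hX, htop, ENNReal.mul_top] at h1
    · exact absurd h1 (not_le.2 (ENNReal.mul_lt_top ENNReal.coe_lt_top ENNReal.ofReal_lt_top))
    · have : 0 < (y / (|x - z| + y)) ^ (l / 2) := by positivity
      simpa using this
  have hpos : 0 < X := by
    rw [hX]
    apply ENNReal.div_pos _ ENNReal.ofReal_ne_top
    apply ne_of_gt
    rw [setLIntegral_pos_iff hhm.ennreal_ofReal]
    have : Function.support (fun x => ENNReal.ofReal (h x)) = univ := by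
      ext x
      simp [hh0 x]
    rw [this, univ_inter, Real.volume_Ioo]
    simp
    linarith
  refine ⟨ENNReal.toReal_pos hpos.ne' hfin, ?_⟩
  unfold av
  rw [← hX, ENNReal.ofReal_toReal hfin]

lemma h_lower {l : ℝ} {K : ℝ≥0} {h : ℝ → ℝ} (hh0 : ∀ x, 0 < h x)
    (hhm : Measurable h) (hM : Maj l K h) :
    ∀ᵐ x, ∀ z y : ℝ, 0 < y → (y / (|x - z| + y)) ^ (l / 2) * av h z y ≤ K * h x := by
  have hM' := hM
  filter_upwards [hM'] with x hx z y hy
  have h1 := hx z y hy
  rw [← (av_spec hh0 hhm hM z hy).2, ← ENNReal.ofReal_mul (by positivity),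
    ← ENNReal.ofReal_coe_nnreal, ← ENNReal.ofReal_mul (by positivity)] at h1
  exact (ENNReal.ofReal_le_ofReal_iff (by have := hh0 x; positivity)).1 h1

/-- Hölder part -/
lemma W_upper {A : ℝ≥0} {p : ℝ} (hp1 : 1 < p) (hp2 : p < 2) (hA : ApW p A U) {h : ℝ → ℝ}
    (hh0 : ∀ x, 0 < h x) (hhm : Measurable h) {l : ℝ} {K : ℝ≥0}
    (hM : Maj l K h) (z : ℝ) {y : ℝ} (hy : 0 < y) :
    wm U (Ioo (z - y) (z + y)) * wm (fun x => h x ^ (2 - p) / U x) (Ioo (z - y) (z + y)) ≤
      ENNReal.ofReal (A * (av h z y) ^ (2 - p) * (2 * y) ^ 2) := by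
  obtain ⟨ha0, ha⟩ := av_spec hh0 hhm hM z hy
  have hp : 0 < p - 1 := by linarith
  have hp' : 0 < 2 - p := by linarith
  set I := Ioo (z - y) (z + y) with hI
  have hIm : MeasurableSet I := measurableSet_Ioo
  have hconj : (1 / (2 - p)).HolderConjugate (1 / (p - 1)) := by
    constructor
    · simp only [one_div, inv_inv, inv_one]; ring
    · positivity
    · positivity
  have hU0 := hA.nice.pos
  set F : ℝ → ℝ≥0∞ := fun x => ENNReal.ofReal (h x) ^ (2 - p) with hF
  set G : ℝ → ℝ≥0∞ := fun x => (ENNReal.ofReal (U x))⁻¹ with hG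
  have hFm : Measurable F := hhm.ennreal_ofReal.pow_const _
  have hGm : Measurable G := hA.nice.ofReal_meas.inv
  have h1 := ENNReal.lintegral_mul_le_Lp_mul_Lq (volume.restrict I) hconj hFm.aemeasurable
    hGm.aemeasurable
  have e1 : ∫⁻ x in I, (F * G) x = wm (fun x => h x ^ (2 - p) / U x) I := by
    rw [wm_apply _ hIm]
    refine lintegral_congr (fun x => ?_)
    simp only [Pi.mul_apply, hF, hG]
    rw [ENNReal.ofReal_div_of_pos (hU0 x), ENNReal.ofReal_rpow_of_pos (hh0 x), div_eq_mul_inv]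
  have e2 : ∫⁻ x in I, F x ^ (1 / (2 - p)) = ENNReal.ofReal (av h z y * (2 * y)) := by
    have e3 : ∫⁻ x in I, F x ^ (1 / (2 - p)) = ∫⁻ x in I, ENNReal.ofReal (h x) := by
      refine lintegral_congr (fun x => ?_)
      simp only [hF]
      rw [← ENNReal.rpow_mul, mul_one_div_cancel hp'.ne', ENNReal.rpow_one]
    rw [e3, ENNReal.ofReal_mul ha0.le, ha, ENNReal.div_mul_cancel]
    · simpa using hy
    · exact ENNReal.ofReal_ne_top
  have e4 : ∫⁻ x in I, G x ^ (1 / (p - 1)) = wm (conj p U) I := by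
    rw [wm_apply _ hIm]
    refine lintegral_congr (fun x => ?_)
    simp only [hG]
    rw [ofReal_conj hA.nice, ← ENNReal.rpow_neg_one, ← ENNReal.rpow_mul]
    congr 1
    ring
  rw [e1, e2, e4, one_div_one_div, one_div_one_div] at h1
  have h2 := hA.ap (z - y) (z + y) (by linarith)
  rw [show z + y - (z - y) = 2 * y by ring, ← hI] at h2
  calc wm U I * wm (fun x => h x ^ (2 - p) / U x) I
      ≤ wm U I * (ENNReal.ofReal (av h z y * (2 * y)) ^ (2 - p) * wm (conj p U) I ^ (p - 1)) := by
        gcongr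
    _ = ENNReal.ofReal (av h z y * (2 * y)) ^ (2 - p) * (wm U I * wm (conj p U) I ^ (p - 1)) := by
        ring
    _ ≤ ENNReal.ofReal (av h z y * (2 * y)) ^ (2 - p) * (A * ENNReal.ofReal (2 * y) ^ p) := by
        gcongr
    _ = ENNReal.ofReal (A * (av h z y) ^ (2 - p) * (2 * y) ^ 2) := by
        rw [ENNReal.ofReal_rpow_of_pos (by positivity), ENNReal.ofReal_rpow_of_pos (by positivity),
          ← ENNReal.ofReal_coe_nnreal, ← ENNReal.ofReal_mul (by positivity),
          ← ENNReal.ofReal_mul (by positivity)]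
        congr 1
        rw [Real.mul_rpow ha0.le (by positivity)]
        have : (2 * y) ^ (2 : ℕ) = (2 * y) ^ (2 - p) * (2 * y) ^ p := by
          rw [← Real.rpow_add (by positivity), ← Real.rpow_natCast]
          congr 1
          push_cast
          ring
        rw [this]
        ring

theorem weights {A : ℝ≥0} {p : ℝ} (hp1 : 1 < p) (hp2 : p < 2) (hA : ApW p A U) {h : ℝ → ℝ}
    (hh0 : ∀ x, 0 < h x) (hhm : Measurable h) {l : ℝ} (hl : 0 < l) (hl2 : l ≤ 2) {K : ℝ≥0}
    (hK : 0 < K) (hM : Maj l K h) {CB : ℝ} (hCB : 0 ≤ CB)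
    (hB : ∀ z y : ℝ, 0 < y → ∫⁻ x, ENNReal.ofReal ((y / (|x - z| + y)) ^ (l * p / 2)) *
      ENNReal.ofReal (U x) ≤ ENNReal.ofReal CB * wm U (Ioo (z - y) (z + y))) :
    A2 (max 1 ((2 * K) ^ (2 - p) * A)) (fun x => h x ^ (p - 2) * U x)
      (fun x => h x ^ (2 - p) / U x) ∧
    ∀ z y : ℝ, 0 < y → ∫⁻ x, ENNReal.ofReal ((y / (|x - z| + y)) ^ l) *
      ENNReal.ofReal (h x ^ (p - 2) * U x) ≤ ENNReal.ofReal ((K : ℝ) ^ (2 - p) * CB * A) *
        wm (fun x => h x ^ (p - 2) * U x) (Ioo (z - y) (z + y)) := by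
  have hU0 := hA.nice.pos
  have hUm := hA.nice.meas
  have hp' : 0 < 2 - p := by linarith
  have hKr : (0 : ℝ) < K := by exact_mod_cast hK
  set V : ℝ → ℝ := fun x => h x ^ (p - 2) * U x with hV
  set W : ℝ → ℝ := fun x => h x ^ (2 - p) / U x with hW
  have hV0 : ∀ x, 0 < V x := fun x => by
    have := hh0 x
    have := hU0 x
    simp only [hV]; positivity
  have hW0 : ∀ x, 0 < W x := fun x => by
    have := hh0 x
    have := hU0 x
    simp only [hW]; positivity
  have hVm : Measurable V := (hhm.pow_const _).mul hUm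
  have hWm : Measurable W := (hhm.pow_const _).div hUm
  have hVW : ∀ x, V x * W x = 1 := fun x => by
    have h1 := hh0 x
    have h2 := hU0 x
    simp only [hV, hW]
    have : h x ^ (p - 2) * h x ^ (2 - p) = 1 := by
      rw [← Real.rpow_add h1]; simp
    field_simp
    linarith
  have hlow := h_lower hh0 hhm hM
  -- lower bound of h on the interval
  have hlowI : ∀ᵐ x, ∀ z y : ℝ, 0 < y → x ∈ Ioo (z - y) (z + y) →
      av h z y / (2 * K) ≤ h x := by
    filter_upwards [hlow] with x hx z y hy hxI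
    have h1 := hx z y hy
    have h2 : |x - z| < y := by rw [abs_lt]; constructor <;> linarith [hxI.1, hxI.2]
    have h3 : (1 / 2 : ℝ) ≤ y / (|x - z| + y) := by
      rw [div_le_div_iff₀ (by norm_num) (by positivity)]; linarith
    have h4 : (1 / 2 : ℝ) ≤ (y / (|x - z| + y)) ^ (l / 2) := by
      calc (1 / 2 : ℝ) = (1 / 2 : ℝ) ^ (1 : ℝ) := by simp
        _ ≤ (1 / 2 : ℝ) ^ (l / 2) :=
            Real.rpow_le_rpow_of_exponent_ge (by norm_num) (by norm_num) (by linarith)
        _ ≤ _ := Real.rpow_le_rpow (by norm_num) h3 (by linarith)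
    have ha0 := (av_spec hh0 hhm hM z hy).1
    rw [div_le_iff₀ (by positivity)]
    nlinarith
  -- upper bound for V on intervals
  have hVup : ∀ z y : ℝ, 0 < y → wm V (Ioo (z - y) (z + y)) ≤
      ENNReal.ofReal ((av h z y / (2 * K)) ^ (p - 2)) * wm U (Ioo (z - y) (z + y)) := by
    intro z y hy
    have ha0 := (av_spec hh0 hhm hM z hy).1
    rw [wm_apply V measurableSet_Ioo, wm_apply U measurableSet_Ioo,
      ← lintegral_const_mul' _ _ ENNReal.ofReal_ne_top]
    refine lintegral_mono_ae ?_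
    rw [ae_restrict_iff' measurableSet_Ioo]
    filter_upwards [hlowI] with x hx hxI
    have h1 := hx z y hy hxI
    simp only [hV]
    rw [← ENNReal.ofReal_mul (by positivity)]
    apply ENNReal.ofReal_le_ofReal
    exact mul_le_mul_of_nonneg_right (Real.rpow_le_rpow_of_nonpos (by positivity) h1
      (by linarith)) (hU0 x).le
  have hWup := fun z y (hy : 0 < y) => W_upper (y := y) hp1 hp2 hA hh0 hhm hM z hy
  have hcenter : ∀ a b : ℝ, Ioo a b = Ioo ((a + b) / 2 - (b - a) / 2) ((a + b) / 2 + (b - a) / 2) := by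
    intro a b
    congr 1 <;> ring
  have hVfin : ∀ a b : ℝ, wm V (Ioo a b) < ∞ := by
    intro a b
    rcases le_or_gt b a with hab | hab
    · rw [Ioo_eq_empty (not_lt.2 hab)]; simp
    · rw [hcenter a b]
      exact (hVup _ _ (by linarith)).trans_lt
        (ENNReal.mul_lt_top ENNReal.ofReal_lt_top (hA.nice.mass_lt_top _ _))
  have hWfin : ∀ a b : ℝ, wm W (Ioo a b) < ∞ := by
    intro a b
    rcases le_or_gt b a with hab | hab
    · rw [Ioo_eq_empty (not_lt.2 hab)]; simp
    · rw [hcenter a b]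
      have h1 := hWup ((a + b) / 2) ((b - a) / 2) (by linarith)
      rw [lt_top_iff_ne_top]
      intro htop
      rw [← hW] at h1
      rw [htop, ENNReal.mul_top (hA.nice.mass_pos (by linarith)).ne'] at h1
      exact absurd h1 (not_le.2 ENNReal.ofReal_lt_top)
  have hnV : Nice V := ⟨hV0, hVm, fun a b => by
    have := hVfin a b
    rwa [wm_apply V measurableSet_Ioo] at this⟩
  have hnW : Nice W := ⟨hW0, hWm, fun a b => by
    have := hWfin a b
    rwa [wm_apply W measurableSet_Ioo] at this⟩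
  refine ⟨⟨hnV, hnW, hVW, le_max_left _ _, fun a b hab => ?_⟩, fun z y hy => ?_⟩
  · rw [hcenter a b]
    set z := (a + b) / 2 with hz
    set y := (b - a) / 2 with hy
    have hy0 : 0 < y := by rw [hy]; linarith
    obtain ⟨ha0, ha⟩ := av_spec hh0 hhm hM z hy0
    calc wm V (Ioo (z - y) (z + y)) * wm W (Ioo (z - y) (z + y))
        ≤ (ENNReal.ofReal ((av h z y / (2 * K)) ^ (p - 2)) * wm U (Ioo (z - y) (z + y))) *
          wm W (Ioo (z - y) (z + y)) := by gcongr; exact hVup z y hy0
      _ = ENNReal.ofReal ((av h z y / (2 * K)) ^ (p - 2)) * (wm U (Ioo (z - y) (z + y)) *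
          wm W (Ioo (z - y) (z + y))) := by ring
      _ ≤ ENNReal.ofReal ((av h z y / (2 * K)) ^ (p - 2)) *
          ENNReal.ofReal (A * (av h z y) ^ (2 - p) * (2 * y) ^ 2) := by
          gcongr; exact hWup z y hy0
      _ ≤ ENNReal.ofReal (max 1 ((2 * K) ^ (2 - p) * A) * (b - a) ^ 2) := by
          rw [← ENNReal.ofReal_mul (by positivity)]
          apply ENNReal.ofReal_le_ofReal
          have e1 : (av h z y / (2 * K)) ^ (p - 2) * (A * (av h z y) ^ (2 - p) * (2 * y) ^ 2) =
              ((2 * K) ^ (2 - p) * A) * (b - a) ^ 2 := by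
            rw [Real.div_rpow ha0.le (by positivity)]
            have e2 : (2 * (K : ℝ)) ^ (p - 2) * (2 * K) ^ (2 - p) = 1 := by
              rw [← Real.rpow_add (by positivity)]; simp
            have e3 : (av h z y) ^ (p - 2) * (av h z y) ^ (2 - p) = 1 := by
              rw [← Real.rpow_add ha0]; simp
            have e4 : 2 * y = b - a := by rw [hy]; ring
            rw [e4]
            have e5 : ((2 * (K : ℝ)) ^ (p - 2)) ≠ 0 := by positivity
            rw [div_mul_eq_mul_div, div_eq_iff e5]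
            calc _ = ((av h z y) ^ (p - 2) * (av h z y) ^ (2 - p)) * (A * (b - a) ^ 2) := by ring
              _ = ((2 * (K : ℝ)) ^ (p - 2) * (2 * K) ^ (2 - p)) * (A * (b - a) ^ 2) := by
                  rw [e2, e3]
              _ = _ := by ring
          rw [e1]
          gcongr
          exact le_max_right _ _
  · obtain ⟨ha0, ha⟩ := av_spec hh0 hhm hM z hy
    set a := av h z y with haa
    set I := Ioo (z - y) (z + y) with hI
    have hUlow : wm U I ≤ ENNReal.ofReal (A * a ^ (2 - p)) * wm V I := by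
      have h1 := cs_set hnV hnW hVW (E := I) measurableSet_Ioo
      rw [hI, Real.volume_Ioo, show z + y - (z - y) = 2 * y by ring, ← hI] at h1
      have h2 := hWup z y hy
      rw [← hI, ← haa, ← hW] at h2
      have hl0 : ENNReal.ofReal (2 * y) ^ 2 ≠ 0 := by
        apply pow_ne_zero
        simpa using hy
      have hlt : ENNReal.ofReal (2 * y) ^ 2 ≠ ∞ := ENNReal.pow_ne_top ENNReal.ofReal_ne_top
      have h3 : wm U I * ENNReal.ofReal (2 * y) ^ 2 ≤
          (ENNReal.ofReal (A * a ^ (2 - p)) * wm V I) * ENNReal.ofReal (2 * y) ^ 2 := by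
        calc wm U I * ENNReal.ofReal (2 * y) ^ 2 ≤ wm U I * (wm V I * wm W I) := by gcongr
          _ = wm V I * (wm U I * wm W I) := by ring
          _ ≤ wm V I * ENNReal.ofReal (A * a ^ (2 - p) * (2 * y) ^ 2) := by gcongr
          _ = _ := by
              rw [ENNReal.ofReal_mul (by positivity), ENNReal.ofReal_pow (by positivity)]
              ring
      exact (ENNReal.mul_le_mul_iff_left hl0 hlt).1 h3
    calc ∫⁻ x, ENNReal.ofReal ((y / (|x - z| + y)) ^ l) * ENNReal.ofReal (h x ^ (p - 2) * U x)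
        ≤ ∫⁻ x, ENNReal.ofReal ((a / K) ^ (p - 2)) *
          (ENNReal.ofReal ((y / (|x - z| + y)) ^ (l * p / 2)) * ENNReal.ofReal (U x)) := by
          refine lintegral_mono_ae ?_
          filter_upwards [hlow] with x hx
          have h1 := hx z y hy
          set ρ := y / (|x - z| + y) with hρ
          have hρ0 : 0 < ρ := by
            have := abs_nonneg (x - z)
            positivity
          have hx0 := hh0 x
          have hUx := hU0 x
          rw [← ENNReal.ofReal_mul (by positivity), ← ENNReal.ofReal_mul (by positivity),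
            ← ENNReal.ofReal_mul (by positivity)]
          apply ENNReal.ofReal_le_ofReal
          have h2 : ρ ^ (l / 2) * (a / K) ≤ h x := by
            rw [mul_div_assoc', div_le_iff₀ hKr]
            linarith
          have h3 : h x ^ (p - 2) ≤ (ρ ^ (l / 2) * (a / K)) ^ (p - 2) :=
            Real.rpow_le_rpow_of_nonpos (by positivity) h2 (by linarith)
          have h4 : (ρ ^ (l / 2) * (a / K)) ^ (p - 2) = ρ ^ (l / 2 * (p - 2)) * (a / K) ^ (p - 2) := by
            rw [Real.mul_rpow (by positivity) (by positivity), ← Real.rpow_mul hρ0.le]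
          have h5 : ρ ^ l * ρ ^ (l / 2 * (p - 2)) = ρ ^ (l * p / 2) := by
            rw [← Real.rpow_add hρ0]
            congr 1
            ring
          calc ρ ^ l * (h x ^ (p - 2) * U x)
              ≤ ρ ^ l * ((ρ ^ (l / 2 * (p - 2)) * (a / K) ^ (p - 2)) * U x) := by
                rw [← h4]; gcongr
            _ = (a / K) ^ (p - 2) * ((ρ ^ l * ρ ^ (l / 2 * (p - 2))) * U x) := by ring
            _ = _ := by rw [h5]
      _ = ENNReal.ofReal ((a / K) ^ (p - 2)) *
          ∫⁻ x, ENNReal.ofReal ((y / (|x - z| + y)) ^ (l * p / 2)) * ENNReal.ofReal (U x) :=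
          lintegral_const_mul' _ _ ENNReal.ofReal_ne_top
      _ ≤ ENNReal.ofReal ((a / K) ^ (p - 2)) * (ENNReal.ofReal CB *
          (ENNReal.ofReal (A * a ^ (2 - p)) * wm V I)) := by
          gcongr
          exact (hB z y hy).trans (by gcongr)
      _ = ENNReal.ofReal ((K : ℝ) ^ (2 - p) * CB * A) * wm V I := by
          rw [← mul_assoc, ← mul_assoc, ← ENNReal.ofReal_mul (by positivity),
            ← ENNReal.ofReal_mul (by positivity)]
          congr 2
          rw [Real.div_rpow ha0.le hKr.le]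
          have e2 : (K : ℝ) ^ (p - 2) * (K : ℝ) ^ (2 - p) = 1 := by
            rw [← Real.rpow_add hKr]; simp
          have e3 : a ^ (p - 2) * a ^ (2 - p) = 1 := by
            rw [← Real.rpow_add ha0]; simp
          have e5 : ((K : ℝ) ^ (p - 2)) ≠ 0 := by positivity
          rw [div_mul_eq_mul_div, div_mul_eq_mul_div, div_eq_iff e5]
          calc _ = (a ^ (p - 2) * a ^ (2 - p)) * (CB * A) := by ring
            _ = ((K : ℝ) ^ (p - 2) * (K : ℝ) ^ (2 - p)) * (CB * A) := by rw [e2, e3]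
            _ = _ := by ring

end Pool.Agent.GLam
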